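import Pool.Agent.H9C.QR.TRI2

/-!
# Complete regular local rings with `p = x_0 x_1 x_2`: perfect residue fields, examples
-/

set_option autoImplicit false

open Polynomial

noncomputable section

namespace Pool.Agent.H9C.QR

open BQ Pool.Agent.H40.BP IsLocalRing Pool.Agent.W394.BQN Pool.Agent.H9C.CS

/-- a coefficient ring for perfect residue fields -/
theorem perf_coeff (p : ℕ) (hp : p.Prime) (R : Type) [CommRing R]
    [IsRegularLocalRing R] [IsAdicComplete (maximalIdeal R) R] [CharP (ResidueField R) p]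
    (hperf : Function.Surjective (fun a : ResidueField R => a ^ p)) :
    ∃ (V : Type) (_ : CommRing V) (_ : IsDomain V) (_ : IsPrincipalIdealRing V)
      (_ : IsLocalRing V) (_ : IsAdicComplete (maximalIdeal V) V) (_ : CharZero V)
      (φ : V →+* R), Prime (p : V) ∧ Function.Surjective ((residue R).comp φ) := by
  have hF : Fact p.Prime := ⟨hp⟩
  have hP : PerfectRing (ResidueField R) p := PerfectRing.ofSurjective _ p hperf
  obtain ⟨φ, hφ⟩ := Pool.Agent.Q211.CS.t_WIT p R
  obtain ⟨h1, h2, h3⟩ := witt_data p (ResidueField R)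
  exact ⟨WittVector p (ResidueField R), inferInstance, inferInstance, inferInstance, inferInstance,
    h2, h3, φ, h1, fun a => by
      obtain ⟨w, hw⟩ := WittVector.constantCoeff_surjective (p := p) (R := ResidueField R) a
      exact ⟨w, (hφ w).trans hw⟩⟩

/-- the ring `ℤ_p[[X_0,...,X_(r+2)]]/(X_0 X_1 X_2 - p)` -/
theorem tri_example (p : ℕ) (hp : p.Prime) (r : ℕ) :
    ∃ (R : Type) (_ : CommRing R) (_ : IsRegularLocalRing R) (x : Fin (r + 3) → R)
      (V : Type) (_ : CommRing V) (_ : IsDomain V) (_ : IsPrincipalIdealRing V)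
      (_ : IsLocalRing V) (_ : IsAdicComplete (maximalIdeal V) V) (_ : CharZero V) (φ : V →+* R),
      IsAdicComplete (maximalIdeal R) R ∧ CharZero R ∧
      ringKrullDim R = ((r + 3 : ℕ) : WithBot ℕ∞) ∧
      maximalIdeal R = Ideal.span (Set.range x) ∧ (p : R) = x 0 * x 1 * x 2 ∧
      Prime (p : V) ∧ Function.Surjective ((residue R).comp φ) := by
  have hF : Fact p.Prime := ⟨hp⟩
  have hpr : Prime (p : ℤ_[p]) := PadicInt.prime_p
  have hJ := J3_nonempty r
  obtain ⟨h1, h2, h3, h4⟩ := csr_data (p : ℤ_[p]) hpr (r + 2) (J3 r) hJ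
  set B := CSR ℤ_[p] (p : ℤ_[p]) (J3 r) with hB
  let f : ℤ_[p] →+* B := (QuotBy.mk (csrRel (p : ℤ_[p]) (J3 r))).comp MvPowerSeries.C
  let x : Fin (r + 3) → B := fun i => QuotBy.mk (csrRel (p : ℤ_[p]) (J3 r)) (MvPowerSeries.X i)
  have hfp : f (p : ℤ_[p]) ≠ 0 := csr_p_ne (p : ℤ_[p]) hpr (r + 2) (J3 r) hJ
  have hdom : IsDomain B := csr_domain (p : ℤ_[p]) hpr (J3 r) hJ
  have hfx : f (p : ℤ_[p]) = ∏ i ∈ J3 r, x i := by
    rw [← map_prod]
    symm
    exact (Ideal.Quotient.mk_eq_mk_iff_sub_mem _ _).2 (Ideal.mem_span_singleton_self _)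
  have hfi : Function.Injective f := by
    rw [injective_iff_map_eq_zero]
    intro a ha
    by_contra ha0
    obtain ⟨k, u, hu⟩ := IsDiscreteValuationRing.eq_unit_mul_pow_irreducible ha0
      hpr.irreducible
    rw [hu, map_mul, map_pow] at ha
    rcases mul_eq_zero.1 ha with h | h
    · exact (u.isUnit.map f).ne_zero h
    · exact hfp (eq_zero_of_pow_eq_zero h)
  have hch : CharZero B := ⟨fun a b hab => by
    have h7 : f (a : ℤ_[p]) = f (b : ℤ_[p]) :=
      (map_natCast f a).trans (hab.trans (map_natCast f b).symm)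
    exact Nat.cast_injective (hfi h7)⟩
  refine ⟨B, inferInstance, h1, x, ℤ_[p], inferInstance, inferInstance, inferInstance,
    inferInstance, inferInstance, inferInstance, f, h2, hch, h3, h4, ?_, hpr, ?_⟩
  · rw [← prod_J3 r x, ← hfx]
    exact (map_natCast f p).symm
  · exact res_mv (csrRel (p : ℤ_[p]) (J3 r))

end Pool.Agent.H9C.QR
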