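import Pool.Agent.H9C.QR.LAR
import Pool.Agent.H9C.QR.TRI3

/-!
# Absorption of a unit factor; `V[[X_0,...,X_n]]/(X_0 X_1 X_2 - π)` localised at `X_1`
-/

set_option autoImplicit false

open Polynomial

noncomputable section

namespace Pool.Agent.H9C.QR

open BQ Pool.Agent.H40.BP IsLocalRing Pool.Agent.W394.BQN Pool.Agent.H9C.CS

theorem nm_rel {B : Type} [CommRing B] (s u : B) :
    nm s u (Polynomial.C s) * nm s u X = nm s u (Polynomial.C u) := by
  rw [← map_mul]
  exact (Ideal.Quotient.mk_eq_mk_iff_sub_mem _ _).2 (Ideal.mem_span_singleton_self _)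

/-- homomorphisms from the localisations -/
theorem away_hom_ext {B T : Type} [CommRing B] [CommRing T] {s u : B} {a : NodeP s u}
    (f g : Localization.Away a →+* T)
    (hC : ∀ c : B, f (algebraMap _ _ (nm s u (Polynomial.C c))) =
      g (algebraMap _ _ (nm s u (Polynomial.C c))))
    (hX : f (algebraMap _ _ (nm s u X)) = g (algebraMap _ _ (nm s u X))) : f = g := by
  have h1 : f.comp (algebraMap (NodeP s u) (Localization.Away a)) =
      g.comp (algebraMap (NodeP s u) (Localization.Away a)) := by
    have h2 : (f.comp (algebraMap (NodeP s u) (Localization.Away a))).comp (nm s u) =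
        (g.comp (algebraMap (NodeP s u) (Localization.Away a))).comp (nm s u) :=
      Polynomial.ringHom_ext hC hX
    apply RingHom.ext
    intro z
    obtain ⟨P, rfl⟩ := Ideal.Quotient.mk_surjective z
    exact RingHom.congr_fun h2 P
  exact IsLocalization.ringHom_ext (Submonoid.powers a) h1

/-- homomorphisms to a ring -/
theorem node_hom {B T : Type} [CommRing B] [CommRing T] (s u : B) (f : B →+* T) (w : T)
    (h : f s * w = f u) : ∃ F : NodeP s u →+* T, (∀ c, F (nm s u (Polynomial.C c)) = f c) ∧
      F (nm s u X) = w := by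
  have hC : ∀ c, Polynomial.eval₂RingHom f w (Polynomial.C c) = f c := fun c =>
    Polynomial.eval₂_C f w
  have hX : Polynomial.eval₂RingHom f w X = w := Polynomial.eval₂_X f w
  let F : NodeP s u →+* T := Ideal.Quotient.lift (Ideal.span {nodeP s u})
    (Polynomial.eval₂RingHom f w) (by
      intro c hc
      obtain ⟨d, rfl⟩ := Ideal.mem_span_singleton.1 hc
      have h1 : Polynomial.eval₂RingHom f w (nodeP s u) = 0 := by
        show Polynomial.eval₂RingHom f w (Polynomial.C s * X - Polynomial.C u) = 0
        rw [map_sub, map_mul, hC, hX, hC, h, sub_self]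
      rw [map_mul, h1, zero_mul])
  have hF : ∀ P, F (nm s u P) = Polynomial.eval₂RingHom f w P := fun P =>
    Ideal.Quotient.lift_mk _ _ _
  exact ⟨F, fun c => (hF _).trans (hC c), (hF X).trans hX⟩

theorem abx_f {B : Type} [CommRing B] (x s u : B) :
    ∃ f : Localization.Away (nm s u (Polynomial.C x)) →+*
      Localization.Away (nm (x * s) u (Polynomial.C x)),
      (∀ c, f (algebraMap _ _ (nm s u (Polynomial.C c))) =
        algebraMap _ _ (nm (x * s) u (Polynomial.C c))) ∧
      f (algebraMap _ _ (nm s u X)) = algebraMap _ _ (nm (x * s) u (Polynomial.C x * X)) := by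
  obtain ⟨F, hFC, hFX⟩ := node_hom s u
    ((algebraMap _ (Localization.Away (nm (x * s) u (Polynomial.C x)))).comp
      ((nm (x * s) u).comp Polynomial.C))
    (algebraMap _ (Localization.Away (nm (x * s) u (Polynomial.C x)))
      (nm (x * s) u (Polynomial.C x * X))) (by
        show algebraMap _ (Localization.Away (nm (x * s) u (Polynomial.C x)))
          (nm (x * s) u (Polynomial.C s)) * _ =
          algebraMap _ (Localization.Away (nm (x * s) u (Polynomial.C x)))
            (nm (x * s) u (Polynomial.C u))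
        rw [← map_mul, ← map_mul, ← nm_rel (x * s) u, ← map_mul]
        congr 2
        rw [Polynomial.C_mul]
        ring)
  have hu : IsUnit (F (nm s u (Polynomial.C x))) := by
    rw [hFC]
    exact IsLocalization.Away.algebraMap_isUnit (nm (x * s) u (Polynomial.C x))
  refine ⟨IsLocalization.Away.lift (nm s u (Polynomial.C x)) hu, fun c => ?_, ?_⟩
  · rw [IsLocalization.Away.lift_eq, hFC]
    rfl
  · rw [IsLocalization.Away.lift_eq, hFX]

theorem abx_g {B : Type} [CommRing B] (x s u : B) :
    ∃ g : Localization.Away (nm (x * s) u (Polynomial.C x)) →+*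
      Localization.Away (nm s u (Polynomial.C x)),
      (∀ c, g (algebraMap _ _ (nm (x * s) u (Polynomial.C c))) =
        algebraMap _ _ (nm s u (Polynomial.C c))) ∧
      algebraMap _ _ (nm s u (Polynomial.C x)) * g (algebraMap _ _ (nm (x * s) u X)) =
        algebraMap _ _ (nm s u X) := by
  have hia : algebraMap _ (Localization.Away (nm s u (Polynomial.C x)))
      (nm s u (Polynomial.C x)) * IsLocalization.Away.invSelf (nm s u (Polynomial.C x)) = 1 :=
    IsLocalization.Away.mul_invSelf (nm s u (Polynomial.C x))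
  obtain ⟨F, hFC, hFX⟩ := node_hom (x * s) u
    ((algebraMap _ (Localization.Away (nm s u (Polynomial.C x)))).comp
      ((nm s u).comp Polynomial.C))
    (algebraMap _ (Localization.Away (nm s u (Polynomial.C x))) (nm s u X) *
      IsLocalization.Away.invSelf (nm s u (Polynomial.C x))) (by
        show algebraMap _ (Localization.Away (nm s u (Polynomial.C x)))
          (nm s u (Polynomial.C (x * s))) * _ =
          algebraMap _ (Localization.Away (nm s u (Polynomial.C x))) (nm s u (Polynomial.C u))
        rw [Polynomial.C_mul, map_mul, map_mul, ← nm_rel s u, map_mul]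
        calc _ = (algebraMap _ (Localization.Away (nm s u (Polynomial.C x)))
              (nm s u (Polynomial.C x)) *
                IsLocalization.Away.invSelf (nm s u (Polynomial.C x))) *
              (algebraMap _ _ (nm s u (Polynomial.C s)) * algebraMap _ _ (nm s u X)) := by ring
          _ = _ := by rw [hia, one_mul])
  have hu : IsUnit (F (nm (x * s) u (Polynomial.C x))) := by
    rw [hFC]
    exact IsLocalization.Away.algebraMap_isUnit (nm s u (Polynomial.C x))
  refine ⟨IsLocalization.Away.lift (nm (x * s) u (Polynomial.C x)) hu, fun c => ?_, ?_⟩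
  · rw [IsLocalization.Away.lift_eq, hFC]
    rfl
  · rw [IsLocalization.Away.lift_eq, hFX]
    calc _ = (algebraMap _ (Localization.Away (nm s u (Polynomial.C x)))
          (nm s u (Polynomial.C x)) *
            IsLocalization.Away.invSelf (nm s u (Polynomial.C x))) *
          algebraMap _ _ (nm s u X) := by ring
      _ = _ := by rw [hia, one_mul]

/-- a factor which is inverted can be absorbed in `w` -/
theorem abx {B : Type} [CommRing B] (x s u : B) :
    Nonempty (Localization.Away (nm s u (Polynomial.C x)) ≃+*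
      Localization.Away (nm (x * s) u (Polynomial.C x))) := by
  obtain ⟨f, fC, fX⟩ := abx_f x s u
  obtain ⟨g, gC, gX⟩ := abx_g x s u
  have hu := IsLocalization.Away.algebraMap_isUnit (S := Localization.Away (nm (x * s) u
    (Polynomial.C x))) (nm (x * s) u (Polynomial.C x))
  refine ⟨RingEquiv.ofRingHom f g ?_ ?_⟩
  · apply away_hom_ext
    · intro c
      rw [RingHom.comp_apply, RingHom.id_apply, gC, fC]
    · rw [RingHom.comp_apply, RingHom.id_apply]
      have h1 := congrArg f gX
      rw [map_mul, fC, fX, map_mul, map_mul] at h1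
      exact hu.mul_left_cancel h1
  · apply away_hom_ext
    · intro c
      rw [RingHom.comp_apply, RingHom.id_apply, fC, gC]
    · rw [RingHom.comp_apply, RingHom.id_apply, fX, map_mul, map_mul, map_mul, gC]
      exact gX

/-- two presentations, with values -/
theorem node_iso' {B : Type} [CommRing B] (s u : B) : ∃ e : QF (rel 1 s u) ≃+* NodeP s u,
    ∀ b : B, e (qm _ (MvPolynomial.C b)) = nm s u (Polynomial.C b) := by
  have h0 : Ideal.span {rel 0 (Polynomial.C s * X : B[X]) (Polynomial.C u)} =
      Ideal.map (POL.sp 0 B : MvPolynomial (Fin 1) B →+* MvPolynomial (Fin 0) B[X])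
        (Ideal.span {rel 1 s u}) := by
    rw [Ideal.map_span, Set.image_singleton]
    congr 1
    rw [Set.singleton_eq_singleton_iff]
    exact (POL.sp_rel 0 B s u).symm
  obtain ⟨e1, he1⟩ : ∃ e1 : QF (rel 1 s u) ≃+* QF (rel 0 (Polynomial.C s * X : B[X])
      (Polynomial.C u)), ∀ P, e1 (qm (rel 1 s u) P) = qm _ (POL.sp 0 B P) :=
    ⟨Ideal.quotientEquiv _ _ (POL.sp 0 B) h0, fun P => Ideal.quotientEquiv_mk _ _ _ h0 P⟩
  refine ⟨e1.trans (qfZero (Polynomial.C s * X : B[X]) (Polynomial.C u)), fun b => ?_⟩
  rw [RingEquiv.trans_apply, he1, POL.sp_C]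
  exact qfZero_C (Polynomial.C s * X : B[X]) (Polynomial.C u) (Polynomial.C b)

/-- the ring `K[[x]][[X]][w]/(x t w - u)` localised at `x` -/
theorem n3_input (K : Type) [CommRing K] [IsDomain K] [IsLocalRing K] [IsNoetherianRing K]
    [IsAdicComplete (maximalIdeal K) K] (t u : K) (hmax : maximalIdeal K = Ideal.span {t, u})
    (ht : Prime t) (hu : Prime u) (htu : ¬ t ∣ u) (hut : ¬ u ∣ t) (r : ℕ) :
    AF (Localization.Away (nm
      (MvPowerSeries.C (PowerSeries.X * PowerSeries.C t) : MvPowerSeries (Fin r) (PowerSeries K))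
      (MvPowerSeries.C (PowerSeries.C u))
      (Polynomial.C (MvPowerSeries.C (PowerSeries.X * PowerSeries.C 1))))) := by
  have h1 := lar_qf K t u hmax ht hu htu hut r _ rfl
  obtain ⟨e, he1, he2, -⟩ := t_SW r K
  have hs1 : e.symm (MvPowerSeries.C t) = MvPowerSeries.C (PowerSeries.C t) := by
    rw [← he1, e.symm_apply_apply]
  have hs2 : e.symm (MvPowerSeries.C u) = MvPowerSeries.C (PowerSeries.C u) := by
    rw [← he1, e.symm_apply_apply]
  have hs3 : e.symm (MvPowerSeries.X 0) = MvPowerSeries.C PowerSeries.X := by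
    rw [← he2, e.symm_apply_apply]
  let e1 : QF (rel 1 (MvPowerSeries.C t : MvPowerSeries (Fin (r + 1)) K) (MvPowerSeries.C u)) ≃+*
      QF (rel 1 (MvPowerSeries.C (PowerSeries.C t) : MvPowerSeries (Fin r) (PowerSeries K))
        (MvPowerSeries.C (PowerSeries.C u))) :=
    qfEquiv e.symm _ _ (by
      rw [Pool.Agent.H40.BP.map_rel]
      congr 1)
  have he1v : ∀ g, e1 (qm _ (MvPolynomial.C g)) = qm _ (MvPolynomial.C (e.symm g)) := by
    intro g
    show Ideal.quotientEquiv _ _ _ _ (Ideal.Quotient.mk _ _) = _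
    rw [Ideal.quotientEquiv_mk]
    congr 1
    rw [MvPolynomial.mapEquiv_apply, MvPolynomial.map_C]
    rfl
  have h2 := AF.away e1 _ h1
  rw [he1v, hs3] at h2
  obtain ⟨e2, he2v⟩ := node_iso' (MvPowerSeries.C (PowerSeries.C t) :
    MvPowerSeries (Fin r) (PowerSeries K)) (MvPowerSeries.C (PowerSeries.C u))
  have h3 := AF.away e2 _ h2
  rw [he2v] at h3
  obtain ⟨e3⟩ := abx (MvPowerSeries.C PowerSeries.X : MvPowerSeries (Fin r) (PowerSeries K))
    (MvPowerSeries.C (PowerSeries.C t)) (MvPowerSeries.C (PowerSeries.C u))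
  have h4 := AF.of_equiv e3 h3
  rw [map_one, mul_one, map_mul]
  exact h4

/-- `V[[X]]/(X_0 X_1 X_2 - π)` with `X_1` inverted -/
theorem csr3_single {V : Type} [CommRing V] [IsDomain V] [IsPrincipalIdealRing V] [IsLocalRing V]
    [IsAdicComplete (maximalIdeal V) V] (π : V) (hπ : Prime π) (r : ℕ) :
    AF (Localization.Away (QuotBy.mk (csrRel π (J3 r)) (MvPowerSeries.X 1))) := by
  obtain ⟨hmax, ht, hu, htu, hut⟩ := k_data V π hπ
  have hK : IsAdicComplete (maximalIdeal (PowerSeries V)) (PowerSeries V) := t_CPLP V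
  have hKd : IsDomain (PowerSeries V) := NoZeroDivisors.to_isDomain _
  have h5 := t_N3 (PowerSeries V) PowerSeries.X (PowerSeries.C π) hmax ht hu htu hut r
    1 one_ne_zero (n3_input (PowerSeries V) PowerSeries.X (PowerSeries.C π) hmax ht hu htu hut r)
  obtain ⟨e4, a4, b4, d4⟩ := tri_equiv V π r
  have h6 := AF.away e4 _ h5
  rw [map_one, mul_one, b4] at h6
  exact h6

/-- `R[1/x_1]` -/
theorem tri_single {V : Type} [CommRing V] [IsDomain V] [IsPrincipalIdealRing V] [IsLocalRing V]
    [IsAdicComplete (maximalIdeal V) V] (π : V) (hπ : Prime π)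
    (R : Type) [CommRing R] [IsRegularLocalRing R] [IsAdicComplete (maximalIdeal R) R]
    (φ : V →+* R) (hφ : Function.Surjective ((residue R).comp φ)) (r : ℕ)
    (hn : ringKrullDim R = ((r + 3 : ℕ) : WithBot ℕ∞)) (x : Fin (r + 3) → R)
    (hx : maximalIdeal R = Ideal.span (Set.range x)) (v : R) (hv : IsUnit v)
    (h : φ π = v * (x 0 * x 1 * x 2)) : AllFree (Localization.Away (x 1)) := by
  obtain ⟨e, he0, he1, heC⟩ := tri_coh π hπ R φ hφ r hn x hx v hv h
  have h1 := AF.away e _ (csr3_single π hπ r)
  rw [he1] at h1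
  exact (allFree_iff_AF _).2 h1

/-- a member of a regular system of parameters is not in the square of the maximal ideal -/
theorem param_notMem {R : Type} [CommRing R] [IsRegularLocalRing R] (n : ℕ)
    (hn : ringKrullDim R = ((n + 1 : ℕ) : WithBot ℕ∞)) (x : Fin (n + 1) → R)
    (hx : maximalIdeal R = Ideal.span (Set.range x)) (i : Fin (n + 1)) :
    x i ∈ maximalIdeal R ∧ x i ∉ maximalIdeal R ^ 2 := by
  have hm : ∀ j, x j ∈ maximalIdeal R := fun j => by
    rw [hx]
    exact Ideal.subset_span ⟨j, rfl⟩
  refine ⟨hm i, fun h => ?_⟩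
  have h1 : maximalIdeal R ≤ Ideal.span (Set.range (x ∘ i.succAbove)) := by
    refine Submodule.le_of_le_smul_of_le_jacobson_bot (I := maximalIdeal R)
      (IsNoetherian.noetherian _) (IsLocalRing.maximalIdeal_le_jacobson _) ?_
    conv_lhs => rw [hx]
    rw [Ideal.span_le]
    rintro _ ⟨j, rfl⟩
    rcases Fin.eq_self_or_eq_succAbove i j with rfl | ⟨k, rfl⟩
    · refine Submodule.mem_sup_right ?_
      rw [smul_eq_mul, ← pow_two]
      exact h
    · exact Submodule.mem_sup_left (Ideal.subset_span ⟨k, rfl⟩)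
  have h2 : maximalIdeal R = Ideal.span (Set.range (x ∘ i.succAbove)) := by
    refine le_antisymm h1 ?_
    rw [Ideal.span_le]
    rintro _ ⟨j, rfl⟩
    exact hm _
  have h3 := IsRegularLocalRing.spanFinrank_maximalIdeal (R := R)
  rw [hn] at h3
  have h4 : (maximalIdeal R).spanFinrank ≤ n := by
    rw [h2]
    refine (Submodule.spanFinrank_span_le_ncard_of_finite (Set.finite_range _)).trans ?_
    rw [← Nat.card_coe_set_eq]
    refine (Finite.card_range_le _).trans ?_
    simp
  have h5 : ((maximalIdeal R).spanFinrank : WithBot ℕ∞) ≤ ((n : ℕ) : WithBot ℕ∞) := by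
    exact_mod_cast h4
  rw [h3] at h5
  have h6 : n + 1 ≤ n := by exact_mod_cast h5
  omega

end Pool.Agent.H9C.QR
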