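import Pool.Agent.H9C.QR.CH

/-!
# The rings `K[[X_1,...,X_r]][w]/(x w - y)`
-/

set_option autoImplicit false

open Polynomial

noncomputable section

namespace Pool.Agent.H9C.QR

open BQ Pool.Agent.H40.BP IsLocalRing Pool.Agent.W394.BQN

theorem mv_C_dvd {W : Type} [CommRing W] {n : ℕ} {a b : W}
    (h : (MvPowerSeries.C a : MvPowerSeries (Fin n) W) ∣ MvPowerSeries.C b) : a ∣ b := by
  obtain ⟨c, hc⟩ := h
  have h1 := congrArg MvPowerSeries.constantCoeff hc
  rw [map_mul, MvPowerSeries.constantCoeff_C, MvPowerSeries.constantCoeff_C] at h1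
  exact ⟨_, h1⟩

theorem pol_C_dvd {W : Type} [CommRing W] {a b : W}
    (h : (Polynomial.C a : W[X]) ∣ Polynomial.C b) : a ∣ b := by
  rw [Polynomial.C_dvd_iff_dvd_coeff] at h
  have h3 := h 0
  rwa [Polynomial.coeff_C_zero] at h3

theorem not_C_dvd_uc {W : Type} [CommRing W] {n : ℕ} {a : W} (ha : ¬ IsUnit a)
    {f : MvPowerSeries (Fin n) W} (hf : UC f) : ¬ MvPowerSeries.C a ∣ f := by
  rintro ⟨c, rfl⟩
  obtain ⟨ν, hν⟩ := hf
  rw [MvPowerSeries.coeff_C_mul] at hν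
  exact ha (isUnit_of_mul_isUnit_left hν)

/-- divisibility in the localisation -/
theorem loc_ndvd {W L : Type} [CommRing W] [IsDomain W] [CommRing L] {n : ℕ} {x y : W}
    (hx : Prime x) (hnd : ¬ x ∣ y) (φ : MvPowerSeries (Fin n) W →+* L)
    (hφ : Function.Injective φ) (hfrac : ∀ z : L, ∃ f, UC f ∧ ∃ b, φ f * z = φ b) :
    ¬ φ (MvPowerSeries.C x) ∣ φ (MvPowerSeries.C y) := by
  rintro ⟨z, hz⟩
  obtain ⟨f, hf, b, hb⟩ := hfrac z
  have hpr : Prime (MvPowerSeries.C x : MvPowerSeries (Fin n) W) := LPaux.prime_C hx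
  have h1 : φ (f * MvPowerSeries.C y) = φ (MvPowerSeries.C x * b) := by
    rw [map_mul, map_mul, hz, ← hb]
    ring
  have h2 : MvPowerSeries.C x ∣ f * MvPowerSeries.C y := ⟨b, hφ h1⟩
  rcases hpr.dvd_or_dvd h2 with h3 | h3
  · exact not_C_dvd_uc hx.not_isUnit hf h3
  · exact hnd (mv_C_dvd h3)

theorem afc_dom {W : Type} [CommRing W] [IsDomain W] {x y : W} (hy : Prime y) (hnd : ¬ y ∣ x)
    (n : ℕ) : IsDomain (QF (rel 1 (MvPowerSeries.C x : MvPowerSeries (Fin n) W)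
      (MvPowerSeries.C y))) ∧
    ∀ b : MvPowerSeries (Fin n) W, qm (rel 1 (MvPowerSeries.C x : MvPowerSeries (Fin n) W)
      (MvPowerSeries.C y)) (MvPolynomial.C b) = 0 → b = 0 := by
  have hB : IsDomain (MvPowerSeries (Fin n) W) := NoZeroDivisors.to_isDomain _
  exact t_DOM _ (MvPowerSeries.C x : MvPowerSeries (Fin n) W) (MvPowerSeries.C y)
    (LPaux.prime_C hy) (fun h => hnd (mv_C_dvd h)) 0

theorem afc_qf (K : Type) [CommRing K] [IsDomain K] [IsLocalRing K] [IsNoetherianRing K]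
    [IsAdicComplete (maximalIdeal K) K] (x y : K) (hxy : maximalIdeal K = Ideal.span {x, y})
    (hx : Prime x) (hy : Prime y) (hxny : ¬ x ∣ y) (hynx : ¬ y ∣ x) (r : ℕ) :
    AF (QF (rel 1 (MvPowerSeries.C x : MvPowerSeries (Fin r) K) (MvPowerSeries.C y))) := by
  have hym : y ∈ maximalIdeal K := by
    rw [hxy]
    exact Ideal.subset_span (by simp)
  induction r with
  | zero =>
    obtain ⟨e⟩ := node_iso x y
    refine AF.qf (MvPowerSeries.isEmptyEquiv (Fin 0) K).toRingEquiv.symm 1 x y _ _ ?_ ?_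
      (AF.of_equiv e.symm (ch K x y hxy hx hxny).2)
    · rfl
    · rfl
  | succ r ih =>
    have hB : IsDomain (MvPowerSeries (Fin r) K) := NoZeroDivisors.to_isDomain _
    have hB' : IsDomain (MvPowerSeries (Fin (r + 1)) K) := NoZeroDivisors.to_isDomain _
    have hpr : Prime (MvPowerSeries.C y : MvPowerSeries (Fin r) K) := LPaux.prime_C hy
    have hpr1 : Prime (Polynomial.C (MvPowerSeries.C y : MvPowerSeries (Fin r) K)) :=
      Polynomial.prime_C_iff.2 hpr
    obtain ⟨L, _, _, _, _, φ, hφ, hfrac, hunit, hmax, hprL⟩ := t_L1 K x y hxy hx (r + 1)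
    have hD := afc_dom hy hynx (r + 1)
    refine step_bc c_STEP t_BC K r 1 (Polynomial.C x) (Polynomial.C y)
      (Polynomial.C (MvPowerSeries.C x)) (Polynomial.C (MvPowerSeries.C y)) (MvPowerSeries.C x)
      (MvPowerSeries.C y) (im_C r K x) (im_C r K y) (ip_C r K x) (ip_C r K y) ?_ ?_ hD.1 ?_ ?_
      L φ hφ hfrac ?_
    · rw [coeff_rel_succ, Polynomial.coeff_neg, Polynomial.coeff_C_zero]
      exact (maximalIdeal K).neg_mem hym
    · exact (t_DOM _ (Polynomial.C (MvPowerSeries.C x) : (MvPowerSeries (Fin r) K)[X])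
        (Polynomial.C (MvPowerSeries.C y)) hpr1
        (fun h => hynx (mv_C_dvd (pol_C_dvd h))) 0).1
    · intro f hf h0
      exact hf.ne_zero (hD.2 f h0)
    · obtain ⟨e⟩ := t_POLF (MvPowerSeries (Fin r) K) 1 (rel 1 (MvPowerSeries.C x)
        (MvPowerSeries.C y))
      have h1 := ih.poly.of_equiv e
      rwa [Pool.Agent.H40.BP.map_rel] at h1
    · obtain ⟨e⟩ := node_iso (φ (MvPowerSeries.C x)) (φ (MvPowerSeries.C y))
      exact AF.of_equiv e.symm (ch L _ _ hmax hprL (loc_ndvd hx hxny φ hφ hfrac)).2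

theorem t_AFC : S_AFC := by
  intro K _ _ _ _ _ x y hxy hx hy hxny hynx r
  obtain ⟨e⟩ := node_iso (MvPowerSeries.C x : MvPowerSeries (Fin r) K) (MvPowerSeries.C y)
  exact AF.of_equiv e (afc_qf K x y hxy hx hy hxny hynx r)

end Pool.Agent.H9C.QR
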