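import Pool.Agent.H9C.CS.Fin3
import Pool.Agent.TH874.QPS.Par
import Pool.Agent.H40.BP.REG3

/-!
# Quillen's question for complete semistable rings: general lemmas
-/

set_option autoImplicit false

open Polynomial TensorProduct

noncomputable section

namespace Pool.Agent.H9C.QR

open BQ Pool.Agent.W394.BQN Pool.Agent.H40.BP Pool.Agent.H9C.CS IsLocalRing

/-- the local rings of a localisation -/
theorem laf_away {R : Type} [CommRing R] (h : LAF R) (r : R) (p : Ideal (Localization.Away r))
    [p.IsPrime] : AF (Localization.AtPrime p) :=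
  AF.of_equiv (IsLocalization.localizationLocalizationAtPrimeIsoLocalization
    (Submonoid.powers r) p).toRingEquiv (h _)

/-- Bass-Quillen for localisations -/
theorem away_bassQuillen {R : Type} [CommRing R] (h : LAF R) (r : R) :
    BassQuillen (Localization.Away r) :=
  bassQuillen_of_local _ fun p _ m => laf_away h r p m

/-- if all projectives over `A` are free and those over polynomial rings over `A` are extended,
then the latter are free -/
theorem allFree_of_bq {A : Type} [CommRing A] (h : BassQuillen A) (hA : IdemFree A) :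
    AllFree A := by
  intro ι _ P _ _ _ _
  obtain ⟨Q, i1, i2, ⟨e⟩⟩ := h ι P
  letI : Algebra (MvPolynomial ι A) A :=
    (MvPolynomial.constantCoeff (σ := ι) (R := A)).toAlgebra
  haveI : IsScalarTower A (MvPolynomial ι A) A := IsScalarTower.of_algebraMap_eq (fun a => by
    show a = MvPolynomial.constantCoeff (MvPolynomial.C a)
    simp)
  have e1 : A ⊗[MvPolynomial ι A] P ≃ₗ[A] A ⊗[MvPolynomial ι A] (MvPolynomial ι A ⊗[A] Q) :=
    TensorProduct.AlgebraTensorModule.congr (LinearEquiv.refl A A) e
  have e2 : A ⊗[MvPolynomial ι A] (MvPolynomial ι A ⊗[A] Q) ≃ₗ[A] A ⊗[A] Q :=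
    TensorProduct.AlgebraTensorModule.cancelBaseChange A (MvPolynomial ι A) A A Q
  have eQ : A ⊗[MvPolynomial ι A] P ≃ₗ[A] Q := (e1.trans e2).trans (TensorProduct.lid A Q)
  haveI : Module.Finite A Q := Module.Finite.equiv eQ
  haveI : Module.Projective A Q := Module.Projective.of_equiv eQ
  haveI : Module.Free A Q := hA.free Q
  exact Module.Free.of_equiv e.symm

theorem idemFree_poly {B : Type} [CommRing B] (h : AF B) : IdemFree B[X] :=
  IdemFree.of_equiv (MvPolynomial.uniqueAlgEquiv _ (Fin 1)).toRingEquiv (h 1)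

/-- Quillen's question for `(B[[X]], r)` -/
theorem away_idemFree {R B : Type} [CommRing R] [CommRing B] [IsDomain B] [IsLocalRing B]
    [IsAdicComplete (maximalIdeal B) B] (hB : AF B) (e : R ≃+* PowerSeries B) (r : R)
    (hr0 : ¬ IsUnit (PowerSeries.constantCoeff (e r)))
    (hr1 : IsUnit (PowerSeries.coeff 1 (e r))) : IdemFree (Localization.Away r) := by
  obtain ⟨Θ, -⟩ := Pool.Agent.TH874.QPS.away_equiv e r (e r) rfl
  exact IdemFree.of_equiv Θ.symm
    (Pool.Agent.TH874.QPS.fwd_gen B (idemFree_poly hB) (e r) hr0 hr1)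

/-- Quillen's question for `(B[[X]], r)` and polynomial rings -/
theorem away_allFree {R B : Type} [CommRing R] [CommRing B] [IsDomain B] [IsLocalRing B]
    [IsAdicComplete (maximalIdeal B) B] (hR : LAF R) (hB : AF B) (e : R ≃+* PowerSeries B) (r : R)
    (hr0 : ¬ IsUnit (PowerSeries.constantCoeff (e r)))
    (hr1 : IsUnit (PowerSeries.coeff 1 (e r))) : AllFree (Localization.Away r) :=
  allFree_of_bq (away_bassQuillen hR r) (away_idemFree hB e r hr0 hr1)

/-- the maximal ideal of `B[[X]]` -/
theorem max_ps {B : Type} [CommRing B] [IsLocalRing B] (s : Set B)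
    (h : maximalIdeal B = Ideal.span s) :
    maximalIdeal (PowerSeries B) = Ideal.span (insert PowerSeries.X (PowerSeries.C '' s)) := by
  apply le_antisymm
  · intro f hf
    have h0 : PowerSeries.constantCoeff f ∈ maximalIdeal B := by
      rw [mem_maximalIdeal, mem_nonunits_iff, PowerSeries.isUnit_iff_constantCoeff] at hf
      exact hf
    obtain ⟨g, hg⟩ : PowerSeries.X ∣ f - PowerSeries.C (PowerSeries.constantCoeff f) := by
      rw [PowerSeries.X_dvd_iff]
      simp
    have h1 : f = PowerSeries.C (PowerSeries.constantCoeff f) + PowerSeries.X * g := by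
      rw [← hg]
      ring
    rw [h1]
    refine Ideal.add_mem _ ?_ (Ideal.mul_mem_right _ _ (Ideal.subset_span (Set.mem_insert _ _)))
    rw [h] at h0
    have h2 := Ideal.mem_map_of_mem (PowerSeries.C (R := B)) h0
    rw [Ideal.map_span] at h2
    exact Ideal.span_mono (Set.subset_insert _ _) h2
  · rw [Ideal.span_le]
    rintro f (rfl | ⟨b, hb, rfl⟩)
    · show PowerSeries.X ∈ maximalIdeal (PowerSeries B)
      rw [mem_maximalIdeal, mem_nonunits_iff, PowerSeries.isUnit_iff_constantCoeff]
      simp
    · show PowerSeries.C b ∈ maximalIdeal (PowerSeries B)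
      rw [mem_maximalIdeal, mem_nonunits_iff, PowerSeries.isUnit_iff_constantCoeff]
      have h1 : b ∈ maximalIdeal B := by
        rw [h]
        exact Ideal.subset_span hb
      simpa using h1

/-- the residue field of `B[[X]]` -/
theorem res_ps {V B : Type} [CommRing V] [CommRing B] [IsLocalRing B] (ψ : V →+* B)
    (h : Function.Surjective ((residue B).comp ψ)) :
    Function.Surjective ((residue (PowerSeries B)).comp ((PowerSeries.C (R := B)).comp ψ)) := by
  intro a
  obtain ⟨f, rfl⟩ := residue_surjective a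
  obtain ⟨v, hv⟩ := h (residue B (PowerSeries.constantCoeff f))
  refine ⟨v, ?_⟩
  have h1 : ψ v - PowerSeries.constantCoeff f ∈ maximalIdeal B := by
    rw [← residue_eq_zero_iff, map_sub, sub_eq_zero]
    exact hv
  rw [RingHom.comp_apply, RingHom.comp_apply, ← sub_eq_zero, ← map_sub, residue_eq_zero_iff,
    mem_maximalIdeal, mem_nonunits_iff, PowerSeries.isUnit_iff_constantCoeff]
  simpa using h1

/-- the residue field of `V[[X_1,...,X_s]]/(f)` -/
theorem res_mv {V : Type} [CommRing V] [IsLocalRing V] {s : ℕ} (f : MvPowerSeries (Fin s) V)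
    [IsLocalRing (QuotBy (MvPowerSeries (Fin s) V) f)] :
    Function.Surjective ((residue (QuotBy (MvPowerSeries (Fin s) V) f)).comp
      ((QuotBy.mk f).comp (MvPowerSeries.C (σ := Fin s) (R := V)))) := by
  intro a
  obtain ⟨b, rfl⟩ := residue_surjective a
  have hsurj : Function.Surjective (QuotBy.mk f) := Ideal.Quotient.mk_surjective
  obtain ⟨g, rfl⟩ := hsurj b
  refine ⟨MvPowerSeries.constantCoeff g, ?_⟩
  rw [RingHom.comp_apply, RingHom.comp_apply, ← sub_eq_zero, ← map_sub, residue_eq_zero_iff,
    ← map_sub, ← IsLocalRing.map_maximalIdeal_of_surjective _ hsurj]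
  apply Ideal.mem_map_of_mem
  rw [mem_maximalIdeal, mem_nonunits_iff, MvPowerSeries.isUnit_iff_constantCoeff]
  simp

/-- the product over the shifted set -/
theorem prod_cons {R : Type} [CommRing R] {n : ℕ} (J : Finset (Fin n)) (r : R) (x : Fin n → R) :
    ∏ i ∈ J.map (Fin.succEmb n), (Fin.cons r x : Fin (n + 1) → R) i = ∏ i ∈ J, x i := by
  rw [Finset.prod_map]
  exact Finset.prod_congr rfl fun i _ => by
    show (Fin.cons r x : Fin (n + 1) → R) i.succ = _
    rw [Fin.cons_succ]

theorem range_cons {R : Type} {n : ℕ} (r : R) (x : Fin n → R) :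
    Set.range (Fin.cons r x : Fin (n + 1) → R) = insert r (Set.range x) := Fin.range_cons r x

end Pool.Agent.H9C.QR
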