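import Pool.Agent.H9C.QR.REGG

/-!
# Complete regular local rings over `W` with a monomial relation: presentations
-/

set_option autoImplicit false

noncomputable section

namespace Pool.Agent.H9C.QR

open BQ Pool.Agent.W394.BQN Pool.Agent.H40.BP Pool.Agent.H9C.CS
open IsLocalRing
open Pool.Agent.H40.BP.REG3 (dim_mv)
open Pool.Agent.Q211.CS (mem_vars exists_ev)
open Pool.Agent.Q162.DT (nonunit_of_constW maxSW u_ne_zero)
open nonZeroDivisors

/-- complete regular local rings over `W` with a relation `u = G(x)` -/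
theorem cohm (W : Type) [CommRing W] [IsRegularLocalRing W] [IsAdicComplete (maximalIdeal W) W]
    (hW : ringKrullDim W = 2) (u t : W) (hut : maximalIdeal W = Ideal.span {u, t})
    (R : Type) [CommRing R] [IsRegularLocalRing R] [IsAdicComplete (maximalIdeal R) R]
    (φ : W →+* R) (hφ : Function.Surjective ((residue R).comp φ)) (n : ℕ)
    (hdim : ringKrullDim R = ((n + 2 : ℕ) : WithBot ℕ∞)) (x : Fin (n + 1) → R)
    (hx : maximalIdeal R = Ideal.span (Set.range x ∪ {φ t})) (a k : ℕ) (i j : Fin (n + 1))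
    (hux : φ u = φ t ^ k * (x i ^ (a + 1) * x j)) :
    ∃ e : (MvPowerSeries (Fin (n + 1)) W ⧸ Ideal.span {(MvPowerSeries.C (t ^ k) *
        (MvPowerSeries.X i ^ (a + 1) * MvPowerSeries.X j) - MvPowerSeries.C u :
          MvPowerSeries (Fin (n + 1)) W)}) ≃+* R,
      (∀ i, e (Ideal.Quotient.mk _ (MvPowerSeries.X i)) = x i) ∧
      ∀ w, e (Ideal.Quotient.mk _ (MvPowerSeries.C w)) = φ w := by
  have hum : u ∈ maximalIdeal W := by
    rw [hut]
    exact Ideal.subset_span (Or.inl rfl)
  have hxm : ∀ i, x i ∈ maximalIdeal R := fun i => by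
    rw [hx]
    exact Ideal.subset_span (Or.inl ⟨i, rfl⟩)
  have htR : φ t ∈ maximalIdeal R := by
    rw [hx]
    exact Ideal.subset_span (Or.inr rfl)
  obtain ⟨ev, hevC, hevX⟩ := exists_ev (maximalIdeal R) φ x hxm
  obtain ⟨hreg, hdim'⟩ := regg W hW u t hut n (MvPowerSeries.C (t ^ k) *
        (MvPowerSeries.X i ^ (a + 1) * MvPowerSeries.X j)) (by
    rw [map_mul, map_mul, MvPowerSeries.constantCoeff_X, mul_zero, mul_zero])
  have hmax := maxSW u t hut (n + 1)
  have hprodm : φ t ^ k * (x i ^ (a + 1) * x j) ∈ maximalIdeal R :=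
    Ideal.mul_mem_left _ _ (Ideal.mul_mem_left _ _ (hxm j))
  -- the image of the maximal ideal
  have hmap : Ideal.map ev (maximalIdeal (MvPowerSeries (Fin (n + 1)) W)) = maximalIdeal R := by
    rw [hmax, Ideal.map_span]
    apply le_antisymm
    · rw [Ideal.span_le]
      rintro _ ⟨y, hy, rfl⟩
      rcases hy with ⟨i, rfl⟩ | hy | hy
      · rw [SetLike.mem_coe, hevX]
        exact hxm i
      · rw [hy, SetLike.mem_coe, hevC, hux]
        exact hprodm
      · rw [Set.mem_singleton_iff] at hy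
        rw [hy, SetLike.mem_coe, hevC]
        exact htR
    · rw [hx, Ideal.span_le]
      rintro _ (⟨i, rfl⟩ | hy)
      · exact Ideal.subset_span ⟨MvPowerSeries.X i, Or.inl ⟨i, rfl⟩, hevX i⟩
      · rw [Set.mem_singleton_iff] at hy
        rw [hy]
        exact Ideal.subset_span ⟨MvPowerSeries.C t, Or.inr (Or.inr rfl), hevC t⟩
  have hcpl : IsAdicComplete (maximalIdeal (MvPowerSeries (Fin (n + 1)) W))
    (MvPowerSeries (Fin (n + 1)) W) := t_CPL (n + 1) W
  have hsurj : Function.Surjective ev := by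
    have : IsHausdorff (Ideal.map ev (maximalIdeal (MvPowerSeries (Fin (n + 1)) W))) R := by
      rw [hmap]
      infer_instance
    refine surjective_of_mk_map_comp_surjective ev
      (I := maximalIdeal (MvPowerSeries (Fin (n + 1)) W)) ?_
    rw [hmap]
    intro r
    obtain ⟨v, hv⟩ := hφ r
    refine ⟨MvPowerSeries.C v, ?_⟩
    rw [RingHom.comp_apply, hevC]
    exact hv
  -- the kernel
  have hF : ev (MvPowerSeries.C (t ^ k) * (MvPowerSeries.X i ^ (a + 1) * MvPowerSeries.X j) -
      MvPowerSeries.C u) = 0 := by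
    rw [map_sub, map_mul, map_mul, hevC, map_pow φ, map_pow ev, hevX, hevX, hevC, hux, sub_self]
  let f : (MvPowerSeries (Fin (n + 1)) W ⧸
      Ideal.span {(MvPowerSeries.C (t ^ k) * (MvPowerSeries.X i ^ (a + 1) * MvPowerSeries.X j) -
      MvPowerSeries.C u : MvPowerSeries (Fin (n + 1)) W)}) →+* R :=
    Ideal.Quotient.lift _ ev (fun a ha => by
      obtain ⟨b, rfl⟩ := Ideal.mem_span_singleton.1 ha
      rw [map_mul, hF, zero_mul])
  have hfmk : ∀ a, f (Ideal.Quotient.mk _ a) = ev a := fun a => Ideal.Quotient.lift_mk _ _ _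
  have hfs : Function.Surjective f := fun r => by
    obtain ⟨a, ha⟩ := hsurj r
    exact ⟨Ideal.Quotient.mk _ a, (hfmk a).trans ha⟩
  have hdom : IsDomain (MvPowerSeries (Fin (n + 1)) W ⧸
      Ideal.span {(MvPowerSeries.C (t ^ k) * (MvPowerSeries.X i ^ (a + 1) * MvPowerSeries.X j) -
      MvPowerSeries.C u : MvPowerSeries (Fin (n + 1)) W)}) :=
    Pool.Agent.H379R3.isDomain _
  have hfi : Function.Injective f := by
    rw [injective_iff_map_eq_zero]
    intro r hr
    by_contra hr0
    have h3 := ringKrullDim_succ_le_of_surjective f hfs (mem_nonZeroDivisors_of_ne_zero hr0) hr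
    rw [hdim, hdim'] at h3
    have h4 : ((n + 2 + 1 : ℕ) : WithBot ℕ∞) ≤ ((n + 2 : ℕ) : WithBot ℕ∞) := by
      exact_mod_cast h3
    have h5 : n + 2 + 1 ≤ n + 2 := by exact_mod_cast h4
    omega
  refine ⟨RingEquiv.ofBijective f ⟨hfi, hfs⟩, fun i => ?_, fun v => ?_⟩
  · exact (hfmk _).trans (hevX i)
  · exact (hfmk _).trans (hevC v)

end Pool.Agent.H9C.QR
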