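import Pool.Agent.H9C.QR.Basic

/-!
# Quillen's question for complete semistable rings: one product
-/

set_option autoImplicit false

open Polynomial TensorProduct

noncomputable section

namespace Pool.Agent.H9C.QR

open BQ Pool.Agent.W394.BQN Pool.Agent.H40.BP Pool.Agent.H9C.CS IsLocalRing

/-- the ring `V[[X_0,...,X_n]]/(∏_J X_i - π)` -/
theorem csr_AF {V : Type} [CommRing V] [IsDomain V] [IsPrincipalIdealRing V] [IsLocalRing V]
    [IsAdicComplete (maximalIdeal V) V] [CharZero V] (π : V) (hπ : Prime π) {s : ℕ}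
    (J : Finset (Fin s)) (hJ : J.Nonempty) : AF (CSR V π J) := by
  have h1 := csr_regular π hπ J hJ
  exact isLocCS_AF (isLocCS_self π hπ J hJ (RingEquiv.refl _))

/-- the iterated power series ring -/
theorem cs_ps {V : Type} [CommRing V] [IsDomain V] [IsPrincipalIdealRing V] [IsLocalRing V]
    [IsAdicComplete (maximalIdeal V) V] (π : V) (hπ : Prime π) (n : ℕ)
    (J : Finset (Fin (n + 1))) (hJ : J.Nonempty) :
    ∃ e : CSR V π (J.map (Fin.succEmb (n + 1))) ≃+* PowerSeries (CSR V π J),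
      e (QuotBy.mk _ (MvPowerSeries.X 0)) = PowerSeries.X := by
  obtain ⟨h1, h2, h3, h4⟩ := csr_data π hπ n J hJ
  have h5 : IsRegularLocalRing (PowerSeries (CSR V π J)) := powerSeries_regular _
  have h6 : IsAdicComplete (maximalIdeal (PowerSeries (CSR V π J))) (PowerSeries (CSR V π J)) :=
    t_CPLP _
  have h7 := res_ps _ (res_mv (csrRel π J))
  have h8 : ringKrullDim (PowerSeries (CSR V π J)) = ((n + 1 + 1 : ℕ) : WithBot ℕ∞) := by
    rw [REG3.dim_powerSeries, h3]
    rfl
  obtain ⟨e, he, -⟩ := Pool.Agent.Q211.CS.t_COH V π hπ (PowerSeries (CSR V π J))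
    ((PowerSeries.C (R := CSR V π J)).comp ((QuotBy.mk (csrRel π J)).comp
      (MvPowerSeries.C (σ := Fin (n + 1)) (R := V)))) h7 (n + 1) h8
    (Fin.cons PowerSeries.X fun i => PowerSeries.C (QuotBy.mk (csrRel π J) (MvPowerSeries.X i)))
    (by
      rw [max_ps _ h4, range_cons, ← Set.range_comp]
      rfl) (J.map (Fin.succEmb (n + 1))) (hJ.map) (by
      rw [prod_cons, ← map_prod, ← map_prod]
      rw [RingHom.comp_apply, RingHom.comp_apply]
      congr 1
      symm
      exact (Ideal.Quotient.mk_eq_mk_iff_sub_mem _ _).2 (Ideal.mem_span_singleton_self _))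
  exact ⟨e, he 0⟩

/-- complete regular local rings with a coefficient ring and an additional parameter -/
theorem cs_iso {V : Type} [CommRing V] [IsDomain V] [IsPrincipalIdealRing V] [IsLocalRing V]
    [IsAdicComplete (maximalIdeal V) V] (π : V) (hπ : Prime π)
    (R : Type) [CommRing R] [IsRegularLocalRing R] [IsAdicComplete (maximalIdeal R) R]
    (φ : V →+* R) (hφ : Function.Surjective ((residue R).comp φ)) (n : ℕ)
    (hn : ringKrullDim R = ((n + 2 : ℕ) : WithBot ℕ∞)) (x : Fin (n + 1) → R) (r : R)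
    (hx : maximalIdeal R = Ideal.span (insert r (Set.range x))) (J : Finset (Fin (n + 1)))
    (hJ : J.Nonempty) (h : Associated (φ π) (∏ i ∈ J, x i)) :
    ∃ (_ : CSR V π (J.map (Fin.succEmb (n + 1))) ≃+* R) (e : R ≃+* PowerSeries (CSR V π J)),
      e r = PowerSeries.X := by
  obtain ⟨y, hy1, hy2⟩ := exists_params x J hJ _ h
  obtain ⟨e₁, he₁⟩ := cs_ps π hπ n J hJ
  obtain ⟨e₂, he₂, -⟩ := Pool.Agent.Q211.CS.t_COH V π hπ R φ hφ (n + 1) hn (Fin.cons r y) (by
    rw [range_cons, hx, Ideal.span_insert, Ideal.span_insert, hy2])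
    (J.map (Fin.succEmb (n + 1))) hJ.map (by rw [prod_cons]; exact hy1)
  let e₃ : CSR V π (J.map (Fin.succEmb (n + 1))) ≃+* R := e₂
  have h0 : e₃ (QuotBy.mk _ (MvPowerSeries.X 0)) = r := he₂ 0
  refine ⟨e₃, e₃.symm.trans e₁, ?_⟩
  show e₁ (e₃.symm r) = _
  rw [← h0, e₃.symm_apply_apply, he₁]

/-- Quillen's question for these rings and the additional parameter -/
theorem cs_quillen {V : Type} [CommRing V] [IsDomain V] [IsPrincipalIdealRing V] [IsLocalRing V]
    [IsAdicComplete (maximalIdeal V) V] [CharZero V] (π : V) (hπ : Prime π)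
    (R : Type) [CommRing R] [IsRegularLocalRing R] [IsAdicComplete (maximalIdeal R) R]
    (φ : V →+* R) (hφ : Function.Surjective ((residue R).comp φ)) (n : ℕ)
    (hn : ringKrullDim R = ((n + 2 : ℕ) : WithBot ℕ∞)) (x : Fin (n + 1) → R) (r : R)
    (hx : maximalIdeal R = Ideal.span (insert r (Set.range x))) (J : Finset (Fin (n + 1)))
    (hJ : J.Nonempty) (h : Associated (φ π) (∏ i ∈ J, x i)) :
    r ∈ maximalIdeal R ∧ r ∉ maximalIdeal R ^ 2 ∧ AllFree (Localization.Away r) := by
  obtain ⟨e₁, e, he⟩ := cs_iso π hπ R φ hφ n hn x r hx J hJ h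
  obtain ⟨h1, h2, h3, h4⟩ := csr_data π hπ n J hJ
  have hd := csr_domain π hπ J hJ
  have hl : LAF R := LAF.of_equiv e₁ (csr_LAF π hπ _ hJ.map)
  have hX0 : ¬ IsUnit (PowerSeries.constantCoeff (PowerSeries.X : PowerSeries (CSR V π J))) := by
    simp
  have hX1 : IsUnit (PowerSeries.coeff 1 (PowerSeries.X : PowerSeries (CSR V π J))) := by
    rw [PowerSeries.coeff_one_X]
    exact isUnit_one
  obtain ⟨hp1, hp2⟩ := Pool.Agent.TH874.QPS.param_ps _ _ hX0 hX1
  have hmap : (maximalIdeal R).map (e : R →+* PowerSeries (CSR V π J)) =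
      maximalIdeal (PowerSeries (CSR V π J)) :=
    IsLocalRing.map_maximalIdeal_of_surjective _ e.surjective
  refine ⟨?_, ?_, away_allFree hl (csr_AF π hπ J hJ) e r ?_ ?_⟩
  · rw [hx]
    exact Ideal.subset_span (Set.mem_insert _ _)
  · intro hr
    apply hp2
    rw [← hmap, ← Ideal.map_pow, ← he]
    exact Ideal.mem_map_of_mem (e : R →+* PowerSeries (CSR V π J)) hr
  · rw [he]
    exact hX0
  · rw [he]
    exact hX1

end Pool.Agent.H9C.QR
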