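import Pool.Agent.H9C.QR.Basic
import Pool.Agent.H9C.DT.Asm
import Pool.Agent.H9C.DT.Fin2

/-!
# Quillen's question for complete semistable rings: two-dimensional base rings
-/

set_option autoImplicit false

open Polynomial TensorProduct

noncomputable section

namespace Pool.Agent.H9C.QR

open BQ Pool.Agent.W394.BQN Pool.Agent.H40.BP Pool.Agent.H9C.CS Pool.Agent.H9C.DT IsLocalRing

/-- the iterated power series ring -/
theorem dt_ps {W : Type} [CommRing W] [IsDomain W] [IsRegularLocalRing W]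
    [IsAdicComplete (maximalIdeal W) W] (hdim : ringKrullDim W = 2) (u t : W)
    (hm : maximalIdeal W = Ideal.span {u, t}) (n : ℕ)
    (J : Finset (Fin (n + 1))) (hJ : J.Nonempty) :
    ∃ e : CSR W u (J.map (Fin.succEmb (n + 1))) ≃+* PowerSeries (CSR W u J),
      e (QuotBy.mk _ (MvPowerSeries.X 0)) = PowerSeries.X := by
  obtain ⟨h1, h2, h3, h4⟩ := csr_dataT Pool.Agent.H9C.DT.parts hdim u t hm n J hJ
  have h5 : IsRegularLocalRing (PowerSeries (CSR W u J)) := powerSeries_regular _
  have h6 : IsAdicComplete (maximalIdeal (PowerSeries (CSR W u J))) (PowerSeries (CSR W u J)) :=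
    t_CPLP _
  have h7 := res_ps _ (res_mv (csrRel u J))
  have h8 : ringKrullDim (PowerSeries (CSR W u J)) = ((n + 1 + 2 : ℕ) : WithBot ℕ∞) := by
    rw [REG3.dim_powerSeries, h3]
    rfl
  obtain ⟨e, he, -⟩ := Pool.Agent.H9C.DT.parts.coh W hdim u t hm (PowerSeries (CSR W u J))
    ((PowerSeries.C (R := CSR W u J)).comp ((QuotBy.mk (csrRel u J)).comp
      (MvPowerSeries.C (σ := Fin (n + 1)) (R := W)))) h7 (n + 1) h8
    (Fin.cons PowerSeries.X fun i => PowerSeries.C (QuotBy.mk (csrRel u J) (MvPowerSeries.X i)))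
    (by
      rw [max_ps _ h4, range_cons, Set.image_union, Set.image_singleton, ← Set.range_comp,
        ← Set.insert_union]
      rfl) (J.map (Fin.succEmb (n + 1))) (hJ.map) (by
      rw [prod_cons, ← map_prod, ← map_prod]
      rw [RingHom.comp_apply, RingHom.comp_apply]
      congr 1
      symm
      exact (Ideal.Quotient.mk_eq_mk_iff_sub_mem _ _).2 (Ideal.mem_span_singleton_self _))
  exact ⟨e, he 0⟩

/-- Quillen's question for these rings and the additional parameter -/
theorem dt_quillen {W : Type} [CommRing W] [IsRegularLocalRing W]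
    [IsAdicComplete (maximalIdeal W) W] (hdim : ringKrullDim W = 2) (u t : W)
    (hm : maximalIdeal W = Ideal.span {u, t})
    (R : Type) [CommRing R] [IsRegularLocalRing R] [IsAdicComplete (maximalIdeal R) R]
    (φ : W →+* R) (hφ : Function.Surjective ((residue R).comp φ)) (n : ℕ)
    (hn : ringKrullDim R = ((n + 3 : ℕ) : WithBot ℕ∞)) (x : Fin (n + 1) → R) (r : R)
    (hx : maximalIdeal R = Ideal.span (insert r (Set.range x ∪ {φ t})))
    (J : Finset (Fin (n + 1)))
    (hJ : J.Nonempty) (h : Associated (φ u) (∏ i ∈ J, x i)) :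
    r ∈ maximalIdeal R ∧ r ∉ maximalIdeal R ^ 2 ∧ AllFree (Localization.Away r) := by
  have hP := Pool.Agent.H9C.DT.parts
  have hWd : IsDomain W := Pool.Agent.H379R3.isDomain _
  have hpr : Prime u := prime_of_order_one W hdim u (by
    rw [hm]
    exact Ideal.subset_span (Set.mem_insert _ _)) (order_one W hdim u t hm)
  obtain ⟨y, hy1, hy2⟩ := exists_params x J hJ _ h
  obtain ⟨e₁, he₁⟩ := dt_ps hdim u t hm n J hJ
  obtain ⟨e₂, he₂, -⟩ := hP.coh W hdim u t hm R φ hφ (n + 1) hn (Fin.cons r y) (by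
    rw [range_cons, hx, Set.insert_union, Ideal.span_insert, Ideal.span_insert, Ideal.span_union,
      Ideal.span_union, hy2])
    (J.map (Fin.succEmb (n + 1))) hJ.map (by rw [prod_cons]; exact hy1)
  let e₃ : CSR W u (J.map (Fin.succEmb (n + 1))) ≃+* R := e₂
  have h0 : e₃ (QuotBy.mk _ (MvPowerSeries.X 0)) = r := he₂ 0
  let e : R ≃+* PowerSeries (CSR W u J) := e₃.symm.trans e₁
  have he : e r = PowerSeries.X := by
    show e₁ (e₃.symm r) = _
    rw [← h0, e₃.symm_apply_apply, he₁]
  obtain ⟨h1, h2, h3, h4⟩ := csr_dataT hP hdim u t hm n J hJ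
  have hd : IsDomain (CSR W u J) := Pool.Agent.H379R3.isDomain _
  have hl : LAF R := LAF.of_equiv e₃ (hP.st3 W hdim u t hm hpr (n + 1) _ hJ.map)
  have hAF : AF (CSR W u J) := (isLocDT_good hP
    (isLocDT_all u (base_of_par W inferInstance hdim u t hm) J hJ (RingEquiv.refl _)).1).2
  have hX0 : ¬ IsUnit (PowerSeries.constantCoeff (PowerSeries.X : PowerSeries (CSR W u J))) := by
    simp
  have hX1 : IsUnit (PowerSeries.coeff 1 (PowerSeries.X : PowerSeries (CSR W u J))) := by
    rw [PowerSeries.coeff_one_X]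
    exact isUnit_one
  obtain ⟨hp1, hp2⟩ := Pool.Agent.TH874.QPS.param_ps _ _ hX0 hX1
  have hmap : (maximalIdeal R).map (e : R →+* PowerSeries (CSR W u J)) =
      maximalIdeal (PowerSeries (CSR W u J)) :=
    IsLocalRing.map_maximalIdeal_of_surjective _ e.surjective
  refine ⟨?_, ?_, away_allFree hl hAF e r ?_ ?_⟩
  · rw [hx]
    exact Ideal.subset_span (Set.mem_insert _ _)
  · intro hr
    apply hp2
    rw [← hmap, ← Ideal.map_pow, ← he]
    exact Ideal.mem_map_of_mem (e : R →+* PowerSeries (CSR W u J)) hr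
  · rw [he]
    exact hX0
  · rw [he]
    exact hX1

end Pool.Agent.H9C.QR
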