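import Pool.Agent.H9C.QR.TRV

/-!
# Examples of characteristic zero with `p = x_0^(a+1) x_1 x_2^k`
-/

set_option autoImplicit false

open Polynomial

noncomputable section

namespace Pool.Agent.H9C.QR

open BQ Pool.Agent.H40.BP IsLocalRing Pool.Agent.W394.BQN Pool.Agent.H9C.CS Pool.Agent.H9C.DT
open Pool.Agent.Q162.DT (maxSW nonunit_of_constW)
open Pool.Agent.Q211.CS (nonunit_of_const)

/-- the ring `W[[X_0,...,X_(r+1)]]/(t^k X_0^(a+1) X_1 - u)`, `W = V[[t]]` -/
theorem exm {V : Type} [CommRing V] [IsDomain V] [IsPrincipalIdealRing V] [IsLocalRing V]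
    [IsAdicComplete (maximalIdeal V) V] (π : V) (hπ : Prime π) (r a k : ℕ) :
    ∃ (R : Type) (_ : CommRing R) (_ : IsRegularLocalRing R) (x : Fin (r + 3) → R) (φ : V →+* R),
      IsAdicComplete (maximalIdeal R) R ∧ Function.Injective φ ∧
      ringKrullDim R = ((r + 3 : ℕ) : WithBot ℕ∞) ∧
      maximalIdeal R = Ideal.span (Set.range x) ∧
      φ π = x 0 ^ (a + 1) * x 1 * x 2 ^ k ∧ Function.Surjective ((residue R).comp φ) := by
  obtain ⟨hW1, hW2, hW3, hW4⟩ := vt_data π hπ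
  obtain ⟨h20, h21⟩ := two_succAbove r
  obtain ⟨W, hWe⟩ : ∃ W, W = MvPowerSeries (Fin 1) V := ⟨_, rfl⟩
  obtain ⟨hWd, hmaxt, ht, hu, htu, hut'⟩ := w_data (MvPowerSeries (Fin 1) V) hW3 _ _ hW4
  set t : MvPowerSeries (Fin 1) V := MvPowerSeries.X 0 with htdef
  set u : MvPowerSeries (Fin 1) V := MvPowerSeries.C π with hudef
  obtain ⟨G, hG⟩ : ∃ G : MvPowerSeries (Fin (r + 2)) (MvPowerSeries (Fin 1) V),
    G = MvPowerSeries.C (t ^ k) * (MvPowerSeries.X 0 ^ (a + 1) * MvPowerSeries.X 1) := ⟨_, rfl⟩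
  obtain ⟨hreg, hdim⟩ := regg (MvPowerSeries (Fin 1) V) hW3 u t hW4 (r + 1) G (by
    rw [hG, map_mul, map_mul, MvPowerSeries.constantCoeff_X, mul_zero, mul_zero])
  have hcP : IsAdicComplete (maximalIdeal (MvPowerSeries (Fin (r + 2)) (MvPowerSeries (Fin 1) V)))
    (MvPowerSeries (Fin (r + 2)) (MvPowerSeries (Fin 1) V)) := t_CPL (r + 2) _
  let R := MvPowerSeries (Fin (r + 2)) (MvPowerSeries (Fin 1) V) ⧸
    Ideal.span {G - MvPowerSeries.C u}
  have hloc : IsLocalRing (MvPowerSeries (Fin (r + 2)) (MvPowerSeries (Fin 1) V) ⧸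
    Ideal.span {G - MvPowerSeries.C u}) := hreg.toIsLocalRing
  have hcR : IsAdicComplete (maximalIdeal R) R :=
    Pool.Agent.TH874.QPS.complete_quot (Ideal.span {G - MvPowerSeries.C u})
  let q : MvPowerSeries (Fin (r + 2)) (MvPowerSeries (Fin 1) V) →+* R :=
    Ideal.Quotient.mk (Ideal.span {G - MvPowerSeries.C u})
  have hqs : Function.Surjective q := Ideal.Quotient.mk_surjective
  have hqu : q (MvPowerSeries.C u) = q G := by
    symm
    exact (Ideal.Quotient.mk_eq_mk_iff_sub_mem _ _).2 (Ideal.mem_span_singleton_self _)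
  have hqm : (maximalIdeal (MvPowerSeries (Fin (r + 2)) (MvPowerSeries (Fin 1) V))).map q =
    maximalIdeal R := IsLocalRing.map_maximalIdeal_of_surjective q hqs
  let x : Fin (r + 3) → R := (2 : Fin (r + 3)).insertNth (q (MvPowerSeries.C t))
    (fun i : Fin (r + 2) => q (MvPowerSeries.X i))
  have hx2 : x 2 = q (MvPowerSeries.C t) := Fin.insertNth_apply_same _ _ _
  have hxs : ∀ i, x ((2 : Fin (r + 3)).succAbove i) = q (MvPowerSeries.X i) := fun i =>
    Fin.insertNth_apply_succAbove _ _ _ i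
  have hx0 : x 0 = q (MvPowerSeries.X 0) := by
    rw [← hxs 0, h20]
  have hx1 : x 1 = q (MvPowerSeries.X 1) := by
    rw [← hxs 1, h21]
  have hqG : q G = x 0 ^ (a + 1) * x 1 * x 2 ^ k := by
    have hqG0 : q G = q (MvPowerSeries.C (t ^ k) * (MvPowerSeries.X 0 ^ (a + 1) *
      MvPowerSeries.X 1)) := congrArg q hG
    rw [hqG0, map_mul, map_mul, map_pow, map_pow, map_pow, hx0, hx1, hx2]
    ring
  -- injectivity
  have hinj : ∀ c : MvPowerSeries (Fin 1) V, q (MvPowerSeries.C c) = 0 → c = 0 := by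
    intro c hc
    by_contra hc0
    obtain ⟨e, he1, he2⟩ := trm_equiv (MvPowerSeries (Fin 1) V) (t ^ k) u a r
    apply mon_inj (MvPowerSeries (Fin 1) V) a (t ^ k) u hu
      (fun h => hut' (hu.dvd_of_dvd_pow h)) r c hc0
    apply e.injective
    rw [he2, map_zero]
    have h5 : MvPowerSeries.C c ∈ Ideal.span {G - MvPowerSeries.C u} :=
      Ideal.Quotient.eq_zero_iff_mem.1 hc
    rw [hG] at h5
    exact Ideal.Quotient.eq_zero_iff_mem.2 h5
  let φ : V →+* R := q.comp (MvPowerSeries.C.comp MvPowerSeries.C)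
  refine ⟨R, inferInstance, hreg, x, φ, hcR, ?_, hdim, ?_, ?_, ?_⟩
  · rw [injective_iff_map_eq_zero]
    intro c hc
    have h5 := hinj (MvPowerSeries.C c) hc
    have h6 := congrArg MvPowerSeries.constantCoeff h5
    rwa [MvPowerSeries.constantCoeff_C, map_zero] at h6
  · rw [← hqm, maxSW u t hW4, Ideal.map_span]
    apply le_antisymm
    · rw [Ideal.span_le]
      rintro _ ⟨_, (⟨i, rfl⟩ | rfl | h), rfl⟩
      · exact Ideal.subset_span ⟨_, hxs i⟩
      · change q (MvPowerSeries.C u) ∈ _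
        rw [hqu, hqG, mul_right_comm]
        exact Ideal.mul_mem_left _ _ (Ideal.subset_span ⟨1, rfl⟩)
      · rw [Set.mem_singleton_iff] at h
        subst h
        exact Ideal.subset_span ⟨2, hx2⟩
    · rw [Ideal.span_le]
      rintro _ ⟨j, rfl⟩
      rcases Fin.eq_self_or_eq_succAbove (2 : Fin (r + 3)) j with rfl | ⟨i, rfl⟩
      · rw [hx2]
        exact Ideal.subset_span ⟨_, Or.inr (Or.inr rfl), rfl⟩
      · rw [hxs]
        exact Ideal.subset_span ⟨_, Or.inl ⟨i, rfl⟩, rfl⟩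
  · show q (MvPowerSeries.C u) = _
    rw [hqu, hqG]
  · intro b
    obtain ⟨b', rfl⟩ := residue_surjective b
    obtain ⟨f, rfl⟩ := hqs b'
    refine ⟨MvPowerSeries.constantCoeff (MvPowerSeries.constantCoeff f), ?_⟩
    show residue R (q (MvPowerSeries.C (MvPowerSeries.C _))) = residue R (q f)
    rw [← sub_eq_zero, ← map_sub, residue_eq_zero_iff, ← map_sub, ← hqm]
    apply Ideal.mem_map_of_mem
    rw [mem_maximalIdeal, mem_nonunits_iff, MvPowerSeries.isUnit_iff_constantCoeff,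
      MvPowerSeries.isUnit_iff_constantCoeff]
    simp

end Pool.Agent.H9C.QR
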