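import Pool.Agent.H9C.QR.Basic
import Pool.Agent.H9C.SQ.Asm
import Pool.Agent.H9C.SQ.Fin2

/-!
# Quillen's question for complete semistable rings: sums of two products
-/

set_option autoImplicit false

open Polynomial TensorProduct

noncomputable section

namespace Pool.Agent.H9C.QR

open BQ Pool.Agent.W394.BQN Pool.Agent.H40.BP Pool.Agent.H9C.CS Pool.Agent.H9C.SQ IsLocalRing

/-- the iterated power series ring -/
theorem sq_ps {V : Type} [CommRing V] [IsDomain V] [IsPrincipalIdealRing V] [IsLocalRing V]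
    [IsAdicComplete (maximalIdeal V) V] (π : V) (hπ : Prime π) (n : ℕ)
    (I J : Finset (Fin (n + 1))) (hI : I.Nonempty) (hJ : J.Nonempty) :
    ∃ e : SQR V π (I.map (Fin.succEmb (n + 1))) (J.map (Fin.succEmb (n + 1))) ≃+*
      PowerSeries (SQR V π I J), e (QuotBy.mk _ (MvPowerSeries.X 0)) = PowerSeries.X := by
  obtain ⟨h1, h2, h3, h4⟩ := sqr_data Pool.Agent.H9C.SQ.parts π hπ n I J hI hJ
  have h5 : IsRegularLocalRing (PowerSeries (SQR V π I J)) := powerSeries_regular _
  have h6 : IsAdicComplete (maximalIdeal (PowerSeries (SQR V π I J)))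
    (PowerSeries (SQR V π I J)) := t_CPLP _
  have h7 := res_ps _ (res_mv (sqRel π I J))
  have h8 : ringKrullDim (PowerSeries (SQR V π I J)) = ((n + 1 + 1 : ℕ) : WithBot ℕ∞) := by
    rw [REG3.dim_powerSeries, h3]
    rfl
  obtain ⟨e, he, -⟩ := Pool.Agent.H9C.SQ.parts.coh2 V π hπ (PowerSeries (SQR V π I J))
    ((PowerSeries.C (R := SQR V π I J)).comp ((QuotBy.mk (sqRel π I J)).comp
      (MvPowerSeries.C (σ := Fin (n + 1)) (R := V)))) h7 (n + 1) h8
    (Fin.cons PowerSeries.X fun i => PowerSeries.C (QuotBy.mk (sqRel π I J) (MvPowerSeries.X i)))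
    (by
      rw [max_ps _ h4, range_cons, ← Set.range_comp]
      rfl) (I.map (Fin.succEmb (n + 1))) (J.map (Fin.succEmb (n + 1))) hI.map hJ.map (by
      rw [prod_cons, prod_cons, ← map_prod, ← map_prod, ← map_prod, ← map_prod, ← map_add,
        ← map_add]
      rw [RingHom.comp_apply, RingHom.comp_apply]
      congr 1
      symm
      exact (Ideal.Quotient.mk_eq_mk_iff_sub_mem _ _).2 (Ideal.mem_span_singleton_self _))
  exact ⟨e, he 0⟩

/-- Quillen's question for these rings and the additional parameter -/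
theorem sq_quillen {V : Type} [CommRing V] [IsDomain V] [IsPrincipalIdealRing V] [IsLocalRing V]
    [IsAdicComplete (maximalIdeal V) V] [CharZero V] (π : V) (hπ : Prime π)
    (hp : ∃ p : ℕ, p.Prime ∧ (p : V) ∈ maximalIdeal V)
    (R : Type) [CommRing R] [IsRegularLocalRing R] [IsAdicComplete (maximalIdeal R) R]
    (φ : V →+* R) (hφ : Function.Surjective ((residue R).comp φ)) (n : ℕ)
    (hn : ringKrullDim R = ((n + 2 : ℕ) : WithBot ℕ∞)) (x : Fin (n + 1) → R) (r : R)
    (hx : maximalIdeal R = Ideal.span (insert r (Set.range x))) (I J : Finset (Fin (n + 1)))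
    (hIJ : Disjoint I J) (hI : 2 ≤ I.card) (hJ : 2 ≤ J.card) (u v : R) (hu : IsUnit u)
    (hv : IsUnit v) (h : φ π = u * ∏ i ∈ I, x i + v * ∏ j ∈ J, x j) :
    r ∈ maximalIdeal R ∧ r ∉ maximalIdeal R ^ 2 ∧ AllFree (Localization.Away r) := by
  have hP := Pool.Agent.H9C.SQ.parts
  have hI1 := nonempty_of_two hI
  have hJ1 := nonempty_of_two hJ
  obtain ⟨y, hy1, hy2⟩ := exists_params2 x I J hIJ hI1 hJ1 _ u v hu hv h
  obtain ⟨e₁, he₁⟩ := sq_ps π hπ n I J hI1 hJ1
  obtain ⟨e₂, he₂, -⟩ := hP.coh2 V π hπ R φ hφ (n + 1) hn (Fin.cons r y) (by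
    rw [range_cons, hx, Ideal.span_insert, Ideal.span_insert, hy2])
    (I.map (Fin.succEmb (n + 1))) (J.map (Fin.succEmb (n + 1))) hI1.map hJ1.map (by
      rw [prod_cons, prod_cons]
      exact hy1)
  let e₃ : SQR V π (I.map (Fin.succEmb (n + 1))) (J.map (Fin.succEmb (n + 1))) ≃+* R := e₂
  have h0 : e₃ (QuotBy.mk _ (MvPowerSeries.X 0)) = r := he₂ 0
  let e : R ≃+* PowerSeries (SQR V π I J) := e₃.symm.trans e₁
  have he : e r = PowerSeries.X := by
    show e₁ (e₃.symm r) = _
    rw [← h0, e₃.symm_apply_apply, he₁]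
  obtain ⟨h1, h2, h3, h4⟩ := sqr_data hP π hπ n I J hI1 hJ1
  have hd := sqr_domain hP π hπ I J hI1 hJ1
  have hl : LAF R := LAF.of_equiv e₃ (sqr_LAF hP π hπ hp _ _
    ((Finset.disjoint_map _).2 hIJ) (by rwa [Finset.card_map]) (by rwa [Finset.card_map]))
  have hAF : AF (SQR V π I J) := isLocSQ_AF hP
    (isLocSQ_all π hπ hp I J hIJ hI hJ (RingEquiv.refl _)).1
  have hX0 : ¬ IsUnit (PowerSeries.constantCoeff (PowerSeries.X : PowerSeries (SQR V π I J))) := by
    simp
  have hX1 : IsUnit (PowerSeries.coeff 1 (PowerSeries.X : PowerSeries (SQR V π I J))) := by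
    rw [PowerSeries.coeff_one_X]
    exact isUnit_one
  obtain ⟨hp1, hp2⟩ := Pool.Agent.TH874.QPS.param_ps _ _ hX0 hX1
  have hmap : (maximalIdeal R).map (e : R →+* PowerSeries (SQR V π I J)) =
      maximalIdeal (PowerSeries (SQR V π I J)) :=
    IsLocalRing.map_maximalIdeal_of_surjective _ e.surjective
  refine ⟨?_, ?_, away_allFree hl hAF e r ?_ ?_⟩
  · rw [hx]
    exact Ideal.subset_span (Set.mem_insert _ _)
  · intro hr
    apply hp2
    rw [← hmap, ← Ideal.map_pow, ← he]
    exact Ideal.mem_map_of_mem (e : R →+* PowerSeries (SQR V π I J)) hr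
  · rw [he]
    exact hX0
  · rw [he]
    exact hX1

end Pool.Agent.H9C.QR
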