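import Pool.Agent.H9C.QR.CSI
import Pool.Agent.H9C.QR.SQI
import Pool.Agent.H9C.QR.DTI

/-!
# Quillen's question for complete semistable rings: perfect residue fields, examples
-/

set_option autoImplicit false

open Polynomial TensorProduct

noncomputable section

namespace Pool.Agent.H9C.QR

open BQ Pool.Agent.W394.BQN Pool.Agent.H40.BP Pool.Agent.H9C.CS Pool.Agent.H9C.DT
  Pool.Agent.H9C.SQ IsLocalRing

/-- one product -/
theorem cs_perf (p : ℕ) (hp : p.Prime) (R : Type) [CommRing R]
    [IsRegularLocalRing R] [IsAdicComplete (maximalIdeal R) R] [CharP (ResidueField R) p]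
    (hperf : Function.Surjective (fun a : ResidueField R => a ^ p)) (n : ℕ)
    (hn : ringKrullDim R = ((n + 2 : ℕ) : WithBot ℕ∞)) (x : Fin (n + 1) → R) (r : R)
    (hx : maximalIdeal R = Ideal.span (insert r (Set.range x))) (J : Finset (Fin (n + 1)))
    (hJ : J.Nonempty) (h : Associated (p : R) (∏ i ∈ J, x i)) :
    r ∈ maximalIdeal R ∧ r ∉ maximalIdeal R ^ 2 ∧ AllFree (Localization.Away r) := by
  have hF : Fact p.Prime := ⟨hp⟩
  have hP : PerfectRing (ResidueField R) p := PerfectRing.ofSurjective _ p hperf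
  obtain ⟨φ, hφ⟩ := Pool.Agent.Q211.CS.t_WIT p R
  obtain ⟨h1, h2, h3⟩ := witt_data p (ResidueField R)
  exact cs_quillen (p : WittVector p (ResidueField R)) h1 R φ (fun a => by
    obtain ⟨w, hw⟩ := WittVector.constantCoeff_surjective (p := p) (R := ResidueField R) a
    exact ⟨w, (hφ w).trans hw⟩) n hn x r hx J hJ (by rwa [map_natCast])

/-- two products -/
theorem sq_perf (p : ℕ) (hp : p.Prime) (R : Type) [CommRing R]
    [IsRegularLocalRing R] [IsAdicComplete (maximalIdeal R) R] [CharP (ResidueField R) p]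
    (hperf : Function.Surjective (fun a : ResidueField R => a ^ p)) (n : ℕ)
    (hn : ringKrullDim R = ((n + 2 : ℕ) : WithBot ℕ∞)) (x : Fin (n + 1) → R) (r : R)
    (hx : maximalIdeal R = Ideal.span (insert r (Set.range x))) (I J : Finset (Fin (n + 1)))
    (hIJ : Disjoint I J) (hI : 2 ≤ I.card) (hJ : 2 ≤ J.card) (u v : R) (hu : IsUnit u)
    (hv : IsUnit v) (h : (p : R) = u * ∏ i ∈ I, x i + v * ∏ j ∈ J, x j) :
    r ∈ maximalIdeal R ∧ r ∉ maximalIdeal R ^ 2 ∧ AllFree (Localization.Away r) := by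
  have hF : Fact p.Prime := ⟨hp⟩
  have hPR : PerfectRing (ResidueField R) p := PerfectRing.ofSurjective _ p hperf
  obtain ⟨φ, hφ⟩ := Pool.Agent.Q211.CS.t_WIT p R
  obtain ⟨h1, h2, h3⟩ := witt_data p (ResidueField R)
  have hpm : ((p : ℕ) : WittVector p (ResidueField R)) ∈
      maximalIdeal (WittVector p (ResidueField R)) := h1.not_isUnit
  exact sq_quillen (p : WittVector p (ResidueField R)) h1 ⟨p, hp, hpm⟩ R φ (fun a => by
      obtain ⟨w, hw⟩ := WittVector.constantCoeff_surjective (p := p) (R := ResidueField R) a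
      exact ⟨w, (hφ w).trans hw⟩) n hn x r hx I J hIJ hI hJ u v hu hv (by rwa [map_natCast])

/-- power series in a product and another parameter -/
theorem dt_perf (p : ℕ) [Fact p.Prime] (R : Type) [CommRing R]
    [IsRegularLocalRing R] [IsAdicComplete (maximalIdeal R) R] [CharP (ResidueField R) p]
    (hperf : Function.Surjective (fun a : ResidueField R => a ^ p)) (n : ℕ)
    (hn : ringKrullDim R = ((n + 3 : ℕ) : WithBot ℕ∞)) (x : Fin (n + 1) → R) (t r : R)
    (hx : maximalIdeal R = Ideal.span (insert r (Set.range x ∪ {t}))) (J : Finset (Fin (n + 1)))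
    (hJ : J.Nonempty) (ψ : MvPowerSeries (Fin 2) (WittVector p (ResidueField R)) →+* R)
    (hψ : Function.Surjective ((residue R).comp ψ))
    (h0 : Associated (ψ (MvPowerSeries.X 0)) (∏ i ∈ J, x i)) (h1 : ψ (MvPowerSeries.X 1) = t)
    (g : MvPowerSeries (Fin 2) (WittVector p (ResidueField R)))
    (hg : g ∈ Ideal.span {MvPowerSeries.X 0, MvPowerSeries.X 1}) (hgp : ψ g = (p : R)) :
    r ∈ maximalIdeal R ∧ r ∉ maximalIdeal R ^ 2 ∧ AllFree (Localization.Away r) := by
  have hP : PerfectRing (ResidueField R) p := PerfectRing.ofSurjective _ p hperf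
  obtain ⟨i1, i2, i3, hdim, hmax⟩ := Pool.Agent.H9C.DT.parts.wit p (ResidueField R) g hg
  let I : Ideal (MvPowerSeries (Fin 2) (WittVector p (ResidueField R))) :=
    Ideal.span {g - (p : MvPowerSeries (Fin 2) (WittVector p (ResidueField R)))}
  let φ : (MvPowerSeries (Fin 2) (WittVector p (ResidueField R)) ⧸ I) →+* R :=
    Ideal.Quotient.lift I ψ (fun a ha => by
      obtain ⟨b, rfl⟩ := Ideal.mem_span_singleton.1 ha
      rw [map_mul, map_sub, map_natCast, hgp, sub_self, zero_mul])
  have hφ : ∀ a, φ (Ideal.Quotient.mk I a) = ψ a := fun a => Ideal.Quotient.lift_mk _ _ _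
  refine dt_quillen hdim _ _ hmax R φ ?_ n hn x r ?_ J hJ ?_
  · intro a
    obtain ⟨b, hb⟩ := hψ a
    exact ⟨Ideal.Quotient.mk I b, (congrArg (residue R) (hφ b)).trans hb⟩
  · rw [hx]
    congr 3
    exact congrArg _ ((hφ _).trans h1).symm
  · have h2 := hφ (MvPowerSeries.X 0)
    rw [← h2] at h0
    exact h0

/-- examples with an additional parameter -/
theorem ex_final (p : ℕ) (hp : p.Prime) (n : ℕ) (J : Finset (Fin (n + 1))) (hJ : J.Nonempty) :
    ∃ (R : Type) (_ : CommRing R) (_ : IsRegularLocalRing R) (x : Fin (n + 1) → R) (r : R),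
      IsAdicComplete (maximalIdeal R) R ∧ CharZero R ∧
      ringKrullDim R = ((n + 2 : ℕ) : WithBot ℕ∞) ∧
      maximalIdeal R = Ideal.span (insert r (Set.range x)) ∧ (p : R) = ∏ i ∈ J, x i ∧
      r ∈ maximalIdeal R ∧ r ∉ maximalIdeal R ^ 2 ∧ AllFree (Localization.Away r) := by
  have hF : Fact p.Prime := ⟨hp⟩
  have hpr : Prime (p : ℤ_[p]) := PadicInt.prime_p
  obtain ⟨h1, h2, h3, h4⟩ := csr_data (p : ℤ_[p]) hpr n J hJ
  set B := CSR ℤ_[p] (p : ℤ_[p]) J with hB
  have hreg : IsRegularLocalRing (PowerSeries B) := powerSeries_regular B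
  have hc : IsAdicComplete (maximalIdeal (PowerSeries B)) (PowerSeries B) := t_CPLP B
  let f : ℤ_[p] →+* B := (QuotBy.mk (csrRel (p : ℤ_[p]) J)).comp MvPowerSeries.C
  let x : Fin (n + 1) → B := fun i => QuotBy.mk (csrRel (p : ℤ_[p]) J) (MvPowerSeries.X i)
  have hfp : f (p : ℤ_[p]) ≠ 0 := csr_p_ne (p : ℤ_[p]) hpr n J hJ
  have hdom : IsDomain B := csr_domain (p : ℤ_[p]) hpr J hJ
  have hfx : f (p : ℤ_[p]) = ∏ i ∈ J, x i := by
    rw [← map_prod]
    symm
    exact (Ideal.Quotient.mk_eq_mk_iff_sub_mem _ _).2 (Ideal.mem_span_singleton_self _)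
  have hfi : Function.Injective f := by
    rw [injective_iff_map_eq_zero]
    intro a ha
    by_contra ha0
    obtain ⟨k, u, hu⟩ := IsDiscreteValuationRing.eq_unit_mul_pow_irreducible ha0
      hpr.irreducible
    rw [hu, map_mul, map_pow] at ha
    rcases mul_eq_zero.1 ha with h | h
    · exact (u.isUnit.map f).ne_zero h
    · exact hfp (eq_zero_of_pow_eq_zero h)
  let F : ℤ_[p] →+* PowerSeries B := (PowerSeries.C (R := B)).comp f
  have hFi : Function.Injective F := PowerSeries.C_injective.comp hfi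
  have hch : CharZero (PowerSeries B) := ⟨fun a b hab => by
    have h7 : F (a : ℤ_[p]) = F (b : ℤ_[p]) :=
      (map_natCast F a).trans (hab.trans (map_natCast F b).symm)
    exact Nat.cast_injective (hFi h7)⟩
  have hdim : ringKrullDim (PowerSeries B) = ((n + 2 : ℕ) : WithBot ℕ∞) := by
    rw [REG3.dim_powerSeries, h3]
    rfl
  have hmax : maximalIdeal (PowerSeries B) =
      Ideal.span (insert PowerSeries.X (Set.range fun i => PowerSeries.C (R := B) (x i))) := by
    rw [max_ps _ h4, ← Set.range_comp]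
    rfl
  have hprod : F (p : ℤ_[p]) = ∏ i ∈ J, PowerSeries.C (R := B) (x i) := by
    rw [← map_prod, ← hfx]
    rfl
  refine ⟨PowerSeries B, inferInstance, hreg, fun i => PowerSeries.C (x i), PowerSeries.X, hc, hch,
    hdim, hmax, (map_natCast F p).symm.trans hprod, ?_⟩
  exact (cs_quillen (p : ℤ_[p]) hpr (PowerSeries B) F (res_ps _ (res_mv _)) n hdim
    (fun i => PowerSeries.C (x i)) PowerSeries.X hmax J hJ (hprod ▸ Associated.refl _))

end Pool.Agent.H9C.QR
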