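import Pool.Agent.H9C.QR.TRI
import Pool.Agent.H9C.QR.ABX
import Pool.Agent.H40.BP.BQ2
import Pool.Agent.W349.BQN.EUC

/-!
# The rings `L[z]/(x^(k+1) z - y)`, `L` a noetherian local domain with maximal ideal `(x, y)`
-/

set_option autoImplicit false

open Polynomial

noncomputable section

namespace Pool.Agent.H9C.QR

open BQ Pool.Agent.H40.BP IsLocalRing Pool.Agent.W394.BQN

theorem chk_main (hL2 : S_L2) (hIND : S_IND) (L : Type) [CommRing L] [IsDomain L] [IsLocalRing L]
    [IsNoetherianRing L] (x y : L) (hxy : maximalIdeal L = Ideal.span {x, y}) (hx : Prime x)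
    (hnd : ¬ x ∣ y) (k : ℕ) : IsDomain (NodeP (x ^ (k + 1)) y) ∧ AF (NodeP (x ^ (k + 1)) y) := by
  have hx0 : x ≠ 0 := hx.ne_zero
  have hsurj : Function.Surjective (nm (x ^ (k + 1)) y) := Ideal.Quotient.mk_surjective
  have hCx : Prime (Polynomial.C x : L[X]) := Polynomial.prime_C_iff.2 hx
  have hxm : x ∈ maximalIdeal L := by
    rw [hxy]
    exact Ideal.subset_span (by simp)
  have hym : y ∈ maximalIdeal L := by
    rw [hxy]
    exact Ideal.subset_span (by simp)
  have hy : nm (x ^ (k + 1)) y (Polynomial.C y) = nm (x ^ (k + 1)) y (Polynomial.C x) *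
      (nm (x ^ (k + 1)) y (Polynomial.C (x ^ k)) * nm (x ^ (k + 1)) y X) := by
    rw [← map_mul, ← map_mul, eq_comm]
    refine (Ideal.Quotient.mk_eq_mk_iff_sub_mem _ _).2 ?_
    have h0 : Polynomial.C x * (Polynomial.C (x ^ k) * X) - Polynomial.C y =
        nodeP (x ^ (k + 1)) y := by
      rw [nodeP, pow_succ, Polynomial.C_mul]
      ring
    rw [h0]
    exact Ideal.mem_span_singleton_self _
  -- `x` is a nonzerodivisor
  have hreg : ∀ a : NodeP (x ^ (k + 1)) y, nm (x ^ (k + 1)) y (Polynomial.C x) * a = 0 → a = 0 := by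
    intro a
    obtain ⟨a, rfl⟩ := hsurj a
    intro ha
    rw [← map_mul, Ideal.Quotient.eq_zero_iff_mem, Ideal.mem_span_singleton] at ha
    obtain ⟨b, hb⟩ := ha
    rw [nodeP] at hb
    have h1 : Polynomial.C x ∣ Polynomial.C y * b := ⟨Polynomial.C (x ^ k) * X * b - a, by
      rw [mul_sub, hb, pow_succ, Polynomial.C_mul]
      ring⟩
    rcases hCx.dvd_or_dvd h1 with h2 | h2
    · rw [Polynomial.C_dvd_iff_dvd_coeff] at h2
      have h3 := h2 0
      rw [Polynomial.coeff_C_zero] at h3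
      exact absurd h3 hnd
    · obtain ⟨c, rfl⟩ := h2
      rw [Ideal.Quotient.eq_zero_iff_mem, Ideal.mem_span_singleton]
      refine ⟨c, mul_left_cancel₀ hCx.ne_zero ?_⟩
      rw [hb, nodeP]
      ring
  have hreg' : nm (x ^ (k + 1)) y (Polynomial.C x) ∈ nonZeroDivisors (NodeP (x ^ (k + 1)) y) := by
    rw [mem_nonZeroDivisors_iff_right]
    intro a ha
    exact hreg a (by rw [mul_comm]; exact ha)
  have hle : Submonoid.powers (nm (x ^ (k + 1)) y (Polynomial.C x)) ≤ nonZeroDivisors (NodeP (x ^ (k + 1)) y) := by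
    rintro _ ⟨k, rfl⟩
    exact pow_mem hreg' k
  have hinj : Function.Injective (algebraMap (NodeP (x ^ (k + 1)) y)
      (Localization.Away (nm (x ^ (k + 1)) y (Polynomial.C x)))) :=
    IsLocalization.injective (Localization.Away (nm (x ^ (k + 1)) y (Polynomial.C x))) hle
  obtain ⟨-, hP2⟩ := hL2 L x y hxy hx
  have hle0 : Submonoid.powers x ≤ nonZeroDivisors L := by
    rintro _ ⟨k, rfl⟩
    exact mem_nonZeroDivisors_of_ne_zero (pow_ne_zero k hx0)
  have hdom0 : IsDomain (Localization.Away x) := IsLocalization.isDomain_localization hle0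
  have hiso := HX.away_iso L (x ^ (k + 1)) y 1 (pow_ne_zero _ hx0) (nodeP (x ^ (k + 1)) y) rfl
  rw [mul_one] at hiso
  obtain ⟨e0⟩ := hiso
  obtain ⟨e1⟩ := away_congr x (x ^ (k + 1)) ⟨1, by rw [pow_one]; exact dvd_pow_self x (by omega)⟩
    ⟨k + 1, dvd_refl _⟩
  obtain ⟨e2⟩ := away_congr (nm (x ^ (k + 1)) y (Polynomial.C (x ^ (k + 1))))
    (nm (x ^ (k + 1)) y (Polynomial.C x)) ⟨k + 1, by rw [Polynomial.C_pow, map_pow]⟩
    ⟨1, by
      rw [pow_one, Polynomial.C_pow, map_pow]
      exact dvd_pow_self _ (by omega)⟩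
  let e : Localization.Away x ≃+* Localization.Away (nm (x ^ (k + 1)) y (Polynomial.C x)) :=
    (e1.trans e0).trans e2
  have hdom1 : IsDomain (Localization.Away (nm (x ^ (k + 1)) y (Polynomial.C x))) :=
    MulEquiv.isDomain _ e.symm.toMulEquiv
  have hpid1 : IsPrincipalIdealRing (Localization.Away (nm (x ^ (k + 1)) y (Polynomial.C x))) :=
    IsPrincipalIdealRing.of_surjective (e : Localization.Away x →+* _) e.surjective
  have hdom : IsDomain (NodeP (x ^ (k + 1)) y) := hinj.isDomain (algebraMap (NodeP (x ^ (k + 1)) y)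
      (Localization.Away (nm (x ^ (k + 1)) y (Polynomial.C x))))
  refine ⟨hdom, ?_⟩
  -- the quotient
  let q : NodeP (x ^ (k + 1)) y →+* (ResidueField L)[X] := Ideal.Quotient.lift (Ideal.span {nodeP (x ^ (k + 1)) y})
    (Polynomial.mapRingHom (residue L)) (by
      intro a ha
      obtain ⟨b, rfl⟩ := Ideal.mem_span_singleton.1 ha
      rw [map_mul]
      have h1 : Polynomial.mapRingHom (residue L) (nodeP (x ^ (k + 1)) y) = 0 := by
        rw [nodeP, map_sub, map_mul, Polynomial.coe_mapRingHom, Polynomial.map_C,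
          Polynomial.map_C, map_pow, (residue_eq_zero_iff x).2 hxm, (residue_eq_zero_iff y).2 hym,
          zero_pow (Nat.succ_ne_zero k), map_zero, zero_mul, sub_zero]
      rw [h1, zero_mul])
  have hq : ∀ P, q (nm (x ^ (k + 1)) y P) = P.map (residue L) := fun P => Ideal.Quotient.lift_mk _ _ _
  have hqs : Function.Surjective q := by
    intro P
    obtain ⟨Q, hQ⟩ := Polynomial.map_surjective (residue L) residue_surjective P
    exact ⟨nm (x ^ (k + 1)) y Q, (hq Q).trans hQ⟩
  have hker : ∀ r, q r = 0 ↔ nm (x ^ (k + 1)) y (Polynomial.C x) ∣ r := by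
    intro r
    obtain ⟨P, rfl⟩ := hsurj r
    rw [hq]
    constructor
    · intro h
      have h1 : P ∈ Ideal.map Polynomial.C (maximalIdeal L) := by
        rw [Ideal.mem_map_C_iff]
        intro n
        have h2 := congrArg (fun Q => Polynomial.coeff Q n) h
        simp only [Polynomial.coeff_map, Polynomial.coeff_zero] at h2
        exact (residue_eq_zero_iff _).1 h2
      rw [hxy, Ideal.map_span, Set.image_pair, Ideal.mem_span_pair] at h1
      obtain ⟨a, b, hab⟩ := h1
      rw [← hab, map_add, map_mul, map_mul, hy]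
      exact ⟨nm (x ^ (k + 1)) y a + nm (x ^ (k + 1)) y b * (nm (x ^ (k + 1)) y
        (Polynomial.C (x ^ k)) * nm (x ^ (k + 1)) y X), by ring⟩
    · rintro ⟨a, ha⟩
      obtain ⟨A, rfl⟩ := hsurj a
      rw [← hq, ha, map_mul, hq, Polynomial.map_C, (residue_eq_zero_iff x).2 hxm, map_zero,
        zero_mul]
  intro m n E hE
  obtain ⟨s, U, V, h1, h2⟩ := quillen_suslin m (Localization.Away (nm (x ^ (k + 1)) y (Polynomial.C x))) n
    (E.map (MvPolynomial.map (algebraMap (NodeP (x ^ (k + 1)) y)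
      (Localization.Away (nm (x ^ (k + 1)) y (Polynomial.C x)))))) (map_idem hE _)
  obtain ⟨c, ⟨N, rfl⟩, hc⟩ := splitAt_of_loc (algebraMap (NodeP (x ^ (k + 1)) y)
      (Localization.Away (nm (x ^ (k + 1)) y (Polynomial.C x)))) hinj
    (Submonoid.powers (nm (x ^ (k + 1)) y (Polynomial.C x)))
    (by
      intro z
      obtain ⟨⟨r, s⟩, hrs⟩ := IsLocalization.surj (Submonoid.powers (nm (x ^ (k + 1)) y (Polynomial.C x))) z
      exact ⟨s, s.2, r, by rw [mul_comm]; exact hrs⟩) m E ⟨s, U, V, h1, h2⟩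
  refine hIND m (NodeP (x ^ (k + 1)) y) (ResidueField L)[X] (Pool.Agent.W349.BQN.t_EUC _)
    q hqs (nm (x ^ (k + 1)) y (Polynomial.C x)) (nonZeroDivisors.ne_zero hreg') hker N n E hE ?_
  have : (MvPolynomial.C (nm (x ^ (k + 1)) y (Polynomial.C x) ^ N) : MvPolynomial (Fin m) (NodeP (x ^ (k + 1)) y)) =
      MvPolynomial.C (nm (x ^ (k + 1)) y (Polynomial.C x)) ^ N := by
    rw [map_pow]
  rw [← this]
  exact hc

theorem chk (L : Type) [CommRing L] [IsDomain L] [IsLocalRing L]
    [IsNoetherianRing L] (x y : L) (hxy : maximalIdeal L = Ideal.span {x, y}) (hx : Prime x)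
    (hnd : ¬ x ∣ y) (k : ℕ) : IsDomain (NodeP (x ^ (k + 1)) y) ∧ AF (NodeP (x ^ (k + 1)) y) :=
  chk_main t_L2 c_IND L x y hxy hx hnd k

end Pool.Agent.H9C.QR
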