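import Pool.Agent.H9C.QR.GCH

/-!
# The rings `K[[X_1,...,X_r]][w]/(x^(k+1) w - y)` and their localisations
-/

set_option autoImplicit false

open Polynomial

noncomputable section

namespace Pool.Agent.H9C.QR

open BQ Pool.Agent.H40.BP IsLocalRing Pool.Agent.W394.BQN STEP

theorem gafc_qf (K : Type) [CommRing K] [IsDomain K] [IsLocalRing K] [IsNoetherianRing K]
    [IsAdicComplete (maximalIdeal K) K] (x y : K) (hxy : maximalIdeal K = Ideal.span {x, y})
    (hx : Prime x) (hy : Prime y) (hxny : ¬ x ∣ y) (hynx : ¬ y ∣ x) (k r : ℕ) :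
    AF (QF (rel 1 (MvPowerSeries.C (x ^ (k + 1)) : MvPowerSeries (Fin r) K)
      (MvPowerSeries.C y))) := by
  have hynx' : ¬ y ∣ x ^ (k + 1) := fun h => hynx (hy.dvd_of_dvd_pow h)
  have hym : y ∈ maximalIdeal K := by
    rw [hxy]
    exact Ideal.subset_span (by simp)
  induction r with
  | zero =>
    obtain ⟨e⟩ := node_iso (x ^ (k + 1)) y
    refine AF.qf (MvPowerSeries.isEmptyEquiv (Fin 0) K).toRingEquiv.symm 1 (x ^ (k + 1)) y _ _ ?_ ?_
      (AF.of_equiv e.symm (chk K x y hxy hx hxny k).2)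
    · rfl
    · rfl
  | succ r ih =>
    have hB : IsDomain (MvPowerSeries (Fin r) K) := NoZeroDivisors.to_isDomain _
    have hB' : IsDomain (MvPowerSeries (Fin (r + 1)) K) := NoZeroDivisors.to_isDomain _
    have hpr : Prime (MvPowerSeries.C y : MvPowerSeries (Fin r) K) := LPaux.prime_C hy
    have hpr1 : Prime (Polynomial.C (MvPowerSeries.C y : MvPowerSeries (Fin r) K)) :=
      Polynomial.prime_C_iff.2 hpr
    obtain ⟨L, _, _, _, _, φ, hφ, hfrac, hunit, hmax, hprL⟩ := t_L1 K x y hxy hx (r + 1)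
    have hD := afc_dom hy hynx' (r + 1)
    refine step_bc c_STEP t_BC K r 1 (Polynomial.C (x ^ (k + 1))) (Polynomial.C y)
      (Polynomial.C (MvPowerSeries.C (x ^ (k + 1)))) (Polynomial.C (MvPowerSeries.C y))
      (MvPowerSeries.C (x ^ (k + 1)))
      (MvPowerSeries.C y) (im_C r K (x ^ (k + 1))) (im_C r K y) (ip_C r K (x ^ (k + 1))) (ip_C r K y) ?_ ?_ hD.1 ?_ ?_
      L φ hφ hfrac ?_
    · rw [coeff_rel_succ, Polynomial.coeff_neg, Polynomial.coeff_C_zero]
      exact (maximalIdeal K).neg_mem hym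
    · exact (t_DOM _ (Polynomial.C (MvPowerSeries.C (x ^ (k + 1))) : (MvPowerSeries (Fin r) K)[X])
        (Polynomial.C (MvPowerSeries.C y)) hpr1
        (fun h => hynx' (mv_C_dvd (pol_C_dvd h))) 0).1
    · intro f hf h0
      exact hf.ne_zero (hD.2 f h0)
    · obtain ⟨e⟩ := t_POLF (MvPowerSeries (Fin r) K) 1 (rel 1 (MvPowerSeries.C (x ^ (k + 1)))
        (MvPowerSeries.C y))
      have h1 := ih.poly.of_equiv e
      rwa [Pool.Agent.H40.BP.map_rel] at h1
    · rw [map_pow, map_pow]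
      obtain ⟨e⟩ := node_iso (φ (MvPowerSeries.C x) ^ (k + 1)) (φ (MvPowerSeries.C y))
      exact AF.of_equiv e.symm (chk L _ _ hmax hprL (loc_ndvd hx hxny φ hφ hfrac) k).2

/-- the rings `K[[X_0,...,X_r]][w]/(x^(k+1) w - y)` localised at `X_0` -/
theorem glar_qf (K : Type) [CommRing K] [IsDomain K] [IsLocalRing K] [IsNoetherianRing K]
    [IsAdicComplete (maximalIdeal K) K] (x y : K) (hxy : maximalIdeal K = Ideal.span {x, y})
    (hx : Prime x) (hy : Prime y) (hxny : ¬ x ∣ y) (hynx : ¬ y ∣ x) (k r : ℕ)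
    (z : QF (rel 1 (MvPowerSeries.C (x ^ (k + 1)) : MvPowerSeries (Fin (r + 1)) K) (MvPowerSeries.C y)))
    (hz : z = qm _ (MvPolynomial.C (MvPowerSeries.X 0))) : AF (Localization.Away z) := by
  have hynx' : ¬ y ∣ x ^ (k + 1) := fun h => hynx (hy.dvd_of_dvd_pow h)
  have hB : IsDomain (MvPowerSeries (Fin r) K) := NoZeroDivisors.to_isDomain _
  have hB' : IsDomain (MvPowerSeries (Fin (r + 1)) K) := NoZeroDivisors.to_isDomain _
  have hpr : Prime (MvPowerSeries.C y : MvPowerSeries (Fin r) K) := LPaux.prime_C hy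
  have hpr1 : Prime (Polynomial.C (MvPowerSeries.C y : MvPowerSeries (Fin r) K)) :=
    Polynomial.prime_C_iff.2 hpr
  obtain ⟨L, _, _, _, _, φ, hφ, hfrac, hunit, hmax, hprL⟩ := t_L1 K x y hxy hx (r + 1)
  obtain ⟨hDP, hDPc⟩ := afc_dom hy hynx' (r + 1)
  have hz0 : z ≠ 0 := by
    intro h0
    rw [hz] at h0
    exact (uc_X 0).ne_zero (hDPc _ h0)
  obtain ⟨ψ, hψ, hψf, hψv⟩ := bc_val φ hφ (ucS K (r + 1)) (fun z => by
      obtain ⟨f, hf, b, hb⟩ := hfrac z
      exact ⟨f, mem_ucS.2 hf, b, hb⟩) 1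
    (rel 1 (MvPowerSeries.C (x ^ (k + 1)) : MvPowerSeries (Fin (r + 1)) K) (MvPowerSeries.C y)) hDP
    (fun f hf h0 => (mem_ucS.1 hf).ne_zero (hDPc f h0))
  -- the localisation
  have hzu : IsUnit (ψ z) := by
    rw [hz, hψv, MvPolynomial.map_C]
    exact ((hunit _ (uc_X 0)).map MvPolynomial.C).map (qm _)
  let θ : Localization.Away z →+* QF (MvPolynomial.map φ (rel 1 (MvPowerSeries.C (x ^ (k + 1)) :
      MvPowerSeries (Fin (r + 1)) K) (MvPowerSeries.C y))) := IsLocalization.Away.lift z hzu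
  have hθ : ∀ a, θ (algebraMap _ _ a) = ψ a := fun a => IsLocalization.Away.lift_eq z hzu a
  have hθi : Function.Injective θ := by
    rw [injective_iff_map_eq_zero]
    intro a ha
    obtain ⟨⟨b, s⟩, hbs⟩ := IsLocalization.surj (Submonoid.powers z) a
    have h1 : θ (algebraMap _ _ b) = 0 := by
      rw [← hbs, map_mul, ha, zero_mul]
    rw [hθ] at h1
    have h2 : b = 0 := hψ (by rw [h1, map_zero])
    rw [h2, map_zero] at hbs
    exact (IsLocalization.map_units (Localization.Away z) s).mul_left_eq_zero.1 hbs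
  have hΩ : AF (QF (MvPolynomial.map φ (rel 1 (MvPowerSeries.C (x ^ (k + 1)) :
      MvPowerSeries (Fin (r + 1)) K) (MvPowerSeries.C y)))) := by
    rw [Pool.Agent.H40.BP.map_rel, map_pow, map_pow]
    obtain ⟨e⟩ := node_iso (φ (MvPowerSeries.C x) ^ (k + 1)) (φ (MvPowerSeries.C y))
    exact AF.of_equiv e.symm (chk L _ _ hmax hprL (loc_ndvd hx hxny φ hφ hfrac) k).2
  intro m n E hE
  let M : Submonoid (Localization.Away z) :=
    { carrier := {a | ∃ f : MvPowerSeries (Fin (r + 1)) K, UC f ∧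
        a = algebraMap _ _ (qm (rel 1 (MvPowerSeries.C (x ^ (k + 1))) (MvPowerSeries.C y))
          (MvPolynomial.C f))}
      one_mem' := ⟨1, uc_one, by rw [MvPolynomial.C_1, map_one, map_one]⟩
      mul_mem' := by
        rintro a b ⟨f, hf, rfl⟩ ⟨g, hg, rfl⟩
        exact ⟨f * g, uc_mul hf hg, by rw [← map_mul, ← map_mul, ← MvPolynomial.C_mul]⟩ }
  obtain ⟨_, ⟨f, hf, rfl⟩, hsE⟩ := splitAt_of_loc θ hθi M (by
    intro ω
    obtain ⟨f, hf, a, ha⟩ := hψf ω
    refine ⟨_, ⟨f, mem_ucS.1 hf, rfl⟩, algebraMap _ _ a, ?_⟩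
    rw [hθ, hθ]
    exact ha) m E (hΩ m n (E.map (MvPolynomial.map θ)) (map_idem hE _))
  -- the automorphism
  obtain ⟨σ, d, hk, hσC, hσX⟩ := t_AUTC r K f hf
  let σ' : QF (rel 1 (MvPowerSeries.C (x ^ (k + 1)) : MvPowerSeries (Fin (r + 1)) K) (MvPowerSeries.C y)) ≃+*
      QF (rel 1 (MvPowerSeries.C (x ^ (k + 1)) : MvPowerSeries (Fin (r + 1)) K) (MvPowerSeries.C y)) :=
    qfEquiv σ _ _ (by
      rw [Pool.Agent.H40.BP.map_rel]
      congr 1
      · exact hσC (x ^ (k + 1))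
      · exact hσC y)
  have hσ' : ∀ g, σ' (qm _ (MvPolynomial.C g)) = qm _ (MvPolynomial.C (σ g)) := by
    intro g
    show Ideal.quotientEquiv _ _ _ _ (Ideal.Quotient.mk _ _) = _
    rw [Ideal.quotientEquiv_mk]
    congr 1
    rw [MvPolynomial.mapEquiv_apply, MvPolynomial.map_C]
    rfl
  have hσz : σ' z = z := by
    rw [hz, hσ', hσX]
  let Θ : Localization.Away z ≃+* Localization.Away z :=
    IsLocalization.ringEquivOfRingEquiv (M := Submonoid.powers z) (T := Submonoid.powers z)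
      (Localization.Away z) (Localization.Away z) σ' (by
        refine (Submonoid.map_powers _ z).trans ?_
        exact congrArg Submonoid.powers hσz)
  have hΘ : ∀ a, Θ (algebraMap _ _ a) = algebraMap _ _ (σ' a) := fun a =>
    IsLocalization.ringEquivOfRingEquiv_eq _ a
  refine of_mapEquivZ Θ m n E _ hE hsE fun E1 hE1 hs1 => ?_
  rw [hΘ, hσ'] at hs1
  -- Weierstrass preparation
  have hcpl := t_CPL r K
  set e0 : MvPowerSeries (Fin (r + 1)) K ≃+* PowerSeries (MvPowerSeries (Fin r) K) :=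
    (MvPowerSeries.finSuccEquiv K r).toRingEquiv with he0
  have hcoe : IsUnit (PowerSeries.coeff d (e0 (σ f))) := by
    rw [MvPowerSeries.isUnit_iff_constantCoeff]
    have h1 : MvPowerSeries.coeff 0 (PowerSeries.coeff d
        (MvPowerSeries.finSuccEquiv K r (σ f))) =
        MvPowerSeries.coeff ((0 : Fin r →₀ ℕ).cons d) (σ f) :=
      MvPowerSeries.coeff_coeff_finSuccEquiv _
    have h2 : (0 : Fin r →₀ ℕ).cons d = Finsupp.single 0 d := by
      ext i
      refine Fin.cases ?_ (fun j => ?_) i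
      · simp
      · simp
    rw [h2] at h1
    rw [← h1] at hk
    rw [MvPowerSeries.coeff_zero_eq_constantCoeff_apply] at hk
    exact hk
  obtain ⟨g, w, hw, hfg, hgm, -, hpat⟩ := t_WEI (MvPowerSeries (Fin r) K) (e0 (σ f))
    ⟨d, hcoe⟩
  set ι0 : (MvPowerSeries (Fin r) K)[X] →+* MvPowerSeries (Fin (r + 1)) K :=
    (e0.symm : PowerSeries (MvPowerSeries (Fin r) K) →+*
      MvPowerSeries (Fin (r + 1)) K).comp
      Polynomial.coeToPowerSeries.ringHom with hι0
  have hpat0 : AnPatch ι0 g := patch_equiv hpat e0.symm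
  have hι0C : ∀ a : K, ι0 (Polynomial.C (MvPowerSeries.C a)) =
      MvPowerSeries.C a := by
    intro a
    apply e0.injective
    rw [hι0, RingHom.comp_apply]
    show e0 (e0.symm _) = _
    rw [e0.apply_symm_apply, he0]
    show ((Polynomial.C (MvPowerSeries.C a) : (MvPowerSeries (Fin r) K)[X]) :
      PowerSeries (MvPowerSeries (Fin r) K)) =
        MvPowerSeries.finSuccEquiv K r (MvPowerSeries.C a)
    rw [MvPowerSeries.finSuccEquiv_C, Polynomial.coe_C]
  have hι0X : ι0 X = MvPowerSeries.X 0 := by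
    apply e0.injective
    rw [hι0, RingHom.comp_apply]
    show e0 (e0.symm _) = _
    rw [e0.apply_symm_apply, he0]
    show ((Polynomial.X : (MvPowerSeries (Fin r) K)[X]) :
      PowerSeries (MvPowerSeries (Fin r) K)) =
        MvPowerSeries.finSuccEquiv K r (MvPowerSeries.X 0)
    rw [MvPowerSeries.finSuccEquiv_X_zero, Polynomial.coe_X]
  have hσfg : σ f = ι0 g * e0.symm w := by
    apply e0.injective
    rw [map_mul, e0.apply_symm_apply, hι0, RingHom.comp_apply]
    show _ = e0 (e0.symm _) * w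
    rw [e0.apply_symm_apply]
    exact hfg
  have hw' : IsUnit (e0.symm w) := hw.map e0.symm
  have hne : qm (rel 1 (MvPowerSeries.C (x ^ (k + 1)) : MvPowerSeries (Fin (r + 1)) K) (MvPowerSeries.C y))
      (MvPolynomial.C (ι0 g)) ≠ 0 := by
    intro h0
    have h1 := hDPc _ h0
    rw [h1, zero_mul] at hσfg
    exact hf.ne_zero (σ.injective (by rw [hσfg, map_zero]))
  have hD0 : IsDomain (QF (rel 1 (Polynomial.C (MvPowerSeries.C (x ^ (k + 1))) : (MvPowerSeries (Fin r) K)[X])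
      (Polynomial.C (MvPowerSeries.C y)))) :=
    (t_DOM _ (Polynomial.C (MvPowerSeries.C (x ^ (k + 1))) : (MvPowerSeries (Fin r) K)[X])
      (Polynomial.C (MvPowerSeries.C y)) hpr1 (fun h => hynx' (mv_C_dvd (pol_C_dvd h))) 0).1
  refine lar_gen ι0 g hgm hpat0 (MvPowerSeries.C (x ^ (k + 1))) (MvPowerSeries.C y) _ _ (hι0C (x ^ (k + 1))) (hι0C y)
    hD0 hDP hne (gafc_qf K x y hxy hx hy hxny hynx k r) z (by rw [hz, hι0X]) hz0 m n E1 hE1 ?_
  apply SplitAt.of_mul (u := MvPolynomial.C (algebraMap _ (Localization.Away z)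
    (qm (rel 1 (MvPowerSeries.C (x ^ (k + 1))) (MvPowerSeries.C y)) (MvPolynomial.C (e0.symm w)))))
    ((((hw'.map MvPolynomial.C).map (qm _)).map (algebraMap _ (Localization.Away z))).map
      MvPolynomial.C)
  rw [← MvPolynomial.C_mul, ← map_mul, ← map_mul, ← MvPolynomial.C_mul, ← hσfg]
  exact hs1

end Pool.Agent.H9C.QR
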