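import Pool.Agent.H9C.QR.LOCP

/-!
# The rings `K[[X_0,...,X_r]][w]/(x w - y)` localised at `X_0`
-/

set_option autoImplicit false

open Polynomial

noncomputable section

namespace Pool.Agent.H9C.QR

open BQ Pool.Agent.H40.BP IsLocalRing Pool.Agent.W394.BQN STEP

theorem lar_gen {A0 P : Type} [CommRing A0] [CommRing P] [IsNoetherianRing A0]
    (ι0 : A0[X] →+* P) (g : A0[X]) (hg : g.Monic) (hpat0 : AnPatch ι0 g) (s u : A0) (s' u' : P)
    (hs' : ι0 (Polynomial.C s) = s') (hu' : ι0 (Polynomial.C u) = u')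
    (hD0 : IsDomain (QF (rel 1 (Polynomial.C s : A0[X]) (Polynomial.C u))))
    (hDP : IsDomain (QF (rel 1 s' u')))
    (hne : qm (rel 1 s' u') (MvPolynomial.C (ι0 g)) ≠ 0) (hAF : AF (QF (rel 1 s u)))
    (z : QF (rel 1 s' u')) (hz : z = qm (rel 1 s' u') (MvPolynomial.C (ι0 X))) (hz0 : z ≠ 0)
    (m n : ℕ) (E : Matrix (Fin n) (Fin n) (MvPolynomial (Fin m) (Localization.Away z)))
    (hE : E * E = E)
    (hs : SplitAt (MvPolynomial.C (algebraMap _ (Localization.Away z)
      (qm (rel 1 s' u') (MvPolynomial.C (ι0 g))))) E) : Split E := by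
  obtain ⟨Fm, hFm⟩ : ∃ F : MvPolynomial (Fin 1) A0[X],
    F = MvPolynomial.map Polynomial.C (rel 1 s u) := ⟨_, rfl⟩
  have hFm' : Fm = rel 1 (Polynomial.C s) (Polynomial.C u) := by
    rw [hFm, Pool.Agent.H40.BP.map_rel]
  have hFP : MvPolynomial.map ι0 Fm = rel 1 s' u' := by
    rw [hFm', Pool.Agent.H40.BP.map_rel, hs', hu']
  obtain ⟨FP, hFPe⟩ : ∃ F : MvPolynomial (Fin 1) P, F = rel 1 s' u' := ⟨_, rfl⟩
  rw [← hFPe] at hFP
  revert z E
  revert hne hDP
  rw [← hFPe, ← hFP]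
  intro hDP hne z hz hz0 E hE hs
  have hDm : IsDomain (QF Fm) := by rw [hFm']; exact hD0
  by_cases hgu : IsUnit (qm Fm (MvPolynomial.C g))
  · have hle : Ideal.span {Fm} ≤ Ideal.comap (MvPolynomial.map ι0)
        (Ideal.span {MvPolynomial.map ι0 Fm}) := by
      rw [Ideal.span_singleton_le_iff_mem, Ideal.mem_comap]
      exact Ideal.mem_span_singleton_self _
    have hgu' := hgu.map (Ideal.quotientMap (Ideal.span {MvPolynomial.map ι0 Fm})
      (MvPolynomial.map ι0) hle)
    have e9 : Ideal.quotientMap (Ideal.span {MvPolynomial.map ι0 Fm}) (MvPolynomial.map ι0) hle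
        (qm Fm (MvPolynomial.C g)) = qm (MvPolynomial.map ι0 Fm) (MvPolynomial.C (ι0 g)) := by
      rw [qm, Ideal.quotientMap_mk, MvPolynomial.map_C]
    rw [e9] at hgu'
    exact hs.split ((hgu'.map _).map MvPolynomial.C)
  have hp1 := t_TR _ _ ι0 g hpat0 1
  have hne' : Ideal.Quotient.mk (Ideal.span {MvPolynomial.map ι0 Fm})
      (MvPolynomial.map ι0 (MvPolynomial.C g)) ≠ 0 := by
    rw [MvPolynomial.map_C]
    exact hne
  obtain ⟨ι', hι', hpat'⟩ := t_QUOT (MvPolynomial (Fin 1) A0[X]) (MvPolynomial (Fin 1) P)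
    (MvPolynomial.map ι0) (MvPolynomial.C g) hp1 Fm hDm hDP hgu hne'
  obtain ⟨e1, he1, he1X⟩ := polF_val 1 (rel 1 s u)
  subst hFm
  obtain ⟨g', hg'⟩ : ∃ g' : (QF (rel 1 s u))[X],
    g' = g.map ((qm (rel 1 s u)).comp MvPolynomial.C) := ⟨_, rfl⟩
  have hmon : g'.Monic := by
    rw [hg']
    exact hg.map _
  have heg : e1 g' = qm _ (MvPolynomial.C g) := by
    have h : (e1 : (QF (rel 1 s u))[X] →+* _).comp
        (Polynomial.mapRingHom ((qm (rel 1 s u)).comp MvPolynomial.C)) =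
        (qm (MvPolynomial.map Polynomial.C (rel 1 s u))).comp
          (MvPolynomial.C : A0[X] →+* MvPolynomial (Fin 1) A0[X]) := by
      apply Polynomial.ringHom_ext'
      · ext c
        show e1 (Polynomial.mapRingHom ((qm (rel 1 s u)).comp MvPolynomial.C) (Polynomial.C c)) =
          qm _ (MvPolynomial.C (Polynomial.C c))
        rw [Polynomial.coe_mapRingHom, Polynomial.map_C]
        show e1 (Polynomial.C (qm (rel 1 s u) (MvPolynomial.C c))) = _
        rw [he1, MvPolynomial.map_C]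
      · show e1 (Polynomial.mapRingHom ((qm (rel 1 s u)).comp MvPolynomial.C) X) =
          qm _ (MvPolynomial.C X)
        rw [Polynomial.coe_mapRingHom, Polynomial.map_X, he1X]
    rw [hg']
    exact RingHom.congr_fun h g
  have hpat'' := anPatch_comp ι' _ hpat' e1 g' heg
  let j : (QF (rel 1 s u))[X] →+* QF (MvPolynomial.map ι0
    (MvPolynomial.map Polynomial.C (rel 1 s u))) := ι'.comp (e1 : (QF (rel 1 s u))[X] →+* _)
  have hjg : j g' = qm _ (MvPolynomial.C (ι0 g)) := by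
    show ι' (e1 g') = _
    rw [heg, hι', MvPolynomial.map_C]
  have hjX : j X = z := by
    show ι' (e1 X) = _
    rw [he1X, hι', MvPolynomial.map_C, hz]
  have key : ∀ z, j X = z → z ≠ 0 → ∀ (E : Matrix (Fin n) (Fin n)
      (MvPolynomial (Fin m) (Localization.Away z))), E * E = E →
      SplitAt (MvPolynomial.C (algebraMap _ (Localization.Away z) (j g'))) E → Split E := by
    rintro _ rfl hz0 E hE hs
    exact loc_patch j g' hmon hpat'' hAF (fun a ha => (mul_eq_zero.1 ha).resolve_left hz0) m n E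
      hE hs
  exact key z hjX hz0 E hE (by rw [hjg]; exact hs)

/-- base change to a localisation, with values -/
theorem bc_val {B L : Type} [CommRing B] [IsDomain B] [CommRing L] (φ : B →+* L)
    (hφ : Function.Injective φ) (S : Submonoid B) (hS : ∀ z : L, ∃ f ∈ S, ∃ b, φ f * z = φ b)
    (l : ℕ) (F : MvPolynomial (Fin l) B) (hdom : IsDomain (QF F))
    (hne : ∀ f ∈ S, qm F (MvPolynomial.C f) ≠ 0) :
    ∃ ψ : QF F →+* QF (MvPolynomial.map φ F), Function.Injective ψ ∧
      (∀ ω, ∃ f ∈ S, ∃ a, ψ (qm F (MvPolynomial.C f)) * ω = ψ a) ∧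
      ∀ a, ψ (qm F a) = qm (MvPolynomial.map φ F) (MvPolynomial.map φ a) := by
  have hle : Ideal.span {F} ≤ Ideal.comap (MvPolynomial.map φ)
      (Ideal.span {MvPolynomial.map φ F}) := by
    rw [Ideal.span_le, Set.singleton_subset_iff]
    exact Ideal.mem_span_singleton_self _
  let ψ : QF F →+* QF (MvPolynomial.map φ F) :=
    Ideal.quotientMap (Ideal.span {MvPolynomial.map φ F}) (MvPolynomial.map φ) hle
  have hψ : ∀ a, ψ (qm F a) = qm (MvPolynomial.map φ F) (MvPolynomial.map φ a) :=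
    fun a => Ideal.quotientMap_mk
  refine ⟨ψ, ?_, ?_, hψ⟩
  · rw [injective_iff_map_eq_zero]
    intro x hx
    obtain ⟨a, rfl⟩ := Ideal.Quotient.mk_surjective x
    change ψ (qm F a) = 0 at hx
    rw [hψ, Ideal.Quotient.eq_zero_iff_mem, Ideal.mem_span_singleton] at hx
    obtain ⟨c, hc⟩ := hx
    obtain ⟨s, hs, c', hc'⟩ := mv_frac φ S hS l c
    have h1 : MvPolynomial.C s * a = F * c' := by
      apply MvPolynomial.map_injective φ hφ
      rw [map_mul, map_mul, hc, ← hc']
      ring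
    have h2 : qm F (MvPolynomial.C s) * qm F a = 0 := by
      rw [← map_mul, h1, Ideal.Quotient.eq_zero_iff_mem]
      exact Ideal.mul_mem_right _ _ (Ideal.mem_span_singleton_self _)
    exact (mul_eq_zero.1 h2).resolve_left (hne s hs)
  · intro ω
    obtain ⟨z, rfl⟩ := Ideal.Quotient.mk_surjective ω
    obtain ⟨s, hs, r, hr⟩ := mv_frac φ S hS l z
    refine ⟨s, hs, qm F r, ?_⟩
    rw [hψ, hψ, ← hr, map_mul]

/-- the rings `K[[X_0,...,X_r]][w]/(x w - y)` localised at `X_0` -/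
theorem lar_qf (K : Type) [CommRing K] [IsDomain K] [IsLocalRing K] [IsNoetherianRing K]
    [IsAdicComplete (maximalIdeal K) K] (x y : K) (hxy : maximalIdeal K = Ideal.span {x, y})
    (hx : Prime x) (hy : Prime y) (hxny : ¬ x ∣ y) (hynx : ¬ y ∣ x) (r : ℕ)
    (z : QF (rel 1 (MvPowerSeries.C x : MvPowerSeries (Fin (r + 1)) K) (MvPowerSeries.C y)))
    (hz : z = qm _ (MvPolynomial.C (MvPowerSeries.X 0))) : AF (Localization.Away z) := by
  have hB : IsDomain (MvPowerSeries (Fin r) K) := NoZeroDivisors.to_isDomain _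
  have hB' : IsDomain (MvPowerSeries (Fin (r + 1)) K) := NoZeroDivisors.to_isDomain _
  have hpr : Prime (MvPowerSeries.C y : MvPowerSeries (Fin r) K) := LPaux.prime_C hy
  have hpr1 : Prime (Polynomial.C (MvPowerSeries.C y : MvPowerSeries (Fin r) K)) :=
    Polynomial.prime_C_iff.2 hpr
  obtain ⟨L, _, _, _, _, φ, hφ, hfrac, hunit, hmax, hprL⟩ := t_L1 K x y hxy hx (r + 1)
  obtain ⟨hDP, hDPc⟩ := afc_dom hy hynx (r + 1)
  have hz0 : z ≠ 0 := by
    intro h0
    rw [hz] at h0
    exact (uc_X 0).ne_zero (hDPc _ h0)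
  obtain ⟨ψ, hψ, hψf, hψv⟩ := bc_val φ hφ (ucS K (r + 1)) (fun z => by
      obtain ⟨f, hf, b, hb⟩ := hfrac z
      exact ⟨f, mem_ucS.2 hf, b, hb⟩) 1
    (rel 1 (MvPowerSeries.C x : MvPowerSeries (Fin (r + 1)) K) (MvPowerSeries.C y)) hDP
    (fun f hf h0 => (mem_ucS.1 hf).ne_zero (hDPc f h0))
  -- the localisation
  have hzu : IsUnit (ψ z) := by
    rw [hz, hψv, MvPolynomial.map_C]
    exact ((hunit _ (uc_X 0)).map MvPolynomial.C).map (qm _)
  let θ : Localization.Away z →+* QF (MvPolynomial.map φ (rel 1 (MvPowerSeries.C x :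
      MvPowerSeries (Fin (r + 1)) K) (MvPowerSeries.C y))) := IsLocalization.Away.lift z hzu
  have hθ : ∀ a, θ (algebraMap _ _ a) = ψ a := fun a => IsLocalization.Away.lift_eq z hzu a
  have hθi : Function.Injective θ := by
    rw [injective_iff_map_eq_zero]
    intro a ha
    obtain ⟨⟨b, s⟩, hbs⟩ := IsLocalization.surj (Submonoid.powers z) a
    have h1 : θ (algebraMap _ _ b) = 0 := by
      rw [← hbs, map_mul, ha, zero_mul]
    rw [hθ] at h1
    have h2 : b = 0 := hψ (by rw [h1, map_zero])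
    rw [h2, map_zero] at hbs
    exact (IsLocalization.map_units (Localization.Away z) s).mul_left_eq_zero.1 hbs
  have hΩ : AF (QF (MvPolynomial.map φ (rel 1 (MvPowerSeries.C x :
      MvPowerSeries (Fin (r + 1)) K) (MvPowerSeries.C y)))) := by
    rw [Pool.Agent.H40.BP.map_rel]
    obtain ⟨e⟩ := node_iso (φ (MvPowerSeries.C x)) (φ (MvPowerSeries.C y))
    exact AF.of_equiv e.symm (ch L _ _ hmax hprL (loc_ndvd hx hxny φ hφ hfrac)).2
  intro m n E hE
  let M : Submonoid (Localization.Away z) :=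
    { carrier := {a | ∃ f : MvPowerSeries (Fin (r + 1)) K, UC f ∧
        a = algebraMap _ _ (qm (rel 1 (MvPowerSeries.C x) (MvPowerSeries.C y))
          (MvPolynomial.C f))}
      one_mem' := ⟨1, uc_one, by rw [MvPolynomial.C_1, map_one, map_one]⟩
      mul_mem' := by
        rintro a b ⟨f, hf, rfl⟩ ⟨g, hg, rfl⟩
        exact ⟨f * g, uc_mul hf hg, by rw [← map_mul, ← map_mul, ← MvPolynomial.C_mul]⟩ }
  obtain ⟨_, ⟨f, hf, rfl⟩, hsE⟩ := splitAt_of_loc θ hθi M (by
    intro ω
    obtain ⟨f, hf, a, ha⟩ := hψf ω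
    refine ⟨_, ⟨f, mem_ucS.1 hf, rfl⟩, algebraMap _ _ a, ?_⟩
    rw [hθ, hθ]
    exact ha) m E (hΩ m n (E.map (MvPolynomial.map θ)) (map_idem hE _))
  -- the automorphism
  obtain ⟨σ, k, hk, hσC, hσX⟩ := t_AUTC r K f hf
  let σ' : QF (rel 1 (MvPowerSeries.C x : MvPowerSeries (Fin (r + 1)) K) (MvPowerSeries.C y)) ≃+*
      QF (rel 1 (MvPowerSeries.C x : MvPowerSeries (Fin (r + 1)) K) (MvPowerSeries.C y)) :=
    qfEquiv σ _ _ (by
      rw [Pool.Agent.H40.BP.map_rel]
      congr 1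
      · exact hσC x
      · exact hσC y)
  have hσ' : ∀ g, σ' (qm _ (MvPolynomial.C g)) = qm _ (MvPolynomial.C (σ g)) := by
    intro g
    show Ideal.quotientEquiv _ _ _ _ (Ideal.Quotient.mk _ _) = _
    rw [Ideal.quotientEquiv_mk]
    congr 1
    rw [MvPolynomial.mapEquiv_apply, MvPolynomial.map_C]
    rfl
  have hσz : σ' z = z := by
    rw [hz, hσ', hσX]
  let Θ : Localization.Away z ≃+* Localization.Away z :=
    IsLocalization.ringEquivOfRingEquiv (M := Submonoid.powers z) (T := Submonoid.powers z)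
      (Localization.Away z) (Localization.Away z) σ' (by
        refine (Submonoid.map_powers _ z).trans ?_
        exact congrArg Submonoid.powers hσz)
  have hΘ : ∀ a, Θ (algebraMap _ _ a) = algebraMap _ _ (σ' a) := fun a =>
    IsLocalization.ringEquivOfRingEquiv_eq _ a
  refine of_mapEquivZ Θ m n E _ hE hsE fun E1 hE1 hs1 => ?_
  rw [hΘ, hσ'] at hs1
  -- Weierstrass preparation
  have hcpl := t_CPL r K
  set e0 : MvPowerSeries (Fin (r + 1)) K ≃+* PowerSeries (MvPowerSeries (Fin r) K) :=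
    (MvPowerSeries.finSuccEquiv K r).toRingEquiv with he0
  have hcoe : IsUnit (PowerSeries.coeff k (e0 (σ f))) := by
    rw [MvPowerSeries.isUnit_iff_constantCoeff]
    have h1 : MvPowerSeries.coeff 0 (PowerSeries.coeff k
        (MvPowerSeries.finSuccEquiv K r (σ f))) =
        MvPowerSeries.coeff ((0 : Fin r →₀ ℕ).cons k) (σ f) :=
      MvPowerSeries.coeff_coeff_finSuccEquiv _
    have h2 : (0 : Fin r →₀ ℕ).cons k = Finsupp.single 0 k := by
      ext i
      refine Fin.cases ?_ (fun j => ?_) i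
      · simp
      · simp
    rw [h2] at h1
    rw [← h1] at hk
    rw [MvPowerSeries.coeff_zero_eq_constantCoeff_apply] at hk
    exact hk
  obtain ⟨g, w, hw, hfg, hgm, -, hpat⟩ := t_WEI (MvPowerSeries (Fin r) K) (e0 (σ f))
    ⟨k, hcoe⟩
  set ι0 : (MvPowerSeries (Fin r) K)[X] →+* MvPowerSeries (Fin (r + 1)) K :=
    (e0.symm : PowerSeries (MvPowerSeries (Fin r) K) →+*
      MvPowerSeries (Fin (r + 1)) K).comp
      Polynomial.coeToPowerSeries.ringHom with hι0
  have hpat0 : AnPatch ι0 g := patch_equiv hpat e0.symm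
  have hι0C : ∀ a : K, ι0 (Polynomial.C (MvPowerSeries.C a)) =
      MvPowerSeries.C a := by
    intro a
    apply e0.injective
    rw [hι0, RingHom.comp_apply]
    show e0 (e0.symm _) = _
    rw [e0.apply_symm_apply, he0]
    show ((Polynomial.C (MvPowerSeries.C a) : (MvPowerSeries (Fin r) K)[X]) :
      PowerSeries (MvPowerSeries (Fin r) K)) =
        MvPowerSeries.finSuccEquiv K r (MvPowerSeries.C a)
    rw [MvPowerSeries.finSuccEquiv_C, Polynomial.coe_C]
  have hι0X : ι0 X = MvPowerSeries.X 0 := by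
    apply e0.injective
    rw [hι0, RingHom.comp_apply]
    show e0 (e0.symm _) = _
    rw [e0.apply_symm_apply, he0]
    show ((Polynomial.X : (MvPowerSeries (Fin r) K)[X]) :
      PowerSeries (MvPowerSeries (Fin r) K)) =
        MvPowerSeries.finSuccEquiv K r (MvPowerSeries.X 0)
    rw [MvPowerSeries.finSuccEquiv_X_zero, Polynomial.coe_X]
  have hσfg : σ f = ι0 g * e0.symm w := by
    apply e0.injective
    rw [map_mul, e0.apply_symm_apply, hι0, RingHom.comp_apply]
    show _ = e0 (e0.symm _) * w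
    rw [e0.apply_symm_apply]
    exact hfg
  have hw' : IsUnit (e0.symm w) := hw.map e0.symm
  have hne : qm (rel 1 (MvPowerSeries.C x : MvPowerSeries (Fin (r + 1)) K) (MvPowerSeries.C y))
      (MvPolynomial.C (ι0 g)) ≠ 0 := by
    intro h0
    have h1 := hDPc _ h0
    rw [h1, zero_mul] at hσfg
    exact hf.ne_zero (σ.injective (by rw [hσfg, map_zero]))
  have hD0 : IsDomain (QF (rel 1 (Polynomial.C (MvPowerSeries.C x) : (MvPowerSeries (Fin r) K)[X])
      (Polynomial.C (MvPowerSeries.C y)))) :=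
    (t_DOM _ (Polynomial.C (MvPowerSeries.C x) : (MvPowerSeries (Fin r) K)[X])
      (Polynomial.C (MvPowerSeries.C y)) hpr1 (fun h => hynx (mv_C_dvd (pol_C_dvd h))) 0).1
  refine lar_gen ι0 g hgm hpat0 (MvPowerSeries.C x) (MvPowerSeries.C y) _ _ (hι0C x) (hι0C y)
    hD0 hDP hne (afc_qf K x y hxy hx hy hxny hynx r) z (by rw [hz, hι0X]) hz0 m n E1 hE1 ?_
  apply SplitAt.of_mul (u := MvPolynomial.C (algebraMap _ (Localization.Away z)
    (qm (rel 1 (MvPowerSeries.C x) (MvPowerSeries.C y)) (MvPolynomial.C (e0.symm w)))))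
    ((((hw'.map MvPolynomial.C).map (qm _)).map (algebraMap _ (Localization.Away z))).map
      MvPolynomial.C)
  rw [← MvPolynomial.C_mul, ← map_mul, ← map_mul, ← MvPolynomial.C_mul, ← hσfg]
  exact hs1

end Pool.Agent.H9C.QR
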