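import Pool.Agent.H9C.QR.AFC
import Pool.Agent.TH874.QPS.Fwd

/-!
# Analytic isomorphisms, polynomial variables and localisation at the variable
-/

set_option autoImplicit false

open Polynomial

noncomputable section

namespace Pool.Agent.H9C.QR

open BQ Pool.Agent.H40.BP IsLocalRing Pool.Agent.W394.BQN Pool.Agent.TH874.QPS

/-- transport of analytic isomorphisms by an isomorphism of the source -/
theorem anPatch_comp {A A' R : Type} [CommRing A] [CommRing A'] [CommRing R] (ι : A →+* R)
    (g : A) (h : AnPatch ι g) (e : A' ≃+* A) (g' : A') (hg : e g' = g) :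
    AnPatch (ι.comp (e : A' →+* A)) g' := by
  subst hg
  refine ⟨h.inj.comp e.injective, h.reg, ?_, ?_⟩
  · intro r
    obtain ⟨a, c, hr⟩ := h.surj r
    refine ⟨e.symm a, c, ?_⟩
    show r = ι (e (e.symm a)) + _
    rw [e.apply_symm_apply]
    exact hr
  · intro a c hac
    obtain ⟨a', ha'⟩ := h.sat (e a) c hac
    refine ⟨e.symm a', e.injective ?_⟩
    rw [map_mul, e.apply_symm_apply]
    exact ha'

theorem idemFree_mvpoly {D : Type} [CommRing D] (h : AF D) (m : ℕ) :
    IdemFree (MvPolynomial (Fin m) D)[X] :=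
  IdemFree.of_equiv (MvPolynomial.finSuccEquiv D m).toRingEquiv (h (m + 1))

/-- patching after localisation at the variable -/
theorem loc_patch {D Q : Type} [CommRing D] [CommRing Q] (j : D[X] →+* Q) (g : D[X])
    (hg : g.Monic) (hpat : AnPatch j g) (hD : AF D) (hreg : ∀ a, j X * a = 0 → a = 0) (m n : ℕ)
    (E : Matrix (Fin n) (Fin n) (MvPolynomial (Fin m) (Localization.Away (j X))))
    (hE : E * E = E)
    (hs : SplitAt (MvPolynomial.C (algebraMap Q (Localization.Away (j X)) (j g))) E) :
    Split E := by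
  have hreg' : j X ∈ nonZeroDivisors Q := by
    rw [mem_nonZeroDivisors_iff_right]
    intro a ha
    exact hreg a (by rw [mul_comm]; exact ha)
  have hle : Submonoid.powers (j X) ≤ nonZeroDivisors Q := by
    rintro _ ⟨k, rfl⟩
    exact pow_mem hreg' k
  have hinj : Function.Injective (algebraMap Q (Localization.Away (j X))) :=
    IsLocalization.injective (Localization.Away (j X)) hle
  have h1 := t_TR D[X] Q j g hpat m
  let e : (MvPolynomial (Fin m) D)[X] ≃+* MvPolynomial (Fin m) D[X] := POL.ex (Fin m) D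
  set G : (MvPolynomial (Fin m) D)[X] := g.map MvPolynomial.C with hG
  have heG : e G = MvPolynomial.C g := BQ.G.phi_map (Fin m) D g
  have hmon : G.Monic := hg.map _
  have h2 := anPatch_comp _ _ h1 e G heG
  set ι : (MvPolynomial (Fin m) D)[X] →+* MvPolynomial (Fin m) Q :=
    (MvPolynomial.map j).comp (e : (MvPolynomial (Fin m) D)[X] →+* MvPolynomial (Fin m) D[X])
    with hι
  have hιX : ι X = MvPolynomial.C (j X) := by
    show MvPolynomial.map j (POL.ex (Fin m) D X) = _
    rw [POL.ex_X, MvPolynomial.map_C]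
  have hιG : ι G = MvPolynomial.C (j g) := by
    show MvPolynomial.map j (e G) = _
    rw [heG, MvPolynomial.map_C]
  let ρ : MvPolynomial (Fin m) Q →+* MvPolynomial (Fin m) (Localization.Away (j X)) :=
    MvPolynomial.map (algebraMap Q (Localization.Away (j X)))
  have hρ : Function.Injective ρ := MvPolynomial.map_injective _ hinj
  have hιu : IsUnit ((ρ.comp ι) X) := by
    rw [RingHom.comp_apply, hιX]
    show IsUnit (MvPolynomial.map (algebraMap Q (Localization.Away (j X))) (MvPolynomial.C (j X)))
    rw [MvPolynomial.map_C]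
    exact (IsLocalization.Away.algebraMap_isUnit (j X)).map MvPolynomial.C
  let lr : LaurentPolynomial (MvPolynomial (Fin m) D) →+*
      MvPolynomial (Fin m) (Localization.Away (j X)) :=
    IsLocalization.Away.lift (S := LaurentPolynomial (MvPolynomial (Fin m) D))
      (X : (MvPolynomial (Fin m) D)[X]) hιu
  have hlr : ∀ q : (MvPolynomial (Fin m) D)[X], lr (Polynomial.toLaurent q) = ρ (ι q) := by
    intro q
    show IsLocalization.Away.lift (S := LaurentPolynomial (MvPolynomial (Fin m) D))
      (X : (MvPolynomial (Fin m) D)[X]) hιu _ = _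
    rw [← LaurentPolynomial.algebraMap_eq_toLaurent, IsLocalization.Away.lift_eq]
    rfl
  have hpat' : AnPatch lr (Polynomial.toLaurent G) := by
    refine anPatch_loc ι G (Polynomial.toLaurent : (MvPolynomial (Fin m) D)[X] →+*
      LaurentPolynomial (MvPolynomial (Fin m) D)) ρ lr (Submonoid.powers X)
      h2 Polynomial.toLaurent_injective hρ hlr ?_ ?_ ?_
    · rintro s ⟨k, rfl⟩
      simp only [Polynomial.toLaurent_X_pow]
      exact LaurentPolynomial.isUnit_T _
    · intro z
      obtain ⟨k, a, ha⟩ := LaurentPolynomial.exists_T_pow z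
      refine ⟨X ^ k, ⟨k, rfl⟩, a, ?_⟩
      rw [Polynomial.toLaurent_X_pow, ha, mul_comm]
    · intro z
      obtain ⟨s, ⟨k, hk⟩, r, hr⟩ := mv_frac (algebraMap Q (Localization.Away (j X)))
        (Submonoid.powers (j X)) (by
          intro z
          obtain ⟨⟨r, s⟩, hrs⟩ := IsLocalization.surj (Submonoid.powers (j X)) z
          exact ⟨s, s.2, r, by rw [mul_comm]; exact hrs⟩) m z
      refine ⟨X ^ k, ⟨k, rfl⟩, r, ?_⟩
      have h3 : ι (X ^ k) = MvPolynomial.C s := by
        rw [map_pow, hιX, ← map_pow]
        congr 1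
      rw [h3]
      exact hr
  have h5 : SplitAt (lr (Polynomial.toLaurent G)) E := by
    rw [hlr, hιG]
    show SplitAt (MvPolynomial.map (algebraMap Q (Localization.Away (j X)))
      (MvPolynomial.C (j g))) E
    rw [MvPolynomial.map_C]
    exact hs
  obtain ⟨n', E', hE', ⟨N, hN⟩, himp⟩ := t_PATCH _ _ _ _ hpat' n E hE h5
  exact himp (split_laurent (idemFree_mvpoly hD m) G hmon N E' hE' hN)

/-- polynomial rings over `B[z]/(F)`, with values -/
theorem polF_val {B : Type} [CommRing B] (l : ℕ) (F : MvPolynomial (Fin l) B) :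
    ∃ e : (QF F)[X] ≃+* QF (MvPolynomial.map (Polynomial.C : B →+* B[X]) F),
      (∀ a, e (Polynomial.C (qm F a)) = qm _ (MvPolynomial.map Polynomial.C a)) ∧
      e X = qm _ (MvPolynomial.C X) := by
  have h0 : Ideal.span {MvPolynomial.map (Polynomial.C : B →+* B[X]) F} =
      Ideal.map (POL.ex (Fin l) B : (MvPolynomial (Fin l) B)[X] →+* MvPolynomial (Fin l) B[X])
        (Ideal.map Polynomial.C (Ideal.span {F})) := by
    rw [Ideal.map_span, Set.image_singleton, Ideal.map_span, Set.image_singleton]
    congr 1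
    rw [Set.singleton_eq_singleton_iff]
    exact (POL.ex_C (Fin l) B F).symm
  let e := (Ideal.polynomialQuotientEquivQuotientPolynomial (Ideal.span {F})).trans
    (Ideal.quotientEquiv _ _ (POL.ex (Fin l) B) h0)
  have he : ∀ f : (MvPolynomial (Fin l) B)[X], e (f.map (qm F)) = qm _ (POL.ex (Fin l) B f) := by
    intro f
    show Ideal.quotientEquiv _ _ (POL.ex (Fin l) B) h0
      (Ideal.polynomialQuotientEquivQuotientPolynomial (Ideal.span {F})
        (f.map (Ideal.Quotient.mk (Ideal.span {F})))) = _
    rw [Ideal.polynomialQuotientEquivQuotientPolynomial_map_mk, Ideal.quotientEquiv_mk]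
  refine ⟨e, fun a => ?_, ?_⟩
  · have h1 := he (Polynomial.C a)
    rw [Polynomial.map_C, POL.ex_C] at h1
    exact h1
  · have h1 := he X
    rw [Polynomial.map_X, POL.ex_X] at h1
    exact h1

end Pool.Agent.H9C.QR
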