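import Pool.Agent.H9C.QR.EXM

/-!
# Complete regular local rings with monomial relations: the final forms
-/

set_option autoImplicit false

open Polynomial

noncomputable section

namespace Pool.Agent.H9C.QR

open BQ Pool.Agent.H40.BP IsLocalRing Pool.Agent.W394.BQN Pool.Agent.H9C.CS Pool.Agent.H9C.DT

/-- all conclusions -/
def MonAll (R : Type) [CommRing R] [IsLocalRing R] (x y z : R) (k : ℕ) : Prop :=
  (x ∈ maximalIdeal R ∧ x ∉ maximalIdeal R ^ 2) ∧ AllFree (Localization.Away x) ∧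
    AllFree (Localization.Away (x * z)) ∧ AllFree (Localization.Away (x * y * z)) ∧
      (k = 0 → AllFree (Localization.Away (x * y)))

theorem paramT_notMem {R : Type} [CommRing R] [IsRegularLocalRing R] (r : ℕ)
    (hn : ringKrullDim R = ((r + 3 : ℕ) : WithBot ℕ∞)) (x : Fin (r + 2) → R) (t : R)
    (hx : maximalIdeal R = Ideal.span (Set.range x ∪ {t})) :
    x 0 ∈ maximalIdeal R ∧ x 0 ∉ maximalIdeal R ^ 2 :=
  param_notMem (r + 2) hn (Fin.cons t x : Fin (r + 3) → R) (by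
    rw [hx, range_cons, Set.union_singleton]) (Fin.succ 0)

theorem assoc_unit {R : Type} [CommRing R] {b c : R} (h : Associated b c) :
    ∃ v : R, IsUnit v ∧ b = v * c := by
  obtain ⟨u, hu⟩ := h
  refine ⟨(↑u⁻¹ : R), u⁻¹.isUnit, ?_⟩
  rw [← hu, mul_comm b, ← mul_assoc, Units.inv_mul, one_mul]

theorem mon_v {V : Type} [CommRing V] [IsDomain V] [IsPrincipalIdealRing V] [IsLocalRing V]
    [IsAdicComplete (maximalIdeal V) V] (π : V) (hπ : Prime π)
    (R : Type) [CommRing R] [IsRegularLocalRing R] (hc : IsAdicComplete (maximalIdeal R) R)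
    (φ : V →+* R) (hφ : Function.Surjective ((residue R).comp φ)) (r : ℕ)
    (hn : ringKrullDim R = ((r + 3 : ℕ) : WithBot ℕ∞)) (x : Fin (r + 3) → R)
    (hx : maximalIdeal R = Ideal.span (Set.range x)) (a k : ℕ)
    (h : Associated (φ π) (x 0 ^ (a + 1) * x 1 * x 2 ^ k)) : MonAll R (x 0) (x 1) (x 2) k := by
  obtain ⟨v, hv, hv'⟩ := assoc_unit h
  exact ⟨param_notMem (r + 2) hn x hx 0, trv π hπ R φ hφ r hn x hx v hv a k hv'⟩

theorem mon_w {W : Type} [CommRing W] [IsRegularLocalRing W] [IsAdicComplete (maximalIdeal W) W]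
    (hW : ringKrullDim W = 2) (u t : W) (hut : maximalIdeal W = Ideal.span {u, t})
    (R : Type) [CommRing R] [IsRegularLocalRing R] (hc : IsAdicComplete (maximalIdeal R) R)
    (φ : W →+* R) (hφ : Function.Surjective ((residue R).comp φ)) (r : ℕ)
    (hn : ringKrullDim R = ((r + 3 : ℕ) : WithBot ℕ∞)) (x : Fin (r + 2) → R)
    (hx : maximalIdeal R = Ideal.span (Set.range x ∪ {φ t})) (a k : ℕ)
    (h : Associated (φ u) (x 0 ^ (a + 1) * x 1 * φ t ^ k)) :
    MonAll R (x 0) (x 1) (φ t) k := by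
  obtain ⟨v, hv, hv'⟩ := assoc_unit h
  exact ⟨paramT_notMem r hn x _ hx, trm hW u t hut R φ hφ r hn x hx v hv a k (by
    rw [hv']
    ring)⟩

theorem mon_s (p : ℕ) (hp : p.Prime) (R : Type) [CommRing R]
    [IsRegularLocalRing R] (hc : IsAdicComplete (maximalIdeal R) R) [CharP (ResidueField R) p]
    [Fact p.Prime]
    (hperf : Function.Surjective (fun a : ResidueField R => a ^ p)) (r : ℕ)
    (hn : ringKrullDim R = ((r + 3 : ℕ) : WithBot ℕ∞)) (x : Fin (r + 2) → R) (t : R)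
    (hx : maximalIdeal R = Ideal.span (Set.range x ∪ {t})) (a k : ℕ)
    (ψ : MvPowerSeries (Fin 2) (WittVector p (ResidueField R)) →+* R)
    (hψ : Function.Surjective ((residue R).comp ψ))
    (h0 : Associated (ψ (MvPowerSeries.X 0)) (x 0 ^ (a + 1) * x 1 * t ^ k))
    (h1 : ψ (MvPowerSeries.X 1) = t)
    (g : MvPowerSeries (Fin 2) (WittVector p (ResidueField R)))
    (hg : g ∈ Ideal.span {MvPowerSeries.X 0, MvPowerSeries.X 1}) (hgp : ψ g = (p : R)) :
    MonAll R (x 0) (x 1) t k := by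
  obtain ⟨v, hv, hv'⟩ := assoc_unit h0
  exact ⟨paramT_notMem r hn x _ hx, trs p R hperf r hn x t hx a k ψ hψ v hv (by
    rw [hv']
    ring) h1 g hg hgp⟩

theorem mon_p (p : ℕ) (hp : p.Prime) (R : Type) [CommRing R]
    [IsRegularLocalRing R] (hc : IsAdicComplete (maximalIdeal R) R) [CharP (ResidueField R) p]
    (hperf : Function.Surjective (fun a : ResidueField R => a ^ p)) (r : ℕ)
    (hn : ringKrullDim R = ((r + 3 : ℕ) : WithBot ℕ∞)) (x : Fin (r + 3) → R)
    (hx : maximalIdeal R = Ideal.span (Set.range x)) (a k : ℕ)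
    (h : Associated (p : R) (x 0 ^ (a + 1) * x 1 * x 2 ^ k)) :
    MonAll R (x 0) (x 1) (x 2) k := by
  obtain ⟨V, _, _, _, _, _, _, φ, hpr, hφ⟩ := perf_coeff p hp R hperf
  exact mon_v (p : V) hpr R hc φ hφ r hn x hx a k (by rwa [map_natCast])

theorem mon_e (p : ℕ) (hp : p.Prime) (r a k : ℕ) :
    ∃ (R : Type) (_ : CommRing R) (_ : IsRegularLocalRing R) (x : Fin (r + 3) → R),
      IsAdicComplete (maximalIdeal R) R ∧ CharZero R ∧
      ringKrullDim R = ((r + 3 : ℕ) : WithBot ℕ∞) ∧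
      maximalIdeal R = Ideal.span (Set.range x) ∧
      (p : R) = x 0 ^ (a + 1) * x 1 * x 2 ^ k ∧ MonAll R (x 0) (x 1) (x 2) k := by
  have hF : Fact p.Prime := ⟨hp⟩
  have hpr : Prime (p : ℤ_[p]) := PadicInt.prime_p
  obtain ⟨R, i1, i2, x, φ, h1, h2, h3, h4, h5, h6⟩ := exm (p : ℤ_[p]) hpr r a k
  have hp' : φ (p : ℤ_[p]) = (p : R) := map_natCast φ p
  refine ⟨R, i1, i2, x, h1, ⟨fun b c hbc => ?_⟩, h3, h4, hp'.symm.trans h5,
    mon_v (p : ℤ_[p]) hpr R h1 φ h6 r h3 x h4 a k (h5 ▸ Associated.refl _)⟩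
  have h7 : φ (b : ℤ_[p]) = φ (c : ℤ_[p]) :=
    (map_natCast φ b).trans (hbc.trans (map_natCast φ c).symm)
  exact Nat.cast_injective (h2 h7)

end Pool.Agent.H9C.QR
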