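import Pool.Agent.H9C.QR.TRC

/-!
# The rings `K[[x]][[w,X]]/(x t w - u)` localised at `x a`
-/

set_option autoImplicit false

open Polynomial

noncomputable section

namespace Pool.Agent.H9C.QR

open BQ Pool.Agent.H40.BP IsLocalRing Pool.Agent.W394.BQN

open STEP HX

theorem n3_gen (h1 : S_AUTC) (h2 : S_WEI) (h3 : S_TR) (h4 : S_QUOT) (h5 : S_PATCH)
    (h6 : S_CPL) (hBC : S_BC) (hPOLR : S_POLR) (hDOM : S_DOM)
    (hA : S_AWAYQ) (hLOCS : S_LOCS)
    (W1 : Type) [CommRing W1] [IsDomain W1] [IsLocalRing W1] [IsNoetherianRing W1]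
    [IsAdicComplete (maximalIdeal W1) W1] (x1 t1 p1 a1 : W1) (r : ℕ)
    (x p a FR : MvPowerSeries (Fin (r + 1)) W1)
    (hx : x = MvPowerSeries.C x1) (hp : p = MvPowerSeries.C p1) (ha : a = MvPowerSeries.C a1)
    (hFR : FR = x * (MvPowerSeries.C t1 * MvPowerSeries.X 0) - p)
    (hq : ∀ f : MvPowerSeries (Fin (r + 1)) W1,
      f ∈ Ideal.span {x, MvPowerSeries.C t1, p} ↔ ¬ UC f)
    (hqp : (Ideal.span {x, MvPowerSeries.C t1, p}).IsPrime)
    (hxp : (Ideal.span {x, p}).IsPrime) (hxpr : Prime x) (hxndp : ¬ x ∣ p)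
    (hst0 : (MvPowerSeries.C (x1 * t1) : MvPowerSeries (Fin r) W1) ≠ 0)
    (hppr0 : Prime (MvPowerSeries.C p1 : MvPowerSeries (Fin r) W1))
    (hpndx0 : ¬ (MvPowerSeries.C p1 : MvPowerSeries (Fin r) W1) ∣ MvPowerSeries.C (x1 * t1))
    (ha0 : Ideal.Quotient.mk (Ideal.span {FR}) a ≠ 0)
    (hxa : (MvPowerSeries.C (x1 * a1) : MvPowerSeries (Fin r) W1) ≠ 0)
    (hX : AF (Localization.Away (nm (MvPowerSeries.C (x1 * t1) : MvPowerSeries (Fin r) W1)
      (MvPowerSeries.C p1) (Polynomial.C (MvPowerSeries.C (x1 * a1)))))) :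
    AF (QF (rel 1 (Ideal.Quotient.mk (Ideal.span {FR}) (x * a)) 1)) := by
  have hRd : IsDomain (MvPowerSeries (Fin (r + 1)) W1) :=
    NoZeroDivisors.to_isDomain _
  have hBd : IsDomain (MvPowerSeries (Fin r) W1) := NoZeroDivisors.to_isDomain _
  obtain ⟨hdom, Ω, _, _, _, _, φ, hφ, hfrac, hmaxΩ, hprΩ⟩ := dxl
    (MvPowerSeries (Fin (r + 1)) W1) x (MvPowerSeries.C t1)
    (MvPowerSeries.C t1 * MvPowerSeries.X 0) p _ hqp rfl hxp hxpr hxndp FR hFR
  set mk := Ideal.Quotient.mk (Ideal.span {FR}) with hmk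
  have hFq : FR ∈ Ideal.span {x, MvPowerSeries.C t1, p} := by
    rw [hFR]
    exact Ideal.sub_mem _ (Ideal.mul_mem_right _ _ (Ideal.subset_span (by simp)))
      (Ideal.subset_span (by simp))
  -- elements with a unit coefficient are not zero in the quotient
  have hmk0 : ∀ f : MvPowerSeries (Fin (r + 1)) W1, UC f → mk f ≠ 0 := by
    intro f hf h0
    have h4 : f ∈ Ideal.span {FR} := Ideal.Quotient.eq_zero_iff_mem.1 h0
    exact (hq f).1 ((Ideal.span_singleton_le_iff_mem _).2 hFq h4) hf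
  have hx00 : mk x ≠ 0 := by
    intro h0
    apply hprΩ.ne_zero
    show φ (mk x) = 0
    rw [h0, map_zero]
  have hx0 : mk (x * a) ≠ 0 := by
    rw [map_mul]
    exact mul_ne_zero hx00 ha0
  have hD := domQ1 hA _ (mk (x * a)) hx0
  obtain ⟨ψ, hψ, hψf⟩ := hBC _ Ω φ hφ ((ucS W1 (r + 1)).map mk)
    (fun z => by
      obtain ⟨f, hf, b, hb⟩ := hfrac z
      refine ⟨mk f, ⟨f, mem_ucS.2 ?_, rfl⟩, b, hb⟩
      by_contra hc
      exact hf ((hq f).2 hc)) 1 (rel 1 (mk (x * a)) 1) hD.1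
    (by
      rintro _ ⟨f, hf, rfl⟩ h0
      exact hmk0 f (mem_ucS.1 hf) (hD.2 _ h0))
  have hΩ : AF (QF (MvPolynomial.map φ (rel 1 (mk (x * a)) 1))) := by
    rw [Pool.Agent.H40.BP.map_rel, map_one]
    have h7 := (hLOCS Ω _ _ hmaxΩ hprΩ (φ (mk a)) (fun h0 => ha0 (hφ (by
      rw [map_zero]
      exact h0)))).1
    rwa [← map_mul, ← map_mul] at h7
  intro m n E hE
  -- splitting over the localisation
  let M : Submonoid (QF (rel 1 (mk (x * a)) 1)) :=
    { carrier := {z | ∃ f : MvPowerSeries (Fin (r + 1)) W1, UC f ∧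
        z = qm (rel 1 (mk (x * a)) 1) (MvPolynomial.C (mk f))}
      one_mem' := ⟨1, uc_one, by rw [map_one, MvPolynomial.C_1, map_one]⟩
      mul_mem' := by
        rintro a b ⟨f, hf, rfl⟩ ⟨g, hg, rfl⟩
        exact ⟨f * g, uc_mul hf hg, by
          rw [← map_mul (qm (rel 1 (mk (x * a)) 1)), ← MvPolynomial.C_mul, ← map_mul mk]⟩ }
  have hsp := hΩ m n (E.map (MvPolynomial.map ψ)) (map_idem hE _)
  obtain ⟨z, ⟨f, hf, hzf⟩, hsE⟩ := splitAt_of_loc ψ hψ M (by
    intro ω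
    obtain ⟨s, ⟨f, hf, hfs⟩, a, ha⟩ := hψf ω
    subst hfs
    exact ⟨_, ⟨f, mem_ucS.1 hf, rfl⟩, a, ha⟩) m E hsp
  subst hzf
  -- the automorphism
  obtain ⟨σ, k, hk, hσC, hσX⟩ := h1 r W1 f hf
  have hσF : σ FR = FR := by
    rw [hFR, map_sub, map_mul, map_mul, hσX, hx, hp, hσC, hσC, hσC]
  let σ' : MvPowerSeries (Fin (r + 1)) W1 ⧸ Ideal.span {FR} ≃+*
      MvPowerSeries (Fin (r + 1)) W1 ⧸ Ideal.span {FR} :=
    Ideal.quotientEquiv _ _ σ (by
      rw [Ideal.map_span, Set.image_singleton]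
      congr 2
      exact hσF.symm)
  have hσ' : ∀ g, σ' (mk g) = mk (σ g) := fun g => Ideal.quotientEquiv_mk _ _ _ _ g
  let Θ : QF (rel 1 (mk (x * a)) 1) ≃+* QF (rel 1 (mk (x * a)) 1) :=
    qfEquiv σ' _ _ (by
      rw [Pool.Agent.H40.BP.map_rel, map_one]
      congr 1
      show σ' (mk (x * a)) = mk (x * a)
      rw [hσ', map_mul, hx, ha, hσC, hσC])
  have hΘ : ∀ g, Θ (qm _ (MvPolynomial.C g)) = qm _ (MvPolynomial.C (σ' g)) := by
    intro g
    show Ideal.quotientEquiv _ _ _ _ (Ideal.Quotient.mk _ _) = _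
    rw [Ideal.quotientEquiv_mk]
    congr 1
    rw [MvPolynomial.mapEquiv_apply, MvPolynomial.map_C]
    rfl
  refine of_mapEquivZ Θ m n E _ hE hsE fun E1 hE1 hs1 => ?_
  rw [hΘ, hσ'] at hs1
  -- Weierstrass preparation
  have hcpl := h6 r W1
  set e0 : MvPowerSeries (Fin (r + 1)) W1 ≃+*
      PowerSeries (MvPowerSeries (Fin r) W1) :=
    (MvPowerSeries.finSuccEquiv W1 r).toRingEquiv with he0
  have hcoe : IsUnit (PowerSeries.coeff k (e0 (σ f))) := by
    rw [MvPowerSeries.isUnit_iff_constantCoeff]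
    have h1 : MvPowerSeries.coeff 0 (PowerSeries.coeff k
        (MvPowerSeries.finSuccEquiv W1 r (σ f))) =
        MvPowerSeries.coeff ((0 : Fin r →₀ ℕ).cons k) (σ f) :=
      MvPowerSeries.coeff_coeff_finSuccEquiv _
    have h2 : (0 : Fin r →₀ ℕ).cons k = Finsupp.single 0 k := by
      ext i
      refine Fin.cases ?_ (fun j => ?_) i
      · simp
      · simp
    rw [h2] at h1
    rw [← h1] at hk
    rw [MvPowerSeries.coeff_zero_eq_constantCoeff_apply] at hk
    exact hk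
  obtain ⟨g, w, hw, hfg, -, -, hpat⟩ := h2 (MvPowerSeries (Fin r) W1) (e0 (σ f))
    ⟨k, hcoe⟩
  set ι0 : (MvPowerSeries (Fin r) W1)[X] →+*
      MvPowerSeries (Fin (r + 1)) W1 :=
    (e0.symm : PowerSeries (MvPowerSeries (Fin r) W1) →+*
      MvPowerSeries (Fin (r + 1)) W1).comp
      Polynomial.coeToPowerSeries.ringHom with hι0
  have hpat0 : AnPatch ι0 g := patch_equiv hpat e0.symm
  have hι0C : ∀ a : W1, ι0 (Polynomial.C (MvPowerSeries.C a)) =
      MvPowerSeries.C a := by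
    intro a
    apply e0.injective
    rw [hι0, RingHom.comp_apply]
    show e0 (e0.symm _) = _
    rw [e0.apply_symm_apply, he0]
    show ((Polynomial.C (MvPowerSeries.C a) : (MvPowerSeries (Fin r) W1)[X]) :
      PowerSeries (MvPowerSeries (Fin r) W1)) =
        MvPowerSeries.finSuccEquiv W1 r (MvPowerSeries.C a)
    rw [MvPowerSeries.finSuccEquiv_C, Polynomial.coe_C]
  have hι0X : ι0 X = MvPowerSeries.X 0 := by
    apply e0.injective
    rw [hι0, RingHom.comp_apply]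
    show e0 (e0.symm _) = _
    rw [e0.apply_symm_apply, he0]
    show ((Polynomial.X : (MvPowerSeries (Fin r) W1)[X]) :
      PowerSeries (MvPowerSeries (Fin r) W1)) =
        MvPowerSeries.finSuccEquiv W1 r (MvPowerSeries.X 0)
    rw [MvPowerSeries.finSuccEquiv_X_zero, Polynomial.coe_X]
  have hσfg : σ f = ι0 g * e0.symm w := by
    apply e0.injective
    rw [map_mul, e0.apply_symm_apply, hι0, RingHom.comp_apply]
    show _ = e0 (e0.symm _) * w
    rw [e0.apply_symm_apply]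
    exact hfg
  have hw' : IsUnit (e0.symm w) := hw.map e0.symm
  -- the polynomial side
  obtain ⟨FB, hFB⟩ : ∃ F : (MvPowerSeries (Fin r) W1)[X],
    F = Polynomial.C (MvPowerSeries.C (x1 * t1)) * X -
      Polynomial.C (MvPowerSeries.C p1) := ⟨_, rfl⟩
  have hιF : ι0 FB = FR := by
    rw [hFB, hFR, map_sub, map_mul, hι0C, hι0C, hι0X, hx, hp, map_mul, mul_assoc]
  have hDA : IsDomain ((MvPowerSeries (Fin r) W1)[X] ⧸ Ideal.span {FB}) := by
    have hD0 := (hDOM _ (MvPowerSeries.C (x1 * t1) : MvPowerSeries (Fin r) W1)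
      (MvPowerSeries.C p1) hppr0 hpndx0 0).1
    obtain ⟨e1⟩ := hPOLR (MvPowerSeries (Fin r) W1) 0
      (MvPowerSeries.C (x1 * t1)) (MvPowerSeries.C p1)
    have e2 := e1.trans (qfZero (Polynomial.C (MvPowerSeries.C (x1 * t1)) * X :
      (MvPowerSeries (Fin r) W1)[X])
        (Polynomial.C (MvPowerSeries.C p1)))
    rw [hFB]
    exact MulEquiv.isDomain _ e2.symm.toMulEquiv
  have hprod : mk (σ f) = mk (ι0 g) * mk (e0.symm w) := by
    rw [← map_mul, ← hσfg]
  have hg1 : mk (ι0 g) ≠ 0 := by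
    intro h0
    exact hmk0 (σ f) ⟨_, hk⟩ (by rw [hprod, h0, zero_mul])
  have haA : Ideal.Quotient.mk (Ideal.span {FB})
      (Polynomial.C (MvPowerSeries.C (x1 * a1))) ≠ 0 := by
    intro h0
    have h4 := Ideal.Quotient.eq_zero_iff_mem.1 h0
    rw [hFB] at h4
    exact hxa (const_inj _ _ _ hst0 _ h4)
  have hAF : AF (QF (rel 1 (Ideal.Quotient.mk (Ideal.span {FB})
      (Polynomial.C (MvPowerSeries.C (x1 * a1)))) 1)) := by
    obtain ⟨eA, -⟩ := hA _ (Ideal.Quotient.mk (Ideal.span {FB})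
      (Polynomial.C (MvPowerSeries.C (x1 * a1))))
    refine AF.of_equiv eA.symm ?_
    rw [hFB]
    exact hX
  refine coreB h3 h4 h5 hA ι0 g hpat0 FB FR hιF hDA hdom hg1
    (Polynomial.C (MvPowerSeries.C (x1 * a1))) (x * a)
    (by rw [hι0C, hx, ha, map_mul]) haA hx0 hAF m n E1 hE1 ?_
  apply SplitAt.of_mul (u := MvPolynomial.C (qm (rel 1 (mk (x * a)) 1)
    (MvPolynomial.C (mk (e0.symm w))))) ((((hw'.map mk).map MvPolynomial.C).map (qm _)).map
      MvPolynomial.C)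
  rw [← MvPolynomial.C_mul, ← map_mul, ← MvPolynomial.C_mul, ← hprod]
  exact hs1

theorem t_N3 : S_N3 := by
  intro K _ _ _ _ _ t u hmax ht hu htu hut r a ha hAF
  have hKc : IsAdicComplete (maximalIdeal (PowerSeries K)) (PowerSeries K) := t_CPLP K
  have hKd : IsDomain (PowerSeries K) := NoZeroDivisors.to_isDomain _
  have hBd : IsDomain (MvPowerSeries (Fin r) (PowerSeries K)) := NoZeroDivisors.to_isDomain _
  have hmax' : maximalIdeal K = Ideal.span {u, t} := by rw [hmax, Set.pair_comm]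
  obtain ⟨hpu1, hfact⟩ := t_FACTX K u t hmax' hu
  obtain ⟨hq, hqp, hxp, hxpr, hppr, hxndp, hpndx⟩ := hfact (r + 1) _ _ _ rfl rfl rfl
  obtain ⟨-, -, -, hxpr0, hppr0, -, hpndx0⟩ := hfact r _ _ _ rfl rfl rfl
  have hF : tripleF t u r = MvPowerSeries.C PowerSeries.X *
      (MvPowerSeries.C (PowerSeries.C t) * MvPowerSeries.X 0) -
        MvPowerSeries.C (PowerSeries.C u) := by
    rw [tripleF, map_mul, mul_assoc]
  have hCne : ∀ c : K, c ≠ 0 →
      (MvPowerSeries.C (PowerSeries.X * PowerSeries.C c) :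
        MvPowerSeries (Fin r) (PowerSeries K)) ≠ 0 := by
    intro c hc h0
    rw [map_mul] at h0
    rcases mul_eq_zero.1 h0 with h1 | h1
    · exact hxpr0.ne_zero h1
    · have h2 := congrArg MvPowerSeries.constantCoeff h1
      rw [MvPowerSeries.constantCoeff_C, map_zero] at h2
      have h3 := congrArg PowerSeries.constantCoeff h2
      rw [PowerSeries.constantCoeff_C, map_zero] at h3
      exact hc h3
  have key := n3_gen t_AUTC t_WEI t_TR t_QUOT t_PATCH t_CPL t_BC t_POLR t_DOM t_AWAYQ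
    c_LOCS (PowerSeries K) PowerSeries.X (PowerSeries.C t) (PowerSeries.C u) (PowerSeries.C a) r
    _ _ _ (tripleF t u r) rfl rfl rfl hF hq hqp hxp hxpr hxndp (hCne t ht.ne_zero) hppr0 ?_
    (trc_inj K t u hu hut r a ha) (hCne a ha) hAF
  · obtain ⟨eA, -⟩ := t_AWAYQ _ (tm t u r (MvPowerSeries.C PowerSeries.X *
      MvPowerSeries.C (PowerSeries.C a)))
    have key2 := key.of_equiv eA
    rwa [← map_mul] at key2
  · intro h
    rw [map_mul] at h
    rcases hppr0.dvd_or_dvd h with h1 | h1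
    · exact hpndx0 h1
    · obtain ⟨c, hc⟩ := h1
      have h2 := congrArg MvPowerSeries.constantCoeff hc
      rw [MvPowerSeries.constantCoeff_C, map_mul, MvPowerSeries.constantCoeff_C] at h2
      have h3 := congrArg PowerSeries.constantCoeff h2
      rw [PowerSeries.constantCoeff_C, map_mul, PowerSeries.constantCoeff_C] at h3
      exact hut ⟨_, h3⟩

end Pool.Agent.H9C.QR
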