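import Pool.Agent.Q162.DT.REGSW
import Pool.Agent.Q162.DT.COHW

/-!
# The rings `W[[X_0,...,X_n]]/(G - u)`, `G` without constant term: regularity and presentations
-/

set_option autoImplicit false

noncomputable section

namespace Pool.Agent.H9C.QR

open BQ Pool.Agent.W394.BQN Pool.Agent.H40.BP Pool.Agent.H9C.CS
open IsLocalRing
open Pool.Agent.H40.BP.REG3 (dim_mv)
open Pool.Agent.Q211.CS (mem_vars exists_ev)
open Pool.Agent.Q162.DT (nonunit_of_constW maxSW u_ne_zero)
open nonZeroDivisors

theorem regg (W : Type) [CommRing W] [IsRegularLocalRing W] (hW : ringKrullDim W = 2) (u t : W)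
    (hut : maximalIdeal W = Ideal.span {u, t}) (n : ℕ) (G : MvPowerSeries (Fin (n + 1)) W)
    (hG : MvPowerSeries.constantCoeff G = 0) :
    IsRegularLocalRing (MvPowerSeries (Fin (n + 1)) W ⧸ Ideal.span {G - MvPowerSeries.C u}) ∧
    ringKrullDim (MvPowerSeries (Fin (n + 1)) W ⧸ Ideal.span {G - MvPowerSeries.C u}) =
      ((n + 2 : ℕ) : WithBot ℕ∞) := by
  have hWd : IsDomain W := Pool.Agent.H379R3.isDomain _
  have hum : u ∈ maximalIdeal W := by
    rw [hut]
    exact Ideal.subset_span (Or.inl rfl)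
  have htm : t ∈ maximalIdeal W := by
    rw [hut]
    exact Ideal.subset_span (Or.inr rfl)
  have hu0 : u ≠ 0 := u_ne_zero hW u t hut
  obtain ⟨F, hF⟩ : ∃ F : MvPowerSeries (Fin (n + 1)) W, F = G - MvPowerSeries.C u := ⟨_, rfl⟩
  rw [← hF]
  have hconst : MvPowerSeries.constantCoeff F = -u := by
    rw [hF, map_sub, MvPowerSeries.constantCoeff_C, hG, zero_sub]
  have hFm : F ∈ maximalIdeal (MvPowerSeries (Fin (n + 1)) W) := by
    apply nonunit_of_constW
    rw [hconst]
    intro hu
    exact (mem_nonunits_iff.1 ((mem_maximalIdeal _).1 hum)) (by simpa using hu.neg)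
  have hFne : F ≠ 0 := by
    intro h
    rw [h, map_zero] at hconst
    exact hu0 (by simpa using hconst.symm)
  have hdimS : ringKrullDim (MvPowerSeries (Fin (n + 1)) W) = ((2 + (n + 1) : ℕ) : WithBot ℕ∞) :=
    dim_mv (n + 1) 2 W hW
  have hdomS : IsDomain (MvPowerSeries (Fin (n + 1)) W) := NoZeroDivisors.to_isDomain _
  have hF0 : F ∈ (MvPowerSeries (Fin (n + 1)) W)⁰ := mem_nonZeroDivisors_of_ne_zero hFne
  have hnt : Nontrivial (MvPowerSeries (Fin (n + 1)) W ⧸ Ideal.span {F}) := by
    rw [Ideal.Quotient.nontrivial_iff]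
    intro h
    rw [Ideal.span_singleton_eq_top] at h
    exact (mem_nonunits_iff.1 ((mem_maximalIdeal _).1 hFm)) h
  have hloc : IsLocalRing (MvPowerSeries (Fin (n + 1)) W ⧸ Ideal.span {F}) :=
    IsLocalRing.of_surjective' (Ideal.Quotient.mk (Ideal.span {F})) Ideal.Quotient.mk_surjective
  have hdim : ringKrullDim (MvPowerSeries (Fin (n + 1)) W ⧸ Ideal.span {F}) =
      ((n + 2 : ℕ) : WithBot ℕ∞) := by
    have h1 := ringKrullDim_quotient_span_singleton_succ_eq_ringKrullDim_of_mem_nonZeroDivisors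
      hF0 hFm
    rw [hdimS] at h1
    have h2 : ((2 + (n + 1) : ℕ) : WithBot ℕ∞) = ((n + 2 : ℕ) : WithBot ℕ∞) + 1 := by
      have : 2 + (n + 1) = (n + 2) + 1 := by ring
      rw [this]
      push_cast
      rfl
    rw [h2] at h1
    exact ENat.WithBot.add_one_cancel.1 h1
  refine ⟨?_, hdim⟩
  let q := Ideal.Quotient.mk (Ideal.span {F})
  have hqs : Function.Surjective q := Ideal.Quotient.mk_surjective
  let v : Fin (n + 2) → MvPowerSeries (Fin (n + 1)) W ⧸ Ideal.span {F} :=
    Fin.cons (q (MvPowerSeries.C t)) (fun i => q (MvPowerSeries.X i))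
  have hmax2 : maximalIdeal (MvPowerSeries (Fin (n + 1)) W ⧸ Ideal.span {F}) =
      Ideal.span (Set.range v) := by
    rw [← IsLocalRing.map_maximalIdeal_of_surjective q hqs, maxSW u t hut, Ideal.map_span]
    apply le_antisymm
    · rw [Ideal.span_le]
      rintro _ ⟨_, (⟨i, rfl⟩ | rfl | rfl), rfl⟩
      · exact Ideal.subset_span ⟨i.succ, Fin.cons_succ _ _ _⟩
      · have h2 : q (MvPowerSeries.C u) = q G := by
          have h3 : q F = 0 := Ideal.Quotient.eq_zero_iff_mem.2 (Ideal.mem_span_singleton_self F)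
          have h4 : q G - q (MvPowerSeries.C u) = 0 := by
            rw [← map_sub, ← hF]
            exact h3
          exact (sub_eq_zero.1 h4).symm
        change q (MvPowerSeries.C u) ∈ _
        rw [h2]
        have h5 := mem_vars W (n + 1) G
        rw [hG, map_zero, sub_zero] at h5
        have h6 := Ideal.mem_map_of_mem q h5
        rw [Ideal.map_span] at h6
        refine (Ideal.span_le.2 ?_) h6
        rintro _ ⟨_, ⟨i, rfl⟩, rfl⟩
        exact Ideal.subset_span ⟨i.succ, Fin.cons_succ _ _ _⟩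
      · exact Ideal.subset_span ⟨0, Fin.cons_zero _ _⟩
    · rw [Ideal.span_le]
      rintro _ ⟨i, rfl⟩
      refine Fin.cases ?_ (fun j => ?_) i
      · have h7 : v 0 = q (MvPowerSeries.C t) := Fin.cons_zero _ _
        rw [h7]
        exact Ideal.subset_span ⟨_, Or.inr (Or.inr rfl), rfl⟩
      · have h7 : v j.succ = q (MvPowerSeries.X j) := Fin.cons_succ _ _ _
        rw [h7]
        exact Ideal.subset_span ⟨_, Or.inl ⟨j, rfl⟩, rfl⟩
  refine IsRegularLocalRing.of_spanFinrank_maximalIdeal_le _ ?_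
  rw [hdim, hmax2]
  have h1 := Submodule.spanFinrank_span_le_ncard_of_finite
    (R := MvPowerSeries (Fin (n + 1)) W ⧸ Ideal.span {F}) (Set.finite_range v)
  have h2 : (Set.range v).ncard ≤ n + 2 := by
    rw [← Set.image_univ]
    refine (Set.ncard_image_le Set.finite_univ).trans ?_
    rw [Set.ncard_univ, Nat.card_eq_fintype_card, Fintype.card_fin]
  exact_mod_cast h1.trans h2

/-- complete regular local rings over `W` with a relation `u = G(x)` -/
theorem cohg (W : Type) [CommRing W] [IsRegularLocalRing W] [IsAdicComplete (maximalIdeal W) W]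
    (hW : ringKrullDim W = 2) (u t : W) (hut : maximalIdeal W = Ideal.span {u, t})
    (R : Type) [CommRing R] [IsRegularLocalRing R] [IsAdicComplete (maximalIdeal R) R]
    (φ : W →+* R) (hφ : Function.Surjective ((residue R).comp φ)) (n : ℕ)
    (hdim : ringKrullDim R = ((n + 2 : ℕ) : WithBot ℕ∞)) (x : Fin (n + 1) → R)
    (hx : maximalIdeal R = Ideal.span (Set.range x ∪ {φ t})) (i j : Fin (n + 1))
    (hux : φ u = φ t * (x i * x j)) :
    ∃ e : (MvPowerSeries (Fin (n + 1)) W ⧸ Ideal.span {(MvPowerSeries.C t *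
        (MvPowerSeries.X i * MvPowerSeries.X j) - MvPowerSeries.C u :
          MvPowerSeries (Fin (n + 1)) W)}) ≃+* R,
      (∀ i, e (Ideal.Quotient.mk _ (MvPowerSeries.X i)) = x i) ∧
      ∀ w, e (Ideal.Quotient.mk _ (MvPowerSeries.C w)) = φ w := by
  have hum : u ∈ maximalIdeal W := by
    rw [hut]
    exact Ideal.subset_span (Or.inl rfl)
  have hxm : ∀ i, x i ∈ maximalIdeal R := fun i => by
    rw [hx]
    exact Ideal.subset_span (Or.inl ⟨i, rfl⟩)
  have htR : φ t ∈ maximalIdeal R := by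
    rw [hx]
    exact Ideal.subset_span (Or.inr rfl)
  obtain ⟨ev, hevC, hevX⟩ := exists_ev (maximalIdeal R) φ x hxm
  obtain ⟨hreg, hdim'⟩ := regg W hW u t hut n (MvPowerSeries.C t *
        (MvPowerSeries.X i * MvPowerSeries.X j)) (by
    rw [map_mul, map_mul, MvPowerSeries.constantCoeff_X, zero_mul, mul_zero])
  have hmax := maxSW u t hut (n + 1)
  have hprodm : φ t * (x i * x j) ∈ maximalIdeal R := Ideal.mul_mem_right _ _ htR
  -- the image of the maximal ideal
  have hmap : Ideal.map ev (maximalIdeal (MvPowerSeries (Fin (n + 1)) W)) = maximalIdeal R := by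
    rw [hmax, Ideal.map_span]
    apply le_antisymm
    · rw [Ideal.span_le]
      rintro _ ⟨y, hy, rfl⟩
      rcases hy with ⟨i, rfl⟩ | hy | hy
      · rw [SetLike.mem_coe, hevX]
        exact hxm i
      · rw [hy, SetLike.mem_coe, hevC, hux]
        exact hprodm
      · rw [Set.mem_singleton_iff] at hy
        rw [hy, SetLike.mem_coe, hevC]
        exact htR
    · rw [hx, Ideal.span_le]
      rintro _ (⟨i, rfl⟩ | hy)
      · exact Ideal.subset_span ⟨MvPowerSeries.X i, Or.inl ⟨i, rfl⟩, hevX i⟩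
      · rw [Set.mem_singleton_iff] at hy
        rw [hy]
        exact Ideal.subset_span ⟨MvPowerSeries.C t, Or.inr (Or.inr rfl), hevC t⟩
  have hcpl : IsAdicComplete (maximalIdeal (MvPowerSeries (Fin (n + 1)) W))
    (MvPowerSeries (Fin (n + 1)) W) := t_CPL (n + 1) W
  have hsurj : Function.Surjective ev := by
    have : IsHausdorff (Ideal.map ev (maximalIdeal (MvPowerSeries (Fin (n + 1)) W))) R := by
      rw [hmap]
      infer_instance
    refine surjective_of_mk_map_comp_surjective ev
      (I := maximalIdeal (MvPowerSeries (Fin (n + 1)) W)) ?_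
    rw [hmap]
    intro r
    obtain ⟨v, hv⟩ := hφ r
    refine ⟨MvPowerSeries.C v, ?_⟩
    rw [RingHom.comp_apply, hevC]
    exact hv
  -- the kernel
  have hF : ev (MvPowerSeries.C t * (MvPowerSeries.X i * MvPowerSeries.X j) -
      MvPowerSeries.C u) = 0 := by
    rw [map_sub, map_mul, map_mul, hevC, hevX, hevX, hevC, hux, sub_self]
  let f : (MvPowerSeries (Fin (n + 1)) W ⧸
      Ideal.span {(MvPowerSeries.C t * (MvPowerSeries.X i * MvPowerSeries.X j) -
      MvPowerSeries.C u : MvPowerSeries (Fin (n + 1)) W)}) →+* R :=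
    Ideal.Quotient.lift _ ev (fun a ha => by
      obtain ⟨b, rfl⟩ := Ideal.mem_span_singleton.1 ha
      rw [map_mul, hF, zero_mul])
  have hfmk : ∀ a, f (Ideal.Quotient.mk _ a) = ev a := fun a => Ideal.Quotient.lift_mk _ _ _
  have hfs : Function.Surjective f := fun r => by
    obtain ⟨a, ha⟩ := hsurj r
    exact ⟨Ideal.Quotient.mk _ a, (hfmk a).trans ha⟩
  have hdom : IsDomain (MvPowerSeries (Fin (n + 1)) W ⧸
      Ideal.span {(MvPowerSeries.C t * (MvPowerSeries.X i * MvPowerSeries.X j) -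
      MvPowerSeries.C u : MvPowerSeries (Fin (n + 1)) W)}) :=
    Pool.Agent.H379R3.isDomain _
  have hfi : Function.Injective f := by
    rw [injective_iff_map_eq_zero]
    intro r hr
    by_contra hr0
    have h3 := ringKrullDim_succ_le_of_surjective f hfs (mem_nonZeroDivisors_of_ne_zero hr0) hr
    rw [hdim, hdim'] at h3
    have h4 : ((n + 2 + 1 : ℕ) : WithBot ℕ∞) ≤ ((n + 2 : ℕ) : WithBot ℕ∞) := by
      exact_mod_cast h3
    have h5 : n + 2 + 1 ≤ n + 2 := by exact_mod_cast h4
    omega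
  refine ⟨RingEquiv.ofBijective f ⟨hfi, hfs⟩, fun i => ?_, fun v => ?_⟩
  · exact (hfmk _).trans (hevX i)
  · exact (hfmk _).trans (hevC v)

end Pool.Agent.H9C.QR
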