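import Pool.Agent.H40.BP.Asm7
import Pool.Agent.TH874.QPS.Gen

/-!
# Localisations of `V[[X_0,...,X_n]]/(X_0 X_1 X_2 - π)`: statements of the parts
-/

set_option autoImplicit false

open Polynomial

noncomputable section

namespace Pool.Agent.H9C.QR

open BQ Pool.Agent.H40.BP IsLocalRing

/-- the polynomial `s w - u` in `w` -/
def nodeP {B : Type} [CommRing B] (s u : B) : B[X] := Polynomial.C s * X - Polynomial.C u

/-- the ring `B[w]/(s w - u)` -/
abbrev NodeP {B : Type} [CommRing B] (s u : B) : Type := B[X] ⧸ Ideal.span {nodeP s u}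

/-- the projection -/
abbrev nm {B : Type} [CommRing B] (s u : B) : B[X] →+* NodeP s u :=
  Ideal.Quotient.mk (Ideal.span {nodeP s u})

/-- the power series `x t w - u`, where `x` is the variable of `K[[x]]` and `w` the variable `X 0`
of `K[[x]][[X_0,...,X_r]]` -/
def tripleF {K : Type} [CommRing K] (t u : K) (r : ℕ) : MvPowerSeries (Fin (r + 1)) (PowerSeries K) :=
  MvPowerSeries.C (PowerSeries.X * PowerSeries.C t) * MvPowerSeries.X 0 -
    MvPowerSeries.C (PowerSeries.C u)

/-- the ring `K[[x]][[w,X_1,...,X_r]]/(x t w - u)` -/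
abbrev Triple {K : Type} [CommRing K] (t u : K) (r : ℕ) : Type :=
  MvPowerSeries (Fin (r + 1)) (PowerSeries K) ⧸ Ideal.span {tripleF t u r}

/-- the projection -/
abbrev tm {K : Type} [CommRing K] (t u : K) (r : ℕ) :
    MvPowerSeries (Fin (r + 1)) (PowerSeries K) →+* Triple t u r :=
  Ideal.Quotient.mk (Ideal.span {tripleF t u r})

/-- AFC: the rings `K[[X_1,...,X_r]][w]/(x w - y)` -/
def S_AFC : Prop := ∀ (K : Type) [CommRing K] [IsDomain K] [IsLocalRing K] [IsNoetherianRing K]
  [IsAdicComplete (maximalIdeal K) K] (x y : K), maximalIdeal K = Ideal.span {x, y} →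
  Prime x → Prime y → ¬ x ∣ y → ¬ y ∣ x → ∀ r : ℕ,
    AF (NodeP (MvPowerSeries.C x : MvPowerSeries (Fin r) K) (MvPowerSeries.C y))

/-- LAR: the rings `K[[X_0,...,X_r]][w]/(x w - y)` localised at `X_0` -/
def S_LAR : Prop := ∀ (K : Type) [CommRing K] [IsDomain K] [IsLocalRing K] [IsNoetherianRing K]
  [IsAdicComplete (maximalIdeal K) K] (x y : K), maximalIdeal K = Ideal.span {x, y} →
  Prime x → Prime y → ¬ x ∣ y → ¬ y ∣ x → ∀ r : ℕ,
    AF (Localization.Away (nm (MvPowerSeries.C x : MvPowerSeries (Fin (r + 1)) K)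
      (MvPowerSeries.C y) (Polynomial.C (MvPowerSeries.X 0))))

/-- TRC: `K` embeds into `K[[x]][[w,X]]/(x t w - u)`, which is a domain -/
def S_TRC : Prop := ∀ (K : Type) [CommRing K] [IsDomain K] [IsLocalRing K] [IsNoetherianRing K]
  (t u : K), maximalIdeal K = Ideal.span {t, u} → Prime t → Prime u → ¬ t ∣ u → ¬ u ∣ t →
  ∀ r : ℕ, IsDomain (Triple t u r) ∧
    ∀ a : K, a ≠ 0 → tm t u r (MvPowerSeries.C (PowerSeries.C a)) ≠ 0

/-- N3: the rings `K[[x]][[w,X]]/(x t w - u)` localised at `x a`, `a` in `K` -/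
def S_N3 : Prop := ∀ (K : Type) [CommRing K] [IsDomain K] [IsLocalRing K] [IsNoetherianRing K]
  [IsAdicComplete (maximalIdeal K) K] (t u : K), maximalIdeal K = Ideal.span {t, u} →
  Prime t → Prime u → ¬ t ∣ u → ¬ u ∣ t → ∀ (r : ℕ) (a : K), a ≠ 0 →
    AF (Localization.Away (nm
      (MvPowerSeries.C (PowerSeries.X * PowerSeries.C t) : MvPowerSeries (Fin r) (PowerSeries K))
      (MvPowerSeries.C (PowerSeries.C u))
      (Polynomial.C (MvPowerSeries.C (PowerSeries.X * PowerSeries.C a))))) →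
    AF (Localization.Away (tm t u r (MvPowerSeries.C (PowerSeries.X * PowerSeries.C a))))

/-- ABX: a factor of `s` which is inverted can be absorbed in `w` -/
def S_ABX : Prop := ∀ (B : Type) [CommRing B] [IsDomain B] (x s u : B), x ≠ 0 → s ≠ 0 →
  Prime u → ¬ u ∣ x * s → ∃ e : Localization.Away (nm s u (Polynomial.C x)) ≃+*
    Localization.Away (nm (x * s) u (Polynomial.C x)),
    ∀ b : B, e (algebraMap _ _ (nm s u (Polynomial.C b))) =
      algebraMap _ _ (nm (x * s) u (Polynomial.C b))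

/-- INV: if `s` is inverted nothing remains of `w` -/
def S_INV : Prop := ∀ (B : Type) [CommRing B] [IsDomain B] (s u a : B), s ≠ 0 →
  Nonempty (Localization.Away (s * a) ≃+* Localization.Away (nm s u (Polynomial.C (s * a))))

end Pool.Agent.H9C.QR
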