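import Pool.Agent.H9C.QR.Stm3

/-!
# `K` embeds into `K[[x]][[w,X]]/(x t w - u)`
-/

set_option autoImplicit false

open Polynomial

noncomputable section

namespace Pool.Agent.H9C.QR

open BQ Pool.Agent.H40.BP IsLocalRing

theorem trc_inj (K : Type) [CommRing K] [IsDomain K] [IsLocalRing K] [IsNoetherianRing K]
    (t u : K) (hu : Prime u) (hut : ¬ u ∣ t) (r : ℕ) (a0 : K) (ha0 : a0 ≠ 0) :
    tm t u r (MvPowerSeries.C (PowerSeries.C a0)) ≠ 0 := by
  intro h0
  have h1 := Ideal.Quotient.eq_zero_iff_mem.1 h0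
  rw [Ideal.mem_span_singleton] at h1
  obtain ⟨b, hb⟩ := h1
  rw [tripleF] at hb
  have e0 : a0 = -(u * PowerSeries.coeff 0 (MvPowerSeries.coeff (Finsupp.single 0 0) b)) := by
    have h2 := congrArg MvPowerSeries.constantCoeff hb
    rw [MvPowerSeries.constantCoeff_C, map_mul, map_sub, map_mul, MvPowerSeries.constantCoeff_C,
      MvPowerSeries.constantCoeff_C, MvPowerSeries.constantCoeff_X, mul_zero, zero_sub] at h2
    have h3 := congrArg (PowerSeries.coeff 0) h2
    rw [PowerSeries.coeff_zero_C, neg_mul, map_neg, PowerSeries.coeff_C_mul] at h3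
    rw [Finsupp.single_zero, MvPowerSeries.coeff_zero_eq_constantCoeff_apply]
    exact h3
  have e1 : ∀ n : ℕ, t * PowerSeries.coeff n (MvPowerSeries.coeff (Finsupp.single 0 n) b) =
      u * PowerSeries.coeff (n + 1) (MvPowerSeries.coeff (Finsupp.single 0 (n + 1)) b) := by
    intro n
    have h2 := congrArg (MvPowerSeries.coeff (Finsupp.single 0 (n + 1))) hb
    have h3 : MvPowerSeries.coeff (Finsupp.single (0 : Fin (r + 1)) (n + 1))
        (MvPowerSeries.C (PowerSeries.C a0) : MvPowerSeries (Fin (r + 1)) (PowerSeries K)) = 0 := by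
      classical
      rw [MvPowerSeries.coeff_C, if_neg]
      intro h
      rw [Finsupp.single_eq_zero] at h
      exact Nat.succ_ne_zero n h
    have h4 : MvPowerSeries.coeff (Finsupp.single (0 : Fin (r + 1)) (n + 1))
        ((MvPowerSeries.X 0 : MvPowerSeries (Fin (r + 1)) (PowerSeries K)) * b) =
        MvPowerSeries.coeff (Finsupp.single 0 n) b := by
      have h5 := MvPowerSeries.coeff_add_monomial_mul (Finsupp.single (0 : Fin (r + 1)) 1)
        (Finsupp.single (0 : Fin (r + 1)) n) b (1 : PowerSeries K)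
      rw [one_mul, ← Finsupp.single_add, add_comm 1 n] at h5
      exact h5
    rw [h3, sub_mul, map_sub, mul_assoc, MvPowerSeries.coeff_C_mul, MvPowerSeries.coeff_C_mul,
      h4, mul_assoc] at h2
    have h6 := congrArg (PowerSeries.coeff (n + 1)) h2
    rw [map_zero, map_sub, PowerSeries.coeff_succ_X_mul, PowerSeries.coeff_C_mul,
      PowerSeries.coeff_C_mul] at h6
    exact sub_eq_zero.1 h6.symm
  have e2 : ∀ n : ℕ, a0 * t ^ n = u ^ (n + 1) *
      (-PowerSeries.coeff n (MvPowerSeries.coeff (Finsupp.single 0 n) b)) := by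
    intro n
    induction n with
    | zero => rw [pow_one, pow_zero, mul_one, mul_neg]; exact e0
    | succ n ih => 
      rw [pow_succ, ← mul_assoc, ih, mul_assoc, neg_mul, mul_comm _ t, e1 n]
      ring
  apply ha0
  have h7 : a0 ∈ ⨅ i : ℕ, maximalIdeal K ^ i := by
    rw [Ideal.mem_iInf]
    intro i
    obtain ⟨c, hc⟩ := hu.pow_dvd_of_dvd_mul_right (i + 1) (b := t ^ i) (a := a0)
      (fun h => hut (hu.dvd_of_dvd_pow h)) ⟨_, e2 i⟩
    rw [hc, pow_succ, mul_assoc]
    exact Ideal.mul_mem_right _ _ (Ideal.pow_mem_pow ((mem_maximalIdeal _).2 hu.not_isUnit) i)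
  rw [Ideal.iInf_pow_eq_bot_of_isLocalRing _ (maximalIdeal.isMaximal K).ne_top] at h7
  exact h7

end Pool.Agent.H9C.QR
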