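import Pool.Agent.H9C.QR.N3
import Pool.Agent.H9C.QR.Basic
import Pool.Agent.H40.BP.FACT

/-!
# The rings `V[[X_0,...,X_n]]/(X_0 X_1 X_2 - π)` and their localisations
-/

set_option autoImplicit false

open Polynomial

noncomputable section

namespace Pool.Agent.H9C.QR

open BQ Pool.Agent.H40.BP IsLocalRing Pool.Agent.W394.BQN Pool.Agent.H9C.CS

/-- localisations at elements with the same radical -/
theorem away_congr {R : Type} [CommRing R] (s s' : R) (h1 : ∃ n, s ∣ s' ^ n)
    (h2 : ∃ m, s' ∣ s ^ m) : Nonempty (Localization.Away s ≃+* Localization.Away s') := by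
  have u1 : IsUnit (algebraMap R (Localization.Away s') s) := by
    obtain ⟨n, c, hc⟩ := h1
    have h3 : IsUnit (algebraMap R (Localization.Away s') (s' ^ n)) := by
      rw [map_pow]
      exact (IsLocalization.Away.algebraMap_isUnit s').pow n
    rw [hc, map_mul] at h3
    exact isUnit_of_mul_isUnit_left h3
  have u2 : IsUnit (algebraMap R (Localization.Away s) s') := by
    obtain ⟨n, c, hc⟩ := h2
    have h3 : IsUnit (algebraMap R (Localization.Away s) (s ^ n)) := by
      rw [map_pow]
      exact (IsLocalization.Away.algebraMap_isUnit s).pow n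
    rw [hc, map_mul] at h3
    exact isUnit_of_mul_isUnit_left h3
  let f : Localization.Away s →+* Localization.Away s' := IsLocalization.Away.lift s u1
  let g : Localization.Away s' →+* Localization.Away s := IsLocalization.Away.lift s' u2
  have hf : ∀ a, f (algebraMap R _ a) = algebraMap R _ a := fun a => IsLocalization.Away.lift_eq s u1 a
  have hg : ∀ a, g (algebraMap R _ a) = algebraMap R _ a := fun a => IsLocalization.Away.lift_eq s' u2 a
  refine ⟨RingEquiv.ofRingHom f g ?_ ?_⟩
  · apply IsLocalization.ringHom_ext (Submonoid.powers s')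
    ext a
    simp only [RingHom.comp_apply, RingHom.id_apply, hf, hg]
  · apply IsLocalization.ringHom_ext (Submonoid.powers s)
    ext a
    simp only [RingHom.comp_apply, RingHom.id_apply, hf, hg]

theorem AF.away_congr {R : Type} [CommRing R] {s s' : R} (h1 : ∃ n, s ∣ s' ^ n)
    (h2 : ∃ m, s' ∣ s ^ m) (h : AF (Localization.Away s)) : AF (Localization.Away s') := by
  obtain ⟨e⟩ := Pool.Agent.H9C.QR.away_congr s s' h1 h2
  exact AF.of_equiv e h

/-- the set `{0, 1, 2}` -/
def J3 (r : ℕ) : Finset (Fin (r + 3)) := {0, 1, 2}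

theorem prod_J3 {R : Type} [CommRing R] (r : ℕ) (x : Fin (r + 3) → R) :
    ∏ i ∈ J3 r, x i = x 0 * x 1 * x 2 := by
  have hv : ((2 : Fin (r + 3)) : ℕ) = 2 := rfl
  have h01 : (0 : Fin (r + 3)) ≠ 1 := by simp [Fin.ext_iff]
  have h02 : (0 : Fin (r + 3)) ≠ 2 := by
    intro h
    have h5 := congrArg Fin.val h
    rw [hv] at h5
    exact absurd h5 (by simp)
  have h12 : (1 : Fin (r + 3)) ≠ 2 := by
    intro h
    have h5 := congrArg Fin.val h
    rw [hv] at h5
    exact absurd h5 (by simp)
  rw [J3, Finset.prod_insert (by simp [h01, h02]), Finset.prod_insert (by simp [h12]),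
    Finset.prod_singleton, mul_assoc]

theorem J3_nonempty (r : ℕ) : (J3 r).Nonempty := ⟨0, by simp [J3]⟩

/-- the parameters of `V[[y]]` -/
theorem k_data (V : Type) [CommRing V] [IsDomain V] [IsPrincipalIdealRing V] [IsLocalRing V]
    (π : V) (hπ : Prime π) :
    maximalIdeal (PowerSeries V) = Ideal.span {PowerSeries.X, PowerSeries.C π} ∧
    Prime (PowerSeries.X : PowerSeries V) ∧ Prime (PowerSeries.C π : PowerSeries V) ∧
    ¬ (PowerSeries.X : PowerSeries V) ∣ PowerSeries.C π ∧
    ¬ (PowerSeries.C π : PowerSeries V) ∣ PowerSeries.X := by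
  obtain ⟨h1, h2, h3, h4, -⟩ := t_FACT V π hπ
  refine ⟨h1, h2, h3, ?_, ?_⟩
  · rw [PowerSeries.X_dvd_iff, PowerSeries.constantCoeff_C]
    exact hπ.ne_zero
  · intro h
    have h5 := h4 _ h 1
    rw [PowerSeries.coeff_one_X] at h5
    exact hπ.not_isUnit (isUnit_of_dvd_one h5)

/-- the presentation over `V[[y]]` -/
theorem tri_equiv (V : Type) [CommRing V] (π : V) (r : ℕ) :
    ∃ e : Triple (PowerSeries.X : PowerSeries V) (PowerSeries.C π) r ≃+* CSR V π (J3 r),
      e (tm _ _ r (MvPowerSeries.C (PowerSeries.C PowerSeries.X))) =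
        QuotBy.mk (csrRel π (J3 r)) (MvPowerSeries.X 0) ∧
      e (tm _ _ r (MvPowerSeries.C PowerSeries.X)) =
        QuotBy.mk (csrRel π (J3 r)) (MvPowerSeries.X 1) ∧
      ∀ c : V, e (tm _ _ r (MvPowerSeries.C (PowerSeries.C (PowerSeries.C c)))) =
        QuotBy.mk (csrRel π (J3 r)) (MvPowerSeries.C c) := by
  obtain ⟨e1, a1, b1, c1⟩ := t_SW (r + 1) (PowerSeries V)
  obtain ⟨e2, a2, b2, c2⟩ := t_SW (r + 2) V
  have hF : e2 (e1 (tripleF (PowerSeries.X : PowerSeries V) (PowerSeries.C π) r)) =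
      csrRel π (J3 r) := by
    rw [tripleF, csrRel, prod_J3, map_mul, map_sub, map_sub, map_mul, map_mul, map_mul, map_mul,
      b1, a1, a1, c1, b2, a2, c2, c2]
    have h3 : (Fin.succ (0 : Fin (r + 2))) = (1 : Fin (r + 3)) := rfl
    have h4 : (Fin.succ (Fin.succ (0 : Fin (r + 1)))) = (2 : Fin (r + 3)) := by
      apply Fin.ext
      rfl
    rw [h3, h4, mul_comm (MvPowerSeries.X 1 : MvPowerSeries (Fin (r + 3)) V)]
  let e : Triple (PowerSeries.X : PowerSeries V) (PowerSeries.C π) r ≃+* CSR V π (J3 r) :=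
    Ideal.quotientEquiv _ _ (e1.trans e2) (by
      rw [Ideal.map_span, Set.image_singleton]
      congr 2
      exact hF.symm)
  have he : ∀ g, e (tm _ _ r g) = QuotBy.mk (csrRel π (J3 r)) (e2 (e1 g)) := fun g =>
    Ideal.quotientEquiv_mk _ _ _ _ g
  refine ⟨e, ?_, ?_, ?_⟩
  · rw [he, a1, b2]
  · rw [he, b1, c2]
    rfl
  · intro c
    rw [he, a1, a2]

/-- `V[[X]]/(X_0 X_1 X_2 - π)` with `X_0 X_1 c` inverted -/
theorem csr3_pair {V : Type} [CommRing V] [IsDomain V] [IsPrincipalIdealRing V] [IsLocalRing V]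
    [IsAdicComplete (maximalIdeal V) V] (π : V) (hπ : Prime π) (r : ℕ) (c : V) (hc : c ≠ 0) :
    AF (Localization.Away (QuotBy.mk (csrRel π (J3 r))
      (MvPowerSeries.X 0 * MvPowerSeries.X 1 * MvPowerSeries.C c))) := by
  obtain ⟨hmax, ht, hu, htu, hut⟩ := k_data V π hπ
  have hK : IsAdicComplete (maximalIdeal (PowerSeries V)) (PowerSeries V) := t_CPLP V
  have hKd : IsDomain (PowerSeries V) := NoZeroDivisors.to_isDomain _
  have hBd : IsDomain (MvPowerSeries (Fin r) (PowerSeries (PowerSeries V))) :=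
    NoZeroDivisors.to_isDomain _
  have hc' : (PowerSeries.C c : PowerSeries V) ≠ 0 := by
    intro h
    apply hc
    have h1 := congrArg PowerSeries.constantCoeff h
    rwa [PowerSeries.constantCoeff_C, map_zero] at h1
  -- the ring `K[[x]][[X]][1/(x t c)]`
  have h1 := c_awayCX (PowerSeries V) PowerSeries.X (PowerSeries.C π) hmax ht
    (PowerSeries.X * PowerSeries.C c) (Or.inr ⟨_, hc', rfl⟩) r
  obtain ⟨e, he1, he2, -⟩ := t_SW r (PowerSeries V)
  have h2 := AF.away e.symm _ h1
  have h3 : e.symm (MvPowerSeries.C (PowerSeries.X * PowerSeries.C c) * MvPowerSeries.X 0) =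
      MvPowerSeries.C (PowerSeries.X * PowerSeries.C PowerSeries.X) *
        MvPowerSeries.C (PowerSeries.C (PowerSeries.C c)) := by
    apply e.injective
    rw [e.apply_symm_apply, map_mul, map_mul, he1, map_mul, map_mul, he1, he2]
    ring
  rw [h3] at h2
  have hs0 : (MvPowerSeries.C (PowerSeries.X * PowerSeries.C PowerSeries.X) :
      MvPowerSeries (Fin r) (PowerSeries (PowerSeries V))) ≠ 0 := by
    intro h0
    have h4 := congrArg MvPowerSeries.constantCoeff h0
    rw [MvPowerSeries.constantCoeff_C, map_zero] at h4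
    rcases mul_eq_zero.1 h4 with h5 | h5
    · exact PowerSeries.X_ne_zero h5
    · have h6 := congrArg PowerSeries.constantCoeff h5
      rw [PowerSeries.constantCoeff_C, map_zero] at h6
      exact PowerSeries.X_ne_zero h6
  obtain ⟨e3⟩ := HX.away_iso (MvPowerSeries (Fin r) (PowerSeries (PowerSeries V)))
    (MvPowerSeries.C (PowerSeries.X * PowerSeries.C PowerSeries.X))
    (MvPowerSeries.C (PowerSeries.C (PowerSeries.C π)))
    (MvPowerSeries.C (PowerSeries.C (PowerSeries.C c))) hs0 _ rfl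
  have h4 := AF.of_equiv e3 h2
  have h5 := t_N3 (PowerSeries V) PowerSeries.X (PowerSeries.C π) hmax ht hu htu hut r
    (PowerSeries.X * PowerSeries.C c) (mul_ne_zero ht.ne_zero hc') (by
      have h6 : (MvPowerSeries.C (PowerSeries.X * PowerSeries.C PowerSeries.X) *
        MvPowerSeries.C (PowerSeries.C (PowerSeries.C c)) :
          MvPowerSeries (Fin r) (PowerSeries (PowerSeries V))) =
          MvPowerSeries.C (PowerSeries.X * PowerSeries.C (PowerSeries.X * PowerSeries.C c)) := by
        rw [← map_mul, map_mul PowerSeries.C PowerSeries.X (PowerSeries.C c), mul_assoc]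
      rw [h6] at h4
      exact h4)
  obtain ⟨e4, a4, b4, d4⟩ := tri_equiv V π r
  have h6 := AF.away e4 _ h5
  have h7 : e4 (tm PowerSeries.X (PowerSeries.C π) r (MvPowerSeries.C (PowerSeries.X *
      PowerSeries.C (PowerSeries.X * PowerSeries.C c)))) =
      QuotBy.mk (csrRel π (J3 r)) (MvPowerSeries.X 0 * MvPowerSeries.X 1 * MvPowerSeries.C c) := by
    simp only [map_mul, a4, b4, d4]
    ring
  rwa [h7] at h6

end Pool.Agent.H9C.QR
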