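import Pool.Agent.H9C.QR.TRI

/-!
# Complete regular local rings with `π = x_0 x_1 x_2`, localised at `x_0 x_1` and `x_0 x_1 x_2`
-/

set_option autoImplicit false

open Polynomial

noncomputable section

namespace Pool.Agent.H9C.QR

open BQ Pool.Agent.H40.BP IsLocalRing Pool.Agent.W394.BQN Pool.Agent.H9C.CS

/-- multiplying a generator by a unit -/
theorem update_span {R : Type} [CommRing R] {n : ℕ} (x : Fin n → R) (i₀ : Fin n) (v : R)
    (hv : IsUnit v) : Ideal.span (Set.range (Function.update x i₀ (v * x i₀))) =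
      Ideal.span (Set.range x) := by
  obtain ⟨v, rfl⟩ := hv
  apply le_antisymm
  · rw [Ideal.span_le]
    rintro _ ⟨i, rfl⟩
    by_cases hi : i = i₀
    · subst hi
      rw [Function.update_self]
      exact Ideal.mul_mem_left _ _ (Ideal.subset_span ⟨_, rfl⟩)
    · rw [Function.update_of_ne hi]
      exact Ideal.subset_span ⟨i, rfl⟩
  · rw [Ideal.span_le]
    rintro _ ⟨i, rfl⟩
    by_cases hi : i = i₀
    · subst hi
      have h1 : x i = (↑v⁻¹ : R) * Function.update x i (↑v * x i) i := by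
        rw [Function.update_self, ← mul_assoc, Units.inv_mul, one_mul]
      have h2 := Ideal.mul_mem_left (Ideal.span (Set.range (Function.update x i (↑v * x i))))
        (↑v⁻¹ : R) (Ideal.subset_span ⟨i, rfl⟩)
      rwa [← h1] at h2
    · have h1 : x i = Function.update x i₀ (↑v * x i₀) i := by
        rw [Function.update_of_ne hi]
      rw [h1]
      exact Ideal.subset_span ⟨i, rfl⟩

/-- the presentation of `R` -/
theorem tri_coh {V : Type} [CommRing V] [IsDomain V] [IsPrincipalIdealRing V] [IsLocalRing V]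
    [IsAdicComplete (maximalIdeal V) V] (π : V) (hπ : Prime π)
    (R : Type) [CommRing R] [IsRegularLocalRing R] [IsAdicComplete (maximalIdeal R) R]
    (φ : V →+* R) (hφ : Function.Surjective ((residue R).comp φ)) (r : ℕ)
    (hn : ringKrullDim R = ((r + 3 : ℕ) : WithBot ℕ∞)) (x : Fin (r + 3) → R)
    (hx : maximalIdeal R = Ideal.span (Set.range x)) (v : R) (hv : IsUnit v)
    (h : φ π = v * (x 0 * x 1 * x 2)) :
    ∃ e : CSR V π (J3 r) ≃+* R, e (QuotBy.mk _ (MvPowerSeries.X 0)) = x 0 ∧
      e (QuotBy.mk _ (MvPowerSeries.X 1)) = x 1 ∧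
      ∀ c, e (QuotBy.mk _ (MvPowerSeries.C c)) = φ c := by
  have hv2 : ((2 : Fin (r + 3)) : ℕ) = 2 := rfl
  have h02 : (0 : Fin (r + 3)) ≠ 2 := by
    intro h
    have h5 := congrArg Fin.val h
    rw [hv2] at h5
    exact absurd h5 (by simp)
  have h12 : (1 : Fin (r + 3)) ≠ 2 := by
    intro h
    have h5 := congrArg Fin.val h
    rw [hv2] at h5
    exact absurd h5 (by simp)
  obtain ⟨e, he, hc⟩ := Pool.Agent.Q211.CS.t_COH V π hπ R φ hφ (r + 2) hn
    (Function.update x 2 (v * x 2)) (by rw [update_span x 2 v hv, hx]) (J3 r) (J3_nonempty r) (by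
      rw [prod_J3, Function.update_self, Function.update_of_ne h02, Function.update_of_ne h12, h]
      ring)
  refine ⟨e, ?_, ?_, fun c => hc c⟩
  · have h1 := he 0
    rw [Function.update_of_ne h02] at h1
    exact h1
  · have h1 := he 1
    rw [Function.update_of_ne h12] at h1
    exact h1

/-- `R[1/(x_0 x_1)]` and `R[1/(x_0 x_1 x_2)]` -/
theorem tri_nr {V : Type} [CommRing V] [IsDomain V] [IsPrincipalIdealRing V] [IsLocalRing V]
    [IsAdicComplete (maximalIdeal V) V] (π : V) (hπ : Prime π)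
    (R : Type) [CommRing R] [IsRegularLocalRing R] [IsAdicComplete (maximalIdeal R) R]
    (φ : V →+* R) (hφ : Function.Surjective ((residue R).comp φ)) (r : ℕ)
    (hn : ringKrullDim R = ((r + 3 : ℕ) : WithBot ℕ∞)) (x : Fin (r + 3) → R)
    (hx : maximalIdeal R = Ideal.span (Set.range x)) (v : R) (hv : IsUnit v)
    (h : φ π = v * (x 0 * x 1 * x 2)) :
    AllFree (Localization.Away (x 0 * x 1)) ∧ AllFree (Localization.Away (x 0 * x 1 * x 2)) := by
  obtain ⟨e, he0, he1, heC⟩ := tri_coh π hπ R φ hφ r hn x hx v hv h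
  constructor
  · have h1 := AF.away e _ (csr3_pair π hπ r 1 one_ne_zero)
    rw [map_mul, map_mul, map_mul, map_mul, he0, he1, heC, map_one, mul_one] at h1
    exact (allFree_iff_AF _).2 h1
  · have h1 := AF.away e _ (csr3_pair π hπ r π hπ.ne_zero)
    rw [map_mul, map_mul, map_mul, map_mul, he0, he1, heC] at h1
    obtain ⟨w, hw⟩ := hv.exists_right_inv
    refine (allFree_iff_AF _).2 (AF.away_congr ⟨2, w * x 2, ?_⟩ ⟨1, x 0 * x 1 * v, ?_⟩ h1)
    · rw [h]
      linear_combination (-(x 0 * x 1 * x 2) ^ 2) * hw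
    · rw [h]
      ring

end Pool.Agent.H9C.QR
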