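import Pool.Agent.H9C.QR.TRW
import Pool.Agent.H9C.QR.GN3
import Pool.Agent.H9C.QR.GLAR
import Pool.Agent.H9C.QR.COHM

/-!
# Complete regular local rings over a complete regular local ring `W` of dimension two with
`u = t^k x_0^(a+1) x_1`
-/

set_option autoImplicit false

open Polynomial

noncomputable section

namespace Pool.Agent.H9C.QR

open BQ Pool.Agent.H40.BP IsLocalRing Pool.Agent.W394.BQN Pool.Agent.H9C.CS Pool.Agent.H9C.DT

/-- absorption of a power -/
theorem abx_pow {B : Type} [CommRing B] (x s u : B) (n : ℕ)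
    (h : AF (Localization.Away (nm s u (Polynomial.C x)))) :
    AF (Localization.Away (nm (x ^ (n + 1) * s) u (Polynomial.C x))) := by
  have h1 : AF (Localization.Away (nm s u (Polynomial.C (x ^ (n + 1))))) :=
    AF.away_congr ⟨1, by
      rw [pow_one, Polynomial.C_pow, map_pow]
      exact dvd_pow_self _ (by omega)⟩ ⟨n + 1, by rw [Polynomial.C_pow, map_pow]⟩ h
  obtain ⟨e⟩ := abx (x ^ (n + 1)) s u
  exact AF.away_congr ⟨n + 1, by rw [Polynomial.C_pow, map_pow]⟩ ⟨1, by
      rw [pow_one, Polynomial.C_pow, map_pow]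
      exact dvd_pow_self _ (by omega)⟩ (AF.of_equiv e h1)

/-- the ring `K[[x]][[X]][w]/(x^(a+1) t^(k+1) w - u)` localised at `x` -/
theorem gm_single (K : Type) [CommRing K] [IsDomain K] [IsLocalRing K] [IsNoetherianRing K]
    [IsAdicComplete (maximalIdeal K) K] (t u : K) (hmax : maximalIdeal K = Ideal.span {t, u})
    (ht : Prime t) (hu : Prime u) (htu : ¬ t ∣ u) (hut : ¬ u ∣ t) (a k r : ℕ) :
    AF (Localization.Away (nm
      (MvPowerSeries.C (PowerSeries.X ^ (a + 1) * PowerSeries.C (t ^ (k + 1))) :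
        MvPowerSeries (Fin r) (PowerSeries K))
      (MvPowerSeries.C (PowerSeries.C u))
      (Polynomial.C (MvPowerSeries.C (PowerSeries.X * PowerSeries.C 1))))) := by
  have h1 := glar_qf K t u hmax ht hu htu hut k r _ rfl
  obtain ⟨e, he1, he2, -⟩ := t_SW r K
  have hs1 : e.symm (MvPowerSeries.C (t ^ (k + 1))) =
      MvPowerSeries.C (PowerSeries.C (t ^ (k + 1))) := by
    rw [← he1, e.symm_apply_apply]
  have hs2 : e.symm (MvPowerSeries.C u) = MvPowerSeries.C (PowerSeries.C u) := by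
    rw [← he1, e.symm_apply_apply]
  have hs3 : e.symm (MvPowerSeries.X 0) = MvPowerSeries.C PowerSeries.X := by
    rw [← he2, e.symm_apply_apply]
  let e1 : QF (rel 1 (MvPowerSeries.C (t ^ (k + 1)) : MvPowerSeries (Fin (r + 1)) K)
      (MvPowerSeries.C u)) ≃+*
      QF (rel 1 (MvPowerSeries.C (PowerSeries.C (t ^ (k + 1))) :
        MvPowerSeries (Fin r) (PowerSeries K)) (MvPowerSeries.C (PowerSeries.C u))) :=
    qfEquiv e.symm _ _ (by
      rw [Pool.Agent.H40.BP.map_rel]
      congr 1)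
  have he1v : ∀ g, e1 (qm _ (MvPolynomial.C g)) = qm _ (MvPolynomial.C (e.symm g)) := by
    intro g
    show Ideal.quotientEquiv _ _ _ _ (Ideal.Quotient.mk _ _) = _
    rw [Ideal.quotientEquiv_mk]
    congr 1
    rw [MvPolynomial.mapEquiv_apply, MvPolynomial.map_C]
    rfl
  have h2 := AF.away e1 _ h1
  rw [he1v, hs3] at h2
  obtain ⟨e2, he2v⟩ := node_iso' (MvPowerSeries.C (PowerSeries.C (t ^ (k + 1))) :
    MvPowerSeries (Fin r) (PowerSeries K)) (MvPowerSeries.C (PowerSeries.C u))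
  have h3 := AF.away e2 _ h2
  rw [he2v] at h3
  have h4 := abx_pow _ _ _ a h3
  have h5 : (MvPowerSeries.C (PowerSeries.X ^ (a + 1) * PowerSeries.C (t ^ (k + 1))) :
      MvPowerSeries (Fin r) (PowerSeries K)) =
      MvPowerSeries.C PowerSeries.X ^ (a + 1) * MvPowerSeries.C (PowerSeries.C (t ^ (k + 1))) := by
    rw [map_mul, map_pow]
  rw [map_one, mul_one, h5]
  exact h4

/-- if `s` becomes a unit nothing remains of `w` -/
theorem inv_gen {B : Type} [CommRing B] [IsDomain B] (s u y : B) (hs : s ≠ 0) (n : ℕ)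
    (hd : s * y ∣ y ^ n) (h : AF (Localization.Away y)) :
    AF (Localization.Away (nm s u (Polynomial.C y))) := by
  have h4 : AF (Localization.Away (s * y)) :=
    AF.away_congr ⟨1, by rw [pow_one]; exact dvd_mul_left _ _⟩ ⟨_, hd⟩ h
  obtain ⟨e3⟩ := HX.away_iso B s u y hs (nodeP s u) rfl
  have h5 : AF (Localization.Away (nm s u (Polynomial.C (s * y)))) := AF.of_equiv e3 h4
  obtain ⟨d, hd'⟩ := hd
  refine AF.away_congr ⟨n, nm s u (Polynomial.C d), ?_⟩ ⟨1, nm s u (Polynomial.C s), ?_⟩ h5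
  · rw [← map_pow, ← Polynomial.C_pow, hd', Polynomial.C_mul, map_mul]
  · rw [pow_one, Polynomial.C_mul, map_mul, mul_comm]

/-- the ring `K[[x]][[X]][w]/(x^(a+1) t^k w - u)` localised at `x c` if `t^k` becomes a unit -/
theorem gm_inv (K : Type) [CommRing K] [IsDomain K] [IsLocalRing K] [IsNoetherianRing K]
    [IsAdicComplete (maximalIdeal K) K] (v t' u s c : K)
    (hmax : maximalIdeal K = Ideal.span {v, t'}) (hv : Prime v) (hg : GoodS v c)
    (hs : s ≠ 0) (hsc : ∃ n, s ∣ c ^ n) (hc : c ≠ 0) (a r : ℕ) :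
    AF (Localization.Away (nm
      (MvPowerSeries.C (PowerSeries.X ^ (a + 1) * PowerSeries.C s) :
        MvPowerSeries (Fin r) (PowerSeries K))
      (MvPowerSeries.C (PowerSeries.C u))
      (Polynomial.C (MvPowerSeries.C (PowerSeries.X * PowerSeries.C c))))) := by
  have hKd : IsDomain (PowerSeries K) := NoZeroDivisors.to_isDomain _
  have hBd : IsDomain (MvPowerSeries (Fin r) (PowerSeries K)) :=
    NoZeroDivisors.to_isDomain _
  have h1 := c_awayCX K v t' hmax hv c hg r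
  obtain ⟨e, he1, he2, -⟩ := t_SW r K
  have h2 := AF.away e.symm _ h1
  have h3 : e.symm (MvPowerSeries.C c * MvPowerSeries.X 0) =
      MvPowerSeries.C (PowerSeries.X * PowerSeries.C c) := by
    apply e.injective
    rw [e.apply_symm_apply, map_mul, map_mul, he1, he2]
    ring
  rw [h3] at h2
  have hs0 : (MvPowerSeries.C (PowerSeries.X ^ (a + 1) * PowerSeries.C s) :
      MvPowerSeries (Fin r) (PowerSeries K)) ≠ 0 := by
    intro h0
    have h4 := congrArg MvPowerSeries.constantCoeff h0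
    rw [MvPowerSeries.constantCoeff_C, map_zero] at h4
    rcases mul_eq_zero.1 h4 with h5 | h5
    · exact pow_ne_zero _ PowerSeries.X_ne_zero h5
    · have h6 := congrArg PowerSeries.constantCoeff h5
      rw [PowerSeries.constantCoeff_C, map_zero] at h6
      exact hs h6
  obtain ⟨n, d, hd⟩ := hsc
  have h7 : (PowerSeries.C c : PowerSeries K) ^ n = PowerSeries.C s * PowerSeries.C d := by
    rw [← map_pow, hd, map_mul]
  have h8 : (PowerSeries.X * PowerSeries.C c : PowerSeries K) ^ (a + 1 + n + 1) =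
      (PowerSeries.X ^ (a + 1) * PowerSeries.C s * (PowerSeries.X * PowerSeries.C c)) *
        (PowerSeries.X ^ n * PowerSeries.C d * PowerSeries.C c ^ (a + 1)) := by
    calc (PowerSeries.X * PowerSeries.C c : PowerSeries K) ^ (a + 1 + n + 1) =
        PowerSeries.X ^ (a + 1 + n + 1) * (PowerSeries.C c ^ (a + 1) * PowerSeries.C c *
          PowerSeries.C c ^ n) := by ring
      _ = _ := by
        rw [h7]
        ring
  refine inv_gen _ _ _ hs0 (a + 1 + n + 1) ⟨MvPowerSeries.C (PowerSeries.X ^ n *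
    PowerSeries.C d * PowerSeries.C c ^ (a + 1)), ?_⟩ h2
  rw [← map_pow, h8, map_mul, map_mul]

/-- the presentation over `W[[x]]` -/
theorem trm_equiv (W : Type) [CommRing W] (s u : W) (a r : ℕ) :
    ∃ e : Mon a s u r ≃+* (MvPowerSeries (Fin (r + 2)) W ⧸ Ideal.span {(MvPowerSeries.C s *
        (MvPowerSeries.X 0 ^ (a + 1) * MvPowerSeries.X 1) - MvPowerSeries.C u :
          MvPowerSeries (Fin (r + 2)) W)}),
      e (mom _ _ _ r (MvPowerSeries.C PowerSeries.X)) =
        Ideal.Quotient.mk _ (MvPowerSeries.X 0) ∧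
      ∀ c : W, e (mom _ _ _ r (MvPowerSeries.C (PowerSeries.C c))) =
        Ideal.Quotient.mk _ (MvPowerSeries.C c) := by
  obtain ⟨e1, a1, b1, c1⟩ := t_SW (r + 1) W
  have hF : e1 (monF a s u r) = MvPowerSeries.C s *
        (MvPowerSeries.X 0 ^ (a + 1) * MvPowerSeries.X 1) - MvPowerSeries.C u := by
    rw [monF, map_mul, map_sub, map_mul, map_mul, map_pow, map_pow, b1, a1, a1, c1]
    have h3 : (Fin.succ (0 : Fin (r + 1))) = (1 : Fin (r + 2)) := rfl
    rw [h3]
    ring
  let e : Mon a s u r ≃+* (MvPowerSeries (Fin (r + 2)) W ⧸ Ideal.span {(MvPowerSeries.C s *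
        (MvPowerSeries.X 0 ^ (a + 1) * MvPowerSeries.X 1) - MvPowerSeries.C u :
          MvPowerSeries (Fin (r + 2)) W)}) :=
    Ideal.quotientEquiv _ _ e1 (by
      rw [Ideal.map_span, Set.image_singleton]
      congr 2
      exact hF.symm)
  have he : ∀ g, e (mom _ _ _ r g) = Ideal.Quotient.mk _ (e1 g) := fun g =>
    Ideal.quotientEquiv_mk _ _ _ _ g
  refine ⟨e, ?_, ?_⟩
  · rw [he, b1]
  · intro c
    rw [he, a1]

/-- `u = t^k x_0^(a+1) x_1`: the rings `R[1/x_0]`, `R[1/(x_0 t)]`, `R[1/(x_0 x_1 t)]` and, for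
`k = 0`, `R[1/(x_0 x_1)]` -/
theorem trm {W : Type} [CommRing W] [IsRegularLocalRing W] [IsAdicComplete (maximalIdeal W) W]
    (hW : ringKrullDim W = 2) (u t : W) (hut : maximalIdeal W = Ideal.span {u, t})
    (R : Type) [CommRing R] [IsRegularLocalRing R] [IsAdicComplete (maximalIdeal R) R]
    (φ : W →+* R) (hφ : Function.Surjective ((residue R).comp φ)) (r : ℕ)
    (hn : ringKrullDim R = ((r + 3 : ℕ) : WithBot ℕ∞)) (x : Fin (r + 2) → R)
    (hx : maximalIdeal R = Ideal.span (Set.range x ∪ {φ t})) (v : R) (hv : IsUnit v) (a k : ℕ)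
    (h : φ u = v * (φ t ^ k * (x 0 ^ (a + 1) * x 1))) :
    AllFree (Localization.Away (x 0)) ∧ AllFree (Localization.Away (x 0 * φ t)) ∧
      AllFree (Localization.Away (x 0 * x 1 * φ t)) ∧
      (k = 0 → AllFree (Localization.Away (x 0 * x 1))) := by
  obtain ⟨hWd, hmax, ht, hu, htu, hut'⟩ := w_data W hW u t hut
  have h01 : (0 : Fin (r + 2)) ≠ 1 := by simp
  obtain ⟨e, he, hc⟩ := cohm W hW u t hut R φ hφ (r + 1) hn
    (Function.update x 1 (v * x 1)) (by
      rw [Ideal.span_union, update_span x 1 v hv, ← Ideal.span_union, hx]) a k 0 1 (by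
      rw [Function.update_self, Function.update_of_ne h01, h]
      ring)
  have he0 := he 0
  rw [Function.update_of_ne h01] at he0
  obtain ⟨e1, a1, b1⟩ := trm_equiv W (t ^ k) u a r
  have hutk : ¬ u ∣ t ^ k := fun h => hut' (hu.dvd_of_dvd_pow h)
  have htk : t ^ k ≠ 0 := pow_ne_zero _ ht.ne_zero
  -- the general form
  have key : ∀ c : W, c ≠ 0 → AF (Localization.Away (nm
      (MvPowerSeries.C (PowerSeries.X ^ (a + 1) * PowerSeries.C (t ^ k)) :
        MvPowerSeries (Fin r) (PowerSeries W))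
      (MvPowerSeries.C (PowerSeries.C u))
      (Polynomial.C (MvPowerSeries.C (PowerSeries.X * PowerSeries.C c))))) →
      AF (Localization.Away (x 0 * φ c)) := by
    intro c hc0 hAF
    have h6 := AF.away e _ (AF.away e1 _ (gn3 W t u hmax hu (t ^ k) hutk a r c hc0 hAF))
    rw [map_mul, map_mul, map_mul, map_mul, a1, b1, he0, hc] at h6
    exact h6
  obtain ⟨w, hw⟩ := hv.exists_right_inv
  refine ⟨?_, ?_, ?_, ?_⟩
  · have h7 := key 1 one_ne_zero (by
      rcases k with _ | k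
      · exact gm_inv W u t u (t ^ 0) 1 hut hu (Or.inl rfl) htk ⟨0, by simp⟩
          one_ne_zero a r
      · exact gm_single W t u hmax ht hu htu hut' a k r)
    rw [map_one, mul_one] at h7
    exact (allFree_iff_AF _).2 h7
  · exact (allFree_iff_AF _).2 (key t ht.ne_zero (gm_inv W t u u (t ^ k) t hmax ht
      (Or.inr ⟨1, one_ne_zero, (mul_one t).symm⟩) htk ⟨k, dvd_refl _⟩ ht.ne_zero a r))
  · have h6 := key (t * u) (mul_ne_zero ht.ne_zero hu.ne_zero) (gm_inv W t u u (t ^ k) (t * u)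
      hmax ht (Or.inr ⟨u, hu.ne_zero, rfl⟩) htk ⟨k, by
        rw [mul_pow]
        exact dvd_mul_right _ _⟩ (mul_ne_zero ht.ne_zero hu.ne_zero) a r)
    rw [map_mul, h] at h6
    refine (allFree_iff_AF _).2 (AF.away_congr ⟨a + k + 2,
      w * x 1 ^ (a + k + 1) * x 0 ^ k * φ t ^ (a + 1), ?_⟩
      ⟨1, v * (φ t ^ k * x 0 ^ (a + 1)), ?_⟩ h6)
    · have h8 : (x 0 * x 1 * φ t) ^ (a + k + 2) =
          (x 0 * (φ t * (v * (φ t ^ k * (x 0 ^ (a + 1) * x 1))))) *
            (w * x 1 ^ (a + k + 1) * x 0 ^ k * φ t ^ (a + 1)) := by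
        have h9 : (x 0 * (φ t * (v * (φ t ^ k * (x 0 ^ (a + 1) * x 1))))) *
            (w * x 1 ^ (a + k + 1) * x 0 ^ k * φ t ^ (a + 1)) =
            (v * w) * (x 0 * x 1 * φ t) ^ (a + k + 2) := by ring
        rw [h9, hw, one_mul]
      exact h8
    · ring
  · rintro rfl
    have h6 := key u hu.ne_zero (gm_inv W u t u (t ^ 0) u hut hu
      (Or.inr ⟨1, one_ne_zero, (mul_one u).symm⟩) htk ⟨0, by simp⟩ hu.ne_zero a r)
    rw [h] at h6
    refine (allFree_iff_AF _).2 (AF.away_congr ⟨a + 2, w * x 1 ^ (a + 1), ?_⟩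
      ⟨1, v * x 0 ^ (a + 1), ?_⟩ h6)
    · have h9 : (x 0 * (v * (φ t ^ 0 * (x 0 ^ (a + 1) * x 1)))) * (w * x 1 ^ (a + 1)) =
          (v * w) * (x 0 * x 1) ^ (a + 2) := by ring
      rw [h9, hw, one_mul]
    · ring

end Pool.Agent.H9C.QR
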