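import Pool.Agent.H9C.QR.TRM
import Pool.Agent.H9C.DT.Asm
import Pool.Agent.H9C.DT.Fin2

/-!
# Complete regular local rings with `π = x_0^(a+1) x_1 x_2^k` up to a unit
-/

set_option autoImplicit false

open Polynomial

noncomputable section

namespace Pool.Agent.H9C.QR

open BQ Pool.Agent.H40.BP IsLocalRing Pool.Agent.W394.BQN Pool.Agent.H9C.CS Pool.Agent.H9C.DT
open Pool.Agent.Q211.CS (exists_ev maxS)
open Pool.Agent.H40.BP.REG3 (dim_mv)

/-- the ring `V[[t]]` -/
theorem vt_data {V : Type} [CommRing V] [IsDomain V] [IsPrincipalIdealRing V] [IsLocalRing V]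
    [IsAdicComplete (maximalIdeal V) V] (π : V) (hπ : Prime π) :
    IsRegularLocalRing (MvPowerSeries (Fin 1) V) ∧
    IsAdicComplete (maximalIdeal (MvPowerSeries (Fin 1) V)) (MvPowerSeries (Fin 1) V) ∧
    ringKrullDim (MvPowerSeries (Fin 1) V) = 2 ∧
    maximalIdeal (MvPowerSeries (Fin 1) V) = Ideal.span {MvPowerSeries.C π, MvPowerSeries.X 0} := by
  have hVr : IsRegularLocalRing V := inferInstance
  refine ⟨t_RGP 1 V, t_CPL 1 V, ?_, ?_⟩
  · have h1 := dim_mv 1 1 V (REG3.dim_V π hπ)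
    rw [h1]
    rfl
  · rw [maxS π hπ 1]
    apply le_antisymm
    · rw [Ideal.span_le]
      rintro _ (⟨i, rfl⟩ | h)
      · have hi : i = 0 := Subsingleton.elim _ _
        subst hi
        exact Ideal.subset_span (Or.inr rfl)
      · exact Ideal.subset_span (Or.inl h)
    · rw [Ideal.span_le]
      rintro _ (rfl | h)
      · exact Ideal.subset_span (Or.inr rfl)
      · rw [Set.mem_singleton_iff] at h
        subst h
        exact Ideal.subset_span (Or.inl ⟨0, rfl⟩)

theorem two_succAbove (r : ℕ) : (2 : Fin (r + 3)).succAbove 0 = 0 ∧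
    (2 : Fin (r + 3)).succAbove 1 = 1 := by
  have hv : ((2 : Fin (r + 3)) : ℕ) = 2 := rfl
  constructor
  · rw [Fin.succAbove_of_castSucc_lt]
    · rfl
    · rw [Fin.lt_def, hv]
      simp
  · rw [Fin.succAbove_of_castSucc_lt]
    · rfl
    · rw [Fin.lt_def, hv]
      simp

/-- `π = x_0^(a+1) x_1 x_2^k` up to a unit: the rings `R[1/x_0]`, `R[1/(x_0 x_2)]`,
`R[1/(x_0 x_1 x_2)]` and, for `k = 0`, `R[1/(x_0 x_1)]` -/
theorem trv {V : Type} [CommRing V] [IsDomain V] [IsPrincipalIdealRing V] [IsLocalRing V]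
    [IsAdicComplete (maximalIdeal V) V] (π : V) (hπ : Prime π)
    (R : Type) [CommRing R] [IsRegularLocalRing R] [IsAdicComplete (maximalIdeal R) R]
    (φ : V →+* R) (hφ : Function.Surjective ((residue R).comp φ)) (r : ℕ)
    (hn : ringKrullDim R = ((r + 3 : ℕ) : WithBot ℕ∞)) (x : Fin (r + 3) → R)
    (hx : maximalIdeal R = Ideal.span (Set.range x)) (v : R) (hv : IsUnit v) (a k : ℕ)
    (h : φ π = v * (x 0 ^ (a + 1) * x 1 * x 2 ^ k)) :
    AllFree (Localization.Away (x 0)) ∧ AllFree (Localization.Away (x 0 * x 2)) ∧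
      AllFree (Localization.Away (x 0 * x 1 * x 2)) ∧
      (k = 0 → AllFree (Localization.Away (x 0 * x 1))) := by
  obtain ⟨hW1, hW2, hW3, hW4⟩ := vt_data π hπ
  have hxm : ∀ i, x i ∈ maximalIdeal R := fun i => by
    rw [hx]
    exact Ideal.subset_span ⟨i, rfl⟩
  obtain ⟨ev, hevC, hevX⟩ := exists_ev (maximalIdeal R) φ (fun _ : Fin 1 => x 2)
    (fun _ => hxm 2)
  obtain ⟨h20, h21⟩ := two_succAbove r
  have hX : ev (MvPowerSeries.X 0) = x 2 := hevX 0
  have hs : Function.Surjective ((residue R).comp ev) := by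
    intro b
    obtain ⟨c, hc⟩ := hφ b
    refine ⟨MvPowerSeries.C c, ?_⟩
    rw [RingHom.comp_apply, hevC]
    exact hc
  have hr : maximalIdeal R = Ideal.span (Set.range (fun i => x ((2 : Fin (r + 3)).succAbove i)) ∪
      {ev (MvPowerSeries.X 0)}) := by
    rw [hX, hx]
    congr 1
    apply Set.Subset.antisymm
    · rintro _ ⟨j, rfl⟩
      rcases Fin.eq_self_or_eq_succAbove (2 : Fin (r + 3)) j with rfl | ⟨i, rfl⟩
      · exact Or.inr rfl
      · exact Or.inl ⟨i, rfl⟩
    · rintro _ (⟨i, rfl⟩ | h)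
      · exact ⟨_, rfl⟩
      · rw [Set.mem_singleton_iff] at h
        subst h
        exact ⟨2, rfl⟩
  have key := trm hW3 (MvPowerSeries.C π) (MvPowerSeries.X 0) hW4 R ev hs r hn
    (fun i => x ((2 : Fin (r + 3)).succAbove i)) hr v hv a k (by
      rw [hevC, hX, h20, h21, h]
      ring)
  have e0 : x ((2 : Fin (r + 3)).succAbove 0) = x 0 := congrArg x h20
  have e1 : x ((2 : Fin (r + 3)).succAbove 1) = x 1 := congrArg x h21
  rw [e0, e1, hX] at key
  exact key

/-- power series in two elements -/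
theorem trs (p : ℕ) [Fact p.Prime] (R : Type) [CommRing R]
    [IsRegularLocalRing R] [IsAdicComplete (maximalIdeal R) R] [CharP (ResidueField R) p]
    (hperf : Function.Surjective (fun a : ResidueField R => a ^ p)) (r : ℕ)
    (hn : ringKrullDim R = ((r + 3 : ℕ) : WithBot ℕ∞)) (x : Fin (r + 2) → R) (t : R)
    (hx : maximalIdeal R = Ideal.span (Set.range x ∪ {t})) (a k : ℕ)
    (ψ : MvPowerSeries (Fin 2) (WittVector p (ResidueField R)) →+* R)
    (hψ : Function.Surjective ((residue R).comp ψ)) (v : R) (hv : IsUnit v)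
    (h0 : ψ (MvPowerSeries.X 0) = v * (t ^ k * (x 0 ^ (a + 1) * x 1)))
    (h1 : ψ (MvPowerSeries.X 1) = t)
    (g : MvPowerSeries (Fin 2) (WittVector p (ResidueField R)))
    (hg : g ∈ Ideal.span {MvPowerSeries.X 0, MvPowerSeries.X 1}) (hgp : ψ g = (p : R)) :
    AllFree (Localization.Away (x 0)) ∧ AllFree (Localization.Away (x 0 * t)) ∧
      AllFree (Localization.Away (x 0 * x 1 * t)) ∧
      (k = 0 → AllFree (Localization.Away (x 0 * x 1))) := by
  have hP : PerfectRing (ResidueField R) p := PerfectRing.ofSurjective _ p hperf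
  obtain ⟨i1, i2, i3, hdim, hmax⟩ := Pool.Agent.H9C.DT.parts.wit p (ResidueField R) g hg
  let I : Ideal (MvPowerSeries (Fin 2) (WittVector p (ResidueField R))) :=
    Ideal.span {g - (p : MvPowerSeries (Fin 2) (WittVector p (ResidueField R)))}
  let φ : (MvPowerSeries (Fin 2) (WittVector p (ResidueField R)) ⧸ I) →+* R :=
    Ideal.Quotient.lift I ψ (fun a ha => by
      obtain ⟨b, rfl⟩ := Ideal.mem_span_singleton.1 ha
      rw [map_mul, map_sub, map_natCast, hgp, sub_self, zero_mul])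
  have hφ : ∀ a, φ (Ideal.Quotient.mk I a) = ψ a := fun a => Ideal.Quotient.lift_mk _ _ _
  have hφt : φ (Ideal.Quotient.mk I (MvPowerSeries.X 1)) = t := (hφ _).trans h1
  have key := trm hdim (Ideal.Quotient.mk I (MvPowerSeries.X 0))
    (Ideal.Quotient.mk I (MvPowerSeries.X 1)) hmax R φ (by
      intro a
      obtain ⟨b, hb⟩ := hψ a
      exact ⟨Ideal.Quotient.mk I b, (congrArg (residue R) (hφ b)).trans hb⟩) r hn x
    (by rw [hφt]; exact hx) v hv a k (by rw [hφ, hφt, h0])
  rw [hφt] at key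
  exact key

end Pool.Agent.H9C.QR
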