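import Pool.Agent.H9C.QR.ABX
import Pool.Agent.H9C.QR.REGG
import Pool.Agent.H9C.DT.Par

/-!
# Complete regular local rings over a complete regular local ring `W` of dimension two with
`u = t x_0 x_1`
-/

set_option autoImplicit false

open Polynomial

noncomputable section

namespace Pool.Agent.H9C.QR

open BQ Pool.Agent.H40.BP IsLocalRing Pool.Agent.W394.BQN Pool.Agent.H9C.CS Pool.Agent.H9C.DT

theorem w_ndvd (W : Type) [CommRing W] [IsRegularLocalRing W] (hW : ringKrullDim W = 2) (u t : W)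
    (hut : maximalIdeal W = Ideal.span {u, t}) : ¬ t ∣ u := by
  rintro ⟨c, rfl⟩
  have h1 : maximalIdeal W = Ideal.span {0, t} := by
    rw [hut]
    apply le_antisymm
    · rw [Ideal.span_le]
      rintro _ (rfl | h)
      · exact Ideal.mul_mem_right _ _ (Ideal.subset_span (by simp))
      · exact Ideal.subset_span (Or.inr h)
    · rw [Ideal.span_le]
      rintro _ (rfl | h)
      · exact Ideal.zero_mem _
      · exact Ideal.subset_span (Or.inr h)
  exact Pool.Agent.Q162.DT.u_ne_zero hW 0 t h1 rfl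

theorem w_data (W : Type) [CommRing W] [IsRegularLocalRing W] (hW : ringKrullDim W = 2) (u t : W)
    (hut : maximalIdeal W = Ideal.span {u, t}) :
    IsDomain W ∧ maximalIdeal W = Ideal.span {t, u} ∧ Prime t ∧ Prime u ∧ ¬ t ∣ u ∧ ¬ u ∣ t := by
  have hut' : maximalIdeal W = Ideal.span {t, u} := by rw [hut, Set.pair_comm]
  have hum : u ∈ maximalIdeal W := by
    rw [hut]
    exact Ideal.subset_span (by simp)
  have htm : t ∈ maximalIdeal W := by
    rw [hut]
    exact Ideal.subset_span (by simp)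
  exact ⟨Pool.Agent.H379R3.isDomain _, hut',
    prime_of_order_one W hW t htm (order_one W hW t u hut'),
    prime_of_order_one W hW u hum (order_one W hW u t hut), w_ndvd W hW u t hut,
    w_ndvd W hW t u hut'⟩

/-- the ring `K[[x]][[X]][w]/(x t w - u)` localised at `x t c` -/
theorem n3_pair (K : Type) [CommRing K] [IsDomain K] [IsLocalRing K] [IsNoetherianRing K]
    [IsAdicComplete (maximalIdeal K) K] (t u : K) (hmax : maximalIdeal K = Ideal.span {t, u})
    (ht : Prime t) (c : K) (hc : c ≠ 0) (r : ℕ) :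
    AF (Localization.Away (nm
      (MvPowerSeries.C (PowerSeries.X * PowerSeries.C t) : MvPowerSeries (Fin r) (PowerSeries K))
      (MvPowerSeries.C (PowerSeries.C u))
      (Polynomial.C (MvPowerSeries.C (PowerSeries.X * PowerSeries.C (t * c)))))) := by
  have hKd : IsDomain (PowerSeries K) := NoZeroDivisors.to_isDomain _
  have hBd : IsDomain (MvPowerSeries (Fin r) (PowerSeries K)) :=
    NoZeroDivisors.to_isDomain _
  have h1 := c_awayCX K t u hmax ht (t * c) (Or.inr ⟨_, hc, rfl⟩) r
  obtain ⟨e, he1, he2, -⟩ := t_SW r K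
  have h2 := AF.away e.symm _ h1
  have h3 : e.symm (MvPowerSeries.C (t * c) * MvPowerSeries.X 0) =
      MvPowerSeries.C (PowerSeries.X * PowerSeries.C t) *
        MvPowerSeries.C (PowerSeries.C c) := by
    apply e.injective
    rw [e.apply_symm_apply, map_mul, map_mul, he1, map_mul, map_mul, he1, he2]
    ring
  rw [h3] at h2
  have hs0 : (MvPowerSeries.C (PowerSeries.X * PowerSeries.C t) :
      MvPowerSeries (Fin r) (PowerSeries K)) ≠ 0 := by
    intro h0
    have h4 := congrArg MvPowerSeries.constantCoeff h0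
    rw [MvPowerSeries.constantCoeff_C, map_zero] at h4
    rcases mul_eq_zero.1 h4 with h5 | h5
    · exact PowerSeries.X_ne_zero h5
    · have h6 := congrArg PowerSeries.constantCoeff h5
      rw [PowerSeries.constantCoeff_C, map_zero] at h6
      exact ht.ne_zero h6
  obtain ⟨e3⟩ := HX.away_iso (MvPowerSeries (Fin r) (PowerSeries K))
    (MvPowerSeries.C (PowerSeries.X * PowerSeries.C t))
    (MvPowerSeries.C (PowerSeries.C u))
    (MvPowerSeries.C (PowerSeries.C c)) hs0 _ rfl
  have h4 := AF.of_equiv e3 h2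
  have h6 : (MvPowerSeries.C (PowerSeries.X * PowerSeries.C t) *
    MvPowerSeries.C (PowerSeries.C c) : MvPowerSeries (Fin r) (PowerSeries K)) =
      MvPowerSeries.C (PowerSeries.X * PowerSeries.C (t * c)) := by
    rw [← map_mul, map_mul PowerSeries.C t c, mul_assoc]
  rw [h6] at h4
  exact h4

/-- the presentation over `W[[x]]` -/
theorem triw_equiv (W : Type) [CommRing W] (t u : W) (r : ℕ) :
    ∃ e : Triple t u r ≃+* (MvPowerSeries (Fin (r + 2)) W ⧸ Ideal.span {(MvPowerSeries.C t *
        (MvPowerSeries.X 0 * MvPowerSeries.X 1) - MvPowerSeries.C u :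
          MvPowerSeries (Fin (r + 2)) W)}),
      e (tm _ _ r (MvPowerSeries.C PowerSeries.X)) = Ideal.Quotient.mk _ (MvPowerSeries.X 0) ∧
      ∀ c : W, e (tm _ _ r (MvPowerSeries.C (PowerSeries.C c))) =
        Ideal.Quotient.mk _ (MvPowerSeries.C c) := by
  obtain ⟨e1, a1, b1, c1⟩ := t_SW (r + 1) W
  have hF : e1 (tripleF t u r) = MvPowerSeries.C t *
        (MvPowerSeries.X 0 * MvPowerSeries.X 1) - MvPowerSeries.C u := by
    rw [tripleF, map_mul, map_sub, map_mul, map_mul, b1, a1, a1, c1]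
    have h3 : (Fin.succ (0 : Fin (r + 1))) = (1 : Fin (r + 2)) := rfl
    rw [h3]
    ring
  let e : Triple t u r ≃+* (MvPowerSeries (Fin (r + 2)) W ⧸ Ideal.span {(MvPowerSeries.C t *
        (MvPowerSeries.X 0 * MvPowerSeries.X 1) - MvPowerSeries.C u :
          MvPowerSeries (Fin (r + 2)) W)}) :=
    Ideal.quotientEquiv _ _ e1 (by
      rw [Ideal.map_span, Set.image_singleton]
      congr 2
      exact hF.symm)
  have he : ∀ g, e (tm _ _ r g) = Ideal.Quotient.mk _ (e1 g) := fun g =>
    Ideal.quotientEquiv_mk _ _ _ _ g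
  refine ⟨e, ?_, ?_⟩
  · rw [he, b1]
  · intro c
    rw [he, a1]

/-- `u = t x_0 x_1`: the rings `R[1/x_0]`, `R[1/(x_0 t)]`, `R[1/(x_0 x_1 t)]` -/
theorem trw {W : Type} [CommRing W] [IsRegularLocalRing W] [IsAdicComplete (maximalIdeal W) W]
    (hW : ringKrullDim W = 2) (u t : W) (hut : maximalIdeal W = Ideal.span {u, t})
    (R : Type) [CommRing R] [IsRegularLocalRing R] [IsAdicComplete (maximalIdeal R) R]
    (φ : W →+* R) (hφ : Function.Surjective ((residue R).comp φ)) (r : ℕ)
    (hn : ringKrullDim R = ((r + 3 : ℕ) : WithBot ℕ∞)) (x : Fin (r + 2) → R)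
    (hx : maximalIdeal R = Ideal.span (Set.range x ∪ {φ t})) (v : R) (hv : IsUnit v)
    (h : φ u = v * (φ t * (x 0 * x 1))) :
    AllFree (Localization.Away (x 0)) ∧ AllFree (Localization.Away (x 0 * φ t)) ∧
      AllFree (Localization.Away (x 0 * x 1 * φ t)) := by
  obtain ⟨hWd, hmax, ht, hu, htu, hut'⟩ := w_data W hW u t hut
  have h01 : (0 : Fin (r + 2)) ≠ 1 := by simp
  obtain ⟨e, he, hc⟩ := cohg W hW u t hut R φ hφ (r + 1) hn
    (Function.update x 1 (v * x 1)) (by
      rw [Ideal.span_union, update_span x 1 v hv, ← Ideal.span_union, hx]) 0 1 (by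
      rw [Function.update_self, Function.update_of_ne h01, h]
      ring)
  have he0 := he 0
  rw [Function.update_of_ne h01] at he0
  obtain ⟨e1, a1, b1⟩ := triw_equiv W t u r
  refine ⟨?_, ?_, ?_⟩
  · have h5 := t_N3 W t u hmax ht hu htu hut' r 1 one_ne_zero
      (n3_input W t u hmax ht hu htu hut' r)
    have h6 := AF.away e _ (AF.away e1 _ h5)
    rw [map_one, mul_one, a1, he0] at h6
    exact (allFree_iff_AF _).2 h6
  · have h5 := t_N3 W t u hmax ht hu htu hut' r (t * 1) (mul_ne_zero ht.ne_zero one_ne_zero)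
      (n3_pair W t u hmax ht 1 one_ne_zero r)
    have h6 := AF.away e _ (AF.away e1 _ h5)
    rw [mul_one, map_mul, map_mul, map_mul, map_mul, a1, b1, he0, hc] at h6
    exact (allFree_iff_AF _).2 h6
  · have h5 := t_N3 W t u hmax ht hu htu hut' r (t * u) (mul_ne_zero ht.ne_zero hu.ne_zero)
      (n3_pair W t u hmax ht u hu.ne_zero r)
    have h6 := AF.away e _ (AF.away e1 _ h5)
    rw [map_mul, map_mul, map_mul, map_mul, a1, b1, he0, hc, map_mul, h] at h6
    obtain ⟨w, hw⟩ := hv.exists_right_inv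
    refine (allFree_iff_AF _).2 (AF.away_congr ⟨2, w * x 1, ?_⟩
      ⟨1, x 0 * φ t * v, ?_⟩ h6)
    · linear_combination (-(x 0 * x 1 * φ t) ^ 2) * hw
    · ring

end Pool.Agent.H9C.QR
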